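import Mathlib

/-!
# Second-order arithmetic: definitions

The language `L_2` of second-order arithmetic is set up with de Bruijn indices, separately for
number variables and set variables. This file contains the definitions used in the statement that
no `Π^1_1`-sound `Σ^1_1`-definable extension of `ACA_0` proves its own `Π^1_1`-soundness.
-/

namespace Pool.Agent.Lib.MP_3ad381_lc

/-- Number terms of the language `L_2` of second-order arithmetic. `var n` is the number variable
with de Bruijn index `n`. -/
inductive Tm : Type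
  | var : ℕ → Tm
  | zero : Tm
  | one : Tm
  | add : Tm → Tm → Tm
  | mul : Tm → Tm → Tm

/-- Formulas of `L_2`. `mem t X` is `t ∈ X` for the set variable with de Bruijn index `X`;
`allN` is the number quantifier, `allS` the set quantifier. -/
inductive Fm : Type
  | eq : Tm → Tm → Fm
  | lt : Tm → Tm → Fm
  | mem : Tm → ℕ → Fm
  | fal : Fm
  | imp : Fm → Fm → Fm
  | allN : Fm → Fm
  | allS : Fm → Fm

namespace Fm
/-- Negation. -/
def neg (φ : Fm) : Fm := φ.imp fal
/-- Conjunction. -/
def and (φ ψ : Fm) : Fm := (φ.imp ψ.neg).neg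
/-- Disjunction. -/
def or (φ ψ : Fm) : Fm := φ.neg.imp ψ
/-- Equivalence. -/
def iff (φ ψ : Fm) : Fm := (φ.imp ψ).and (ψ.imp φ)
/-- Existential number quantifier. -/
def exN (φ : Fm) : Fm := φ.neg.allN.neg
/-- Existential set quantifier. -/
def exS (φ : Fm) : Fm := φ.neg.allS.neg

/-- Arithmetical formulas: no set quantifier. -/
def Arith : Fm → Prop
  | eq _ _ => True
  | lt _ _ => True
  | mem _ _ => True
  | fal => True
  | imp φ ψ => φ.Arith ∧ ψ.Arith
  | allN φ => φ.Arith
  | allS _ => False

end Fm

/-- All number variables of the term have index `< k`. -/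
def Tm.Closed (k : ℕ) : Tm → Prop
  | .var n => n < k
  | .zero => True
  | .one => True
  | .add s t => s.Closed k ∧ t.Closed k
  | .mul s t => s.Closed k ∧ t.Closed k

/-- All free number variables of the formula have index `< k` and all its free set variables have
index `< l`. -/
def Fm.Closed : ℕ → ℕ → Fm → Prop
  | k, _, .eq s t => s.Closed k ∧ t.Closed k
  | k, _, .lt s t => s.Closed k ∧ t.Closed k
  | k, l, .mem t X => t.Closed k ∧ X < l
  | _, _, .fal => True
  | k, l, .imp φ ψ => φ.Closed k l ∧ ψ.Closed k l
  | k, l, .allN φ => φ.Closed (k + 1) l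
  | k, l, .allS φ => φ.Closed k (l + 1)

/-- The set variable with index `X` is not free in the formula. -/
def Fm.NotFreeS : ℕ → Fm → Prop
  | _, .eq _ _ => True
  | _, .lt _ _ => True
  | X, .mem _ Y => Y ≠ X
  | _, .fal => True
  | X, .imp φ ψ => φ.NotFreeS X ∧ ψ.NotFreeS X
  | X, .allN φ => φ.NotFreeS X
  | X, .allS φ => φ.NotFreeS (X + 1)

/-- Sentences: formulas without free variables. -/
def Fm.Sentence (φ : Fm) : Prop := φ.Closed 0 0

/-! ### Semantics -/

/-- A (Henkin) structure for `L_2`: a number domain with its operations and a nonempty family of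
subsets of it over which the set variables range. -/
structure Str where
  /-- the numbers -/
  M : Type
  /-- interpretation of `0` -/
  zero : M
  /-- interpretation of `1` -/
  one : M
  /-- interpretation of `+` -/
  add : M → M → M
  /-- interpretation of `·` -/
  mul : M → M → M
  /-- interpretation of `<` -/
  lt : M → M → Prop
  /-- the range of the set variables -/
  sets : Set (Set M)
  sets_nonempty : sets.Nonempty

/-- The assignment that gives `x` to the variable `0` and `e n` to the variable `n + 1`. -/
def cons {α : Type} (x : α) (e : ℕ → α) : ℕ → α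
  | 0 => x
  | n + 1 => e n

/-- Value of a term. -/
def Tm.val (A : Str) (e : ℕ → A.M) : Tm → A.M
  | .var n => e n
  | .zero => A.zero
  | .one => A.one
  | .add s t => A.add (s.val A e) (t.val A e)
  | .mul s t => A.mul (s.val A e) (t.val A e)

/-- Truth of a formula in a structure under assignments to the number and the set variables. -/
def Fm.Holds (A : Str) : (ℕ → A.M) → (ℕ → Set A.M) → Fm → Prop
  | e, _, .eq s t => s.val A e = t.val A e
  | e, _, .lt s t => A.lt (s.val A e) (t.val A e)
  | e, E, .mem t X => t.val A e ∈ E X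
  | _, _, .fal => False
  | e, E, .imp φ ψ => φ.Holds A e E → ψ.Holds A e E
  | e, E, .allN φ => ∀ x, φ.Holds A (cons x e) E
  | e, E, .allS φ => ∀ X ∈ A.sets, φ.Holds A e (cons X E)

/-- `A ⊨ φ`: the formula is true in `A` under all assignments. -/
def Str.Models (A : Str) (φ : Fm) : Prop :=
  ∀ (e : ℕ → A.M) (E : ℕ → Set A.M), (∀ i, E i ∈ A.sets) → φ.Holds A e E

/-- `T ⊢ φ`, stated as truth of `φ` in every model of `T` (by Gödel's completeness theorem for the
two-sorted first-order logic of `L_2` this is provability of `φ` in `T`). -/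
def Proves (T : Set Fm) (φ : Fm) : Prop :=
  ∀ A : Str, (∀ ψ ∈ T, A.Models ψ) → A.Models φ

/-- The standard model `(ℕ, 𝒫(ℕ))`. -/
def stdModel : Str where
  M := ℕ
  zero := 0
  one := 1
  add := (· + ·)
  mul := (· * ·)
  lt := (· < ·)
  sets := Set.univ
  sets_nonempty := ⟨∅, trivial⟩

/-! ### The theory `ACA_0` -/

/-- Prefix a formula with `k` universal number quantifiers. -/
def allNs : ℕ → Fm → Fm
  | 0, φ => φ
  | k + 1, φ => allNs k φ.allN

/-- Prefix a formula with `l` universal set quantifiers. -/
def allSs : ℕ → Fm → Fm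
  | 0, φ => φ
  | l + 1, φ => allSs l φ.allS

open Fm Tm in
/-- The axioms of `ACA_0`: the basic axioms of arithmetic, the induction axiom and
(the universal closures of) all instances `∃X ∀n (n ∈ X ↔ φ(n))` of arithmetical comprehension,
where `X` is not free in `φ`, and `φ` may contain other free number and set variables. -/
inductive ACA0 : Fm → Prop
  | b1 : ACA0 (allN (eq (add (var 0) one) zero).neg)
  | b2 : ACA0 (allN (allN ((eq (add (var 1) one) (add (var 0) one)).imp (eq (var 1) (var 0)))))
  | b3 : ACA0 (allN (eq (add (var 0) zero) (var 0)))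
  | b4 : ACA0 (allN (allN (eq (add (var 1) (add (var 0) one)) (add (add (var 1) (var 0)) one))))
  | b5 : ACA0 (allN (eq (mul (var 0) zero) zero))
  | b6 : ACA0 (allN (allN (eq (mul (var 1) (add (var 0) one)) (add (mul (var 1) (var 0)) (var 1)))))
  | b7 : ACA0 (allN (lt (var 0) zero).neg)
  | b8 : ACA0 (allN (allN
      ((lt (var 1) (add (var 0) one)).iff ((lt (var 1) (var 0)).or (eq (var 1) (var 0))))))
  | ind : ACA0 (allS (((mem zero 0).and (allN ((mem (var 0) 0).imp (mem (add (var 0) one) 0)))).imp
      (allN (mem (var 0) 0))))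
  | comp (k l : ℕ) (φ : Fm) : φ.Arith → φ.NotFreeS 0 → φ.Closed (k + 1) (l + 1) →
      ACA0 (allNs k (allSs l (exS (allN ((mem (var 0) 0).iff φ)))))

/-- `T` extends `ACA_0`: every axiom of `ACA_0` is provable in `T`. -/
def ExtendsACA0 (T : Set Fm) : Prop := ∀ φ, ACA0 φ → Proves T φ

/-! ### `Σ^1_1` and `Π^1_1` -/

/-- `Σ^1_1` formulas: `∃X_1 … ∃X_k θ` with `θ` arithmetical. -/
inductive IsSigma11 : Fm → Prop
  | arith (θ : Fm) : θ.Arith → IsSigma11 θ
  | exS (φ : Fm) : IsSigma11 φ → IsSigma11 φ.exS

/-- `Π^1_1` sentences `∀X θ`, with `θ` arithmetical. -/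
def IsPi11Sentence (φ : Fm) : Prop := φ.Sentence ∧ ∃ θ : Fm, θ.Arith ∧ φ = θ.allS

/-- `T` is `Π^1_1`-sound: every `Π^1_1` sentence provable in `T` is true in the standard model. -/
def Pi11Sound (T : Set Fm) : Prop := ∀ φ, IsPi11Sentence φ → Proves T φ → stdModel.Models φ

/-! ### Gödel numbers -/

/-- An injective polynomial pairing function. -/
def pr (a b : ℕ) : ℕ := (a + b) * (a + b) + a

/-- Gödel number of a term. -/
def Tm.code : Tm → ℕ
  | .var n => pr 0 n
  | .zero => pr 1 0
  | .one => pr 2 0
  | .add s t => pr 3 (pr s.code t.code)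
  | .mul s t => pr 4 (pr s.code t.code)

/-- Gödel number of a formula. -/
def Fm.code : Fm → ℕ
  | .eq s t => pr 0 (pr s.code t.code)
  | .lt s t => pr 1 (pr s.code t.code)
  | .mem t X => pr 2 (pr t.code X)
  | .fal => pr 3 0
  | .imp φ ψ => pr 4 (pr φ.code ψ.code)
  | .allN φ => pr 5 φ.code
  | .allS φ => pr 6 φ.code

/-- The numeral of `n`. -/
def num : ℕ → Tm
  | 0 => .zero
  | n + 1 => .add (num n) .one

/-- For a formula `φ(x)` whose only free variable is the number variable `0`, the sentence
`φ(n̄)`, written as `∀x (x = n̄ → φ(x))`. -/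
def inst (φ : Fm) (n : ℕ) : Fm := .allN (.imp (.eq (.var 0) (num n)) φ)

/-- Truth of `φ(n)` in the standard model, for `φ` with the number variable `0` as only free
variable. -/
def TrueAt (φ : Fm) (n : ℕ) : Prop := φ.Holds stdModel (cons n fun _ => (0 : ℕ)) (fun _ => ∅)

/-- Truth of `φ(m, n)` in the standard model, for `φ` with the number variables `0` (for `m`) and
`1` (for `n`) as only free variables. -/
def TrueAt₂ (φ : Fm) (m n : ℕ) : Prop :=
  φ.Holds stdModel (cons m (cons n fun _ => (0 : ℕ))) (fun _ => ∅)

/-- `τ(x)` defines (the axiom set of) `T` in the standard model. -/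
def Defines (τ : Fm) (T : Set Fm) : Prop := ∀ n : ℕ, TrueAt τ n ↔ ∃ ψ ∈ T, n = ψ.code

/-- An arithmetization of provability: arithmetical formulas `der(p,x)` (`p` is a derivation with
conclusion `x`; `p` is the variable `0` and `x` the variable `1`) and `use(y,p)` (`y` is one of the
nonlogical axioms used in the derivation `p`; `y` is the variable `0` and `p` the variable `1`),
correct in the standard model: `φ` is provable in `T` iff there is a derivation with conclusion
`φ` all of whose nonlogical axioms are in `T`. -/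
structure ProofPredicate where
  /-- `der(p,x)` -/
  der : Fm
  /-- `use(y,p)` -/
  use : Fm
  der_arith : der.Arith
  use_arith : use.Arith
  der_closed : der.Closed 2 0
  use_closed : use.Closed 2 0
  correct : ∀ (T : Set Fm) (φ : Fm), (∀ ψ ∈ T, ψ.Sentence) → φ.Sentence →
    (Proves T φ ↔ ∃ p : ℕ, TrueAt₂ der p φ.code ∧ ∀ y, TrueAt₂ use y p → ∃ ψ ∈ T, y = ψ.code)

/-- The provability predicate `Pr_τ(x)` built from `τ`: there is a derivation `p` of `x` all of
whose nonlogical axioms `y` satisfy `τ(y)`. The variable `x` has index `0`. -/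
def ProofPredicate.Pr (P : ProofPredicate) (τ : Fm) : Fm :=
  .exN (.and P.der (.allN (.imp P.use τ)))

/-- The sentence `∀x (x is a Π^1_1 sentence → (Pr_τ(x) → True(x)))`. -/
def ProofPredicate.Reflection (P : ProofPredicate) (sent tr τ : Fm) : Fm :=
  .allN (.imp sent (.imp (P.Pr τ) tr))

end Pool.Agent.Lib.MP_3ad381_lc
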