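import Mathlib
import Pool.Agent.Lib.MP_3ad381_lc.Defs

/-!
# The Gödel sentence for the `Σ^1_1` form of provability
-/

namespace Pool.Agent.Lib.MP_3ad381_lc

/-! ### Auxiliary notions for the proof -/

/-- The pairing function as a term. -/
def prT (s t : Tm) : Tm := .add (.mul (.add s t) (.add s t)) s

/-- the pairing function of a structure -/
def prA (A : Str) (a b : A.M) : A.M := A.add (A.mul (A.add a b) (A.add a b)) a

/-- standard numbers of a structure -/
def numA (A : Str) : ℕ → A.M
  | 0 => A.zero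
  | n + 1 => A.add (numA A n) A.one

theorem val_num (A : Str) (e : ℕ → A.M) (n : ℕ) : (num n).val A e = numA A n := by
  induction n with
  | zero => rfl
  | succ n ih => simp only [num, Tm.val, numA, ih]

theorem val_prT (A : Str) (e : ℕ → A.M) (s t : Tm) :
    (prT s t).val A e = prA A (s.val A e) (t.val A e) := rfl

theorem std_numA (n : ℕ) : numA stdModel n = n := by
  induction n with
  | zero => rfl
  | succ n ih => simp only [numA, ih]; rfl

theorem std_prA (a b : ℕ) : prA stdModel a b = pr a b := rfl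

theorem pr_inj {a b c d : ℕ} (h : pr a b = pr c d) : a = c ∧ b = d := by
  unfold pr at h
  have h1 : a + b = c + d := by
    rcases lt_trichotomy (a + b) (c + d) with h1 | h1 | h1
    · exfalso; nlinarith
    · exact h1
    · exfalso; nlinarith
  rw [h1] at h
  omega

section Holds
variable {A : Str} {e : ℕ → A.M} {E : ℕ → Set A.M} {φ ψ : Fm}

theorem holds_neg : (Fm.neg φ).Holds A e E ↔ ¬ φ.Holds A e E := Iff.rfl

theorem holds_imp : (Fm.imp φ ψ).Holds A e E ↔ (φ.Holds A e E → ψ.Holds A e E) := Iff.rfl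

theorem holds_and : (Fm.and φ ψ).Holds A e E ↔ (φ.Holds A e E ∧ ψ.Holds A e E) := by
  simp only [Fm.and, holds_neg, holds_imp]; tauto

theorem holds_iff : (Fm.iff φ ψ).Holds A e E ↔ (φ.Holds A e E ↔ ψ.Holds A e E) := by
  simp only [Fm.iff, holds_and, holds_imp]; tauto

theorem holds_allN : (Fm.allN φ).Holds A e E ↔ ∀ x, φ.Holds A (cons x e) E := Iff.rfl

theorem holds_allS : (Fm.allS φ).Holds A e E ↔ ∀ X ∈ A.sets, φ.Holds A e (cons X E) := Iff.rfl

theorem holds_exN : (Fm.exN φ).Holds A e E ↔ ∃ x, φ.Holds A (cons x e) E := by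
  simp only [Fm.exN, holds_neg, holds_allN]; push Not; rfl

theorem holds_exS : (Fm.exS φ).Holds A e E ↔ ∃ X ∈ A.sets, φ.Holds A e (cons X E) := by
  simp only [Fm.exS, holds_neg, holds_allS]; push Not; rfl

theorem holds_inst {n : ℕ} :
    (inst φ n).Holds A e E ↔ φ.Holds A (cons (numA A n) e) E := by
  simp only [inst, holds_allN, Fm.Holds, val_num, Tm.val, cons]
  constructor
  · intro h; exact h _ rfl
  · rintro h x rfl; exact h

end Holds

/-! ### Dependence on free variables only -/

theorem val_congr {A : Str} {e e' : ℕ → A.M} {k : ℕ} :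
    ∀ {t : Tm}, t.Closed k → (∀ i < k, e i = e' i) → t.val A e = t.val A e'
  | .var n, h, he => he n h
  | .zero, _, _ => rfl
  | .one, _, _ => rfl
  | .add s t, h, he => by simp only [Tm.val, val_congr (t := s) h.1 he, val_congr (t := t) h.2 he]
  | .mul s t, h, he => by simp only [Tm.val, val_congr (t := s) h.1 he, val_congr (t := t) h.2 he]

theorem cons_congr {α : Type} {e e' : ℕ → α} {k : ℕ} {x : α} (h : ∀ i < k, e i = e' i) :
    ∀ i < k + 1, cons x e i = cons x e' i := by
  intro i hi
  cases i with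
  | zero => rfl
  | succ i => exact h i (by omega)

theorem holds_congr {A : Str} : ∀ {φ : Fm} {e e' : ℕ → A.M} {E E' : ℕ → Set A.M} {k l : ℕ},
    φ.Closed k l → (∀ i < k, e i = e' i) → (∀ i < l, E i = E' i) →
    (φ.Holds A e E ↔ φ.Holds A e' E')
  | .eq s t, e, e', E, E', k, l, h, he, _ => by
    simp only [Fm.Holds, val_congr h.1 he, val_congr h.2 he]
  | .lt s t, e, e', E, E', k, l, h, he, _ => by
    simp only [Fm.Holds, val_congr h.1 he, val_congr h.2 he]
  | .mem t X, e, e', E, E', k, l, h, he, hE => by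
    simp only [Fm.Holds, val_congr h.1 he, hE X h.2]
  | .fal, _, _, _, _, _, _, _, _, _ => Iff.rfl
  | .imp φ ψ, e, e', E, E', k, l, h, he, hE => by
    simp only [Fm.Holds, holds_congr (φ := φ) h.1 he hE, holds_congr (φ := ψ) h.2 he hE]
  | .allN φ, e, e', E, E', k, l, h, he, hE =>
    forall_congr' fun x => holds_congr (φ := φ) (k := k + 1) (l := l) h (cons_congr he) hE
  | .allS φ, e, e', E, E', k, l, h, he, hE =>
    forall_congr' fun X => imp_congr_right fun _ =>
      holds_congr (φ := φ) (k := k) (l := l + 1) h he (cons_congr hE)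

/-- An assignment for the set variables of a structure. -/
theorem exists_assignS (A : Str) : ∃ E : ℕ → Set A.M, ∀ i, E i ∈ A.sets :=
  ⟨fun _ => A.sets_nonempty.some, fun _ => A.sets_nonempty.some_mem⟩

theorem models_sentence {A : Str} {φ : Fm} (hφ : φ.Sentence) {e : ℕ → A.M} {E : ℕ → Set A.M}
    (h : φ.Holds A e E) : A.Models φ := by
  intro e' E' _
  exact (holds_congr (φ := φ) (k := 0) (l := 0) hφ (by intro i hi; omega)
    (by intro i hi; omega)).1 h

/-! ### Replacing set variables by sections of set variables -/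

/-- Shift all variables of a term by `d`. -/
def Tm.shift (d : ℕ) : Tm → Tm
  | .var n => .var (n + d)
  | .zero => .zero
  | .one => .one
  | .add s t => .add (s.shift d) (t.shift d)
  | .mul s t => .mul (s.shift d) (t.shift d)

/-- In an arithmetical formula replace the set variable `X` by the section `(Y)_u` of a set
variable `Y`, where `s X = (some u, Y)`, or by `Y`, where `s X = (none, Y)`. -/
def msub (s : ℕ → Option Tm × ℕ) : ℕ → Fm → Fm
  | _, .eq a b => .eq a b
  | _, .lt a b => .lt a b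
  | d, .mem t X =>
    match s X with
    | (none, Y) => .mem t Y
    | (some u, Y) => .mem (prT (u.shift d) t) Y
  | _, .fal => .fal
  | d, .imp φ ψ => .imp (msub s d φ) (msub s d ψ)
  | d, .allN φ => .allN (msub s (d + 1) φ)
  | _, .allS φ => .allS φ

/-- The assignment of set variables corresponding to `msub s`. -/
def asub (A : Str) (s : ℕ → Option Tm × ℕ) (e : ℕ → A.M) (E : ℕ → Set A.M) (X : ℕ) : Set A.M :=
  match s X with
  | (none, Y) => E Y
  | (some u, Y) => {n | prA A (u.val A e) n ∈ E Y}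

theorem val_shift {A : Str} {e e' : ℕ → A.M} {d : ℕ} (h : ∀ n, e' (n + d) = e n) :
    ∀ t : Tm, (t.shift d).val A e' = t.val A e
  | .var n => h n
  | .zero => rfl
  | .one => rfl
  | .add s t => by simp only [Tm.shift, Tm.val, val_shift h s, val_shift h t]
  | .mul s t => by simp only [Tm.shift, Tm.val, val_shift h s, val_shift h t]

theorem holds_msub {A : Str} (s : ℕ → Option Tm × ℕ) (e₀ : ℕ → A.M) (E : ℕ → Set A.M) :
    ∀ (φ : Fm) (d : ℕ) (e : ℕ → A.M), φ.Arith → (∀ n, e (n + d) = e₀ n) →
      ((msub s d φ).Holds A e E ↔ φ.Holds A e (asub A s e₀ E))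
  | .eq a b, _, _, _, _ => Iff.rfl
  | .lt a b, _, _, _, _ => Iff.rfl
  | .mem t X, d, e, _, he => by
    simp only [msub, asub, Fm.Holds]
    rcases hs : s X with ⟨u, Y⟩
    cases u with
    | none => simp only [Fm.Holds]
    | some u =>
      simp only [Fm.Holds, val_prT, val_shift he u, Set.mem_ofPred_eq]
  | .fal, _, _, _, _ => Iff.rfl
  | .imp φ ψ, d, e, h, he => by
    simp only [msub, Fm.Holds, holds_msub s e₀ E φ d e h.1 he, holds_msub s e₀ E ψ d e h.2 he]
  | .allN φ, d, e, h, he =>
    forall_congr' fun x => holds_msub s e₀ E φ (d + 1) (cons x e) h (by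
      intro n
      exact he n)
  | .allS φ, _, _, h, _ => absurd h (by simp [Fm.Arith])

theorem msub_arith (s : ℕ → Option Tm × ℕ) : ∀ (φ : Fm) (d : ℕ), φ.Arith → (msub s d φ).Arith
  | .eq a b, _, _ => trivial
  | .lt a b, _, _ => trivial
  | .mem t X, d, _ => by
    simp only [msub]
    rcases s X with ⟨u, Y⟩
    cases u <;> exact trivial
  | .fal, _, _ => trivial
  | .imp φ ψ, d, h => ⟨msub_arith s φ d h.1, msub_arith s ψ d h.2⟩
  | .allN φ, d, h => msub_arith s φ (d + 1) h
  | .allS φ, _, h => absurd h (by simp [Fm.Arith])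

theorem shift_closed {k d : ℕ} : ∀ t : Tm, t.Closed k → (t.shift d).Closed (k + d)
  | .var n, h => by simp only [Tm.shift, Tm.Closed] at *; omega
  | .zero, _ => trivial
  | .one, _ => trivial
  | .add s t, h => ⟨shift_closed s h.1, shift_closed t h.2⟩
  | .mul s t, h => ⟨shift_closed s h.1, shift_closed t h.2⟩

theorem msub_closed {s : ℕ → Option Tm × ℕ} {k l l' : ℕ}
    (hs : ∀ X < l, (s X).2 < l' ∧ ∀ u, (s X).1 = some u → u.Closed k) :
    ∀ (φ : Fm) (d : ℕ), φ.Arith → φ.Closed (k + d) l → (msub s d φ).Closed (k + d) l'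
  | .eq a b, _, _, h => h
  | .lt a b, _, _, h => h
  | .mem t X, d, _, h => by
    have h1 := hs X h.2
    simp only [msub]
    rcases hsX : s X with ⟨u, Y⟩
    rw [hsX] at h1
    cases u with
    | none => exact ⟨h.1, h1.1⟩
    | some u =>
      have hu := shift_closed (d := d) u (h1.2 u rfl)
      exact ⟨⟨⟨⟨hu, h.1⟩, ⟨hu, h.1⟩⟩, hu⟩, h1.1⟩
  | .fal, _, _, _ => trivial
  | .imp φ ψ, d, ha, h => ⟨msub_closed hs φ d ha.1 h.1, msub_closed hs ψ d ha.2 h.2⟩
  | .allN φ, d, ha, h => by
    have := msub_closed hs φ (d + 1) ha (by simpa [Fm.Closed, Nat.add_assoc] using h)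
    simpa [msub, Fm.Closed, Nat.add_assoc] using this
  | .allS φ, _, h, _ => absurd h (by simp [Fm.Arith])

/-! ### Facts about models of `ACA_0` -/

/-- All sections of sets of the structure are sets of the structure. -/
def HasSections (A : Str) : Prop :=
  ∀ X ∈ A.sets, ∀ a : A.M, {n | prA A a n ∈ X} ∈ A.sets

theorem holds_of_allNs {A : Str} {φ : Fm} : ∀ (k : ℕ),
    A.Models (allNs k φ) → A.Models φ
  | 0, h => h
  | k + 1, h => by
    have h1 := holds_of_allNs (φ := φ.allN) k h
    intro e E hE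
    have h2 := h1 (fun n => e (n + 1)) E hE (e 0)
    have : cons (e 0) (fun n => e (n + 1)) = e := by
      funext n; cases n <;> rfl
    rwa [this] at h2

theorem holds_of_allSs {A : Str} {φ : Fm} : ∀ (k : ℕ),
    A.Models (allSs k φ) → A.Models φ
  | 0, h => h
  | k + 1, h => by
    have h1 := holds_of_allSs (φ := φ.allS) k h
    intro e E hE
    have h2 := h1 e (fun n => E (n + 1)) (fun i => hE (i + 1)) (E 0) (hE 0)
    have : cons (E 0) (fun n => E (n + 1)) = E := by
      funext n; cases n <;> rfl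
    rwa [this] at h2

theorem hasSections {A : Str} (h : ∀ φ, ACA0 φ → A.Models φ) : HasSections A := by
  intro X hX a
  have h1 := h _ (ACA0.comp 1 1 (.mem (prT (.var 1) (.var 0)) 1) trivial
    (by simp [Fm.NotFreeS]) (by simp [Fm.Closed, Tm.Closed, prT]))
  have h2 := holds_of_allSs _ (holds_of_allNs _ h1)
  have h3 := h2 (cons a (fun _ => a)) (cons X (fun _ => X)) (by
    intro i; cases i <;> exact hX)
  rw [holds_exS] at h3
  obtain ⟨Y, hY, h4⟩ := h3
  have : Y = {n | prA A a n ∈ X} := by
    ext n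
    have h5 := h4 n
    rw [holds_iff] at h5
    exact h5
  rwa [this] at hY

/-- The recursion equations for addition and multiplication. -/
structure RecEqs (A : Str) : Prop where
  add_zero : ∀ a, A.add a A.zero = a
  add_succ : ∀ a b, A.add a (A.add b A.one) = A.add (A.add a b) A.one
  mul_zero : ∀ a, A.mul a A.zero = A.zero
  mul_succ : ∀ a b, A.mul a (A.add b A.one) = A.add (A.mul a b) a

theorem recEqs {A : Str} (h : ∀ φ, ACA0 φ → A.Models φ) : RecEqs A := by
  obtain ⟨E, hE⟩ := exists_assignS A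
  refine ⟨fun a => ?_, fun a b => ?_, fun a => ?_, fun a b => ?_⟩
  · exact h _ ACA0.b3 (fun _ => a) E hE a
  · exact h _ ACA0.b4 (fun _ => a) E hE a b
  · exact h _ ACA0.b5 (fun _ => a) E hE a
  · exact h _ ACA0.b6 (fun _ => a) E hE a b

theorem numA_add {A : Str} (h : RecEqs A) (m n : ℕ) :
    A.add (numA A m) (numA A n) = numA A (m + n) := by
  induction n with
  | zero => exact h.add_zero _
  | succ n ih => simp only [numA]; rw [h.add_succ, ih]; rfl

theorem numA_mul {A : Str} (h : RecEqs A) (m n : ℕ) :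
    A.mul (numA A m) (numA A n) = numA A (m * n) := by
  induction n with
  | zero => exact h.mul_zero _
  | succ n ih =>
    simp only [numA]
    rw [h.mul_succ, ih, numA_add h]
    rfl

theorem numA_pr {A : Str} (h : RecEqs A) (m n : ℕ) :
    prA A (numA A m) (numA A n) = numA A (pr m n) := by
  simp only [prA, pr, numA_add h, numA_mul h]

/-! ### Joining two sets of natural numbers into one -/

/-- The set with sections `Y` at `0` and `Z` at `1`. -/
def join (Y Z : Set stdModel.M) : Set stdModel.M :=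
  {x : ℕ | ∃ n : ℕ, (x = pr 0 n ∧ n ∈ Y) ∨ (x = pr 1 n ∧ n ∈ Z)}

theorem join_one (Y Z : Set stdModel.M) :
    {n | prA stdModel stdModel.one n ∈ join Y Z} = Z := by
  ext n
  constructor
  · rintro ⟨m, ⟨hm, _⟩ | ⟨hm, hmZ⟩⟩
    · have := (pr_inj (show pr 1 n = pr 0 m from hm)).1
      omega
    · have := (pr_inj (show pr 1 n = pr 1 m from hm)).2
      rwa [this]
  · intro hn
    exact ⟨n, Or.inr ⟨rfl, hn⟩⟩

theorem join_zero (Y Z : Set stdModel.M) :
    {n | prA stdModel stdModel.zero n ∈ join Y Z} = Y := by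
  ext n
  constructor
  · rintro ⟨m, ⟨hm, hmY⟩ | ⟨hm, _⟩⟩
    · have := (pr_inj (show pr 0 n = pr 0 m from hm)).2
      rwa [this]
    · have := (pr_inj (show pr 0 n = pr 1 m from hm)).1
      omega
  · intro hn
    exact ⟨n, Or.inl ⟨rfl, hn⟩⟩

/-! ### Contraction of set quantifiers in `Σ^1_1` formulas -/

/-- For every `Σ^1_1` formula `φ` there is an arithmetical `θ(Z, …)` such that `∃Z θ` implies `φ`
in all structures with sections, and conversely in the standard model. -/
theorem contraction {φ : Fm} (hφ : IsSigma11 φ) : ∀ k l : ℕ, φ.Closed k l →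
    ∃ θ : Fm, θ.Arith ∧ θ.Closed k (l + 1) ∧
      (∀ A : Str, HasSections A → ∀ (e : ℕ → A.M) (E : ℕ → Set A.M), (∀ i, E i ∈ A.sets) →
        ∀ Z ∈ A.sets, θ.Holds A e (cons Z E) → φ.Holds A e E) ∧
      (∀ (e : ℕ → stdModel.M) (E : ℕ → Set stdModel.M), φ.Holds stdModel e E →
        ∃ Z : Set stdModel.M, θ.Holds stdModel e (cons Z E)) := by
  induction hφ with
  | arith φ hφ =>
    intro k l hc
    refine ⟨msub (fun X => (none, X + 1)) 0 φ, msub_arith _ _ _ hφ, ?_, ?_, ?_⟩
    · exact msub_closed (k := k) (l := l) (by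
        intro X hX
        refine ⟨by simpa using hX, ?_⟩
        intro u hu
        exact absurd hu (by simp)) φ 0 hφ hc
    · intro A _ e E _ Z _ h
      exact (holds_msub (A := A) _ e _ φ 0 e hφ (fun _ => rfl)).1 h
    · intro e E h
      exact ⟨∅, (holds_msub (A := stdModel) _ e _ φ 0 e hφ (fun _ => rfl)).2 h⟩
  | exS φ hφ ih =>
    intro k l hc
    have hc' : φ.Closed k (l + 1) := hc.1.1
    obtain ⟨θ, h1, h2, h3, h4⟩ := ih k (l + 1) hc'
    -- variables of `θ`: 0 = inner Z, 1 = Y, i + 2 = E i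
    set s : ℕ → Option Tm × ℕ := fun X =>
      match X with
      | 0 => (some .one, 0)
      | 1 => (some .zero, 0)
      | i + 2 => (none, i + 1) with hs
    have key : ∀ (A : Str) (e : ℕ → A.M) (E : ℕ → Set A.M) (Z : Set A.M),
        asub A s e (cons Z E) =
          cons {n | prA A A.one n ∈ Z} (cons {n | prA A A.zero n ∈ Z} E) := by
      intro A e E Z
      funext X
      match X with
      | 0 => rfl
      | 1 => rfl
      | i + 2 => rfl
    refine ⟨msub s 0 θ, msub_arith _ _ _ h1, ?_, ?_, ?_⟩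
    · refine msub_closed (k := k) (l := l + 1 + 1) ?_ θ 0 h1 h2
      intro X hX
      match X with
      | 0 => exact ⟨by simp [hs], by simp [hs, Tm.Closed]⟩
      | 1 => exact ⟨by simp [hs], by simp [hs, Tm.Closed]⟩
      | i + 2 => exact ⟨by simp only [hs]; omega, by simp [hs]⟩
    · intro A hA e E hE Z hZ h
      rw [holds_msub (A := A) s e _ θ 0 e h1 (fun _ => rfl), key] at h
      rw [holds_exS]
      refine ⟨_, hA Z hZ A.zero, h3 A hA e _ ?_ _ (hA Z hZ A.one) h⟩
      intro i
      cases i with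
      | zero => exact hA Z hZ A.zero
      | succ i => exact hE i
    · intro e E h
      rw [holds_exS] at h
      obtain ⟨Y, _, hY⟩ := h
      obtain ⟨Z', hZ'⟩ := h4 e (cons Y E) hY
      refine ⟨join Y Z', ?_⟩
      rw [holds_msub (A := stdModel) s e _ θ 0 e h1 (fun _ => rfl), key, join_one, join_zero]
      exact hZ'

/-! ### The Gödel sentence -/

open Fm Tm in
/-- The arithmetical matrix `π(x; X)` of the `Σ^1_1` form `∃X π(x; X)` of provability. -/
def matr (P : ProofPredicate) (θ : Fm) : Fm :=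
  exN (Fm.and P.der (allN (imp P.use (msub (fun _ => (some (var 0), 0)) 0 θ))))

/-- `(s, t)` is in the section `(Z)_0`, where `Z` is the set variable `0`. -/
def memF (s t : Tm) : Fm := .mem (prT .zero (prT s t)) 0

/-- The term for the Gödel number of `∀X ∀x (x = n̄ → μ)`, given the Gödel number `v` of `n̄` and
the Gödel number `x` of `μ`. -/
def diagT (v x : Tm) : Tm :=
  prT (num 6) (prT (num 5) (prT (num 4) (prT (prT (num 0) (prT (num (pr 0 0)) v)) x)))

open Fm Tm in
/-- `D(y,x;F)`, `y` = variable `0`, `x` = variable `1`: `F = (Z)_0` is compatible with the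
recursion for the Gödel numbers of numerals, and `y` is the diagonalization of `x` according
to `F`. -/
def diagF : Fm :=
  Fm.and (allN (imp (memF zero (var 0)) (eq (var 0) (num (pr 1 0)))))
    (Fm.and
      (allN (allN (imp (memF (add (var 1) one) (var 0))
        (exN (Fm.and (memF (var 2) (var 0))
          (eq (var 1) (prT (num 3) (prT (var 0) (num (pr 2 0))))))))))
      (exN (Fm.and (memF (var 2) (var 0)) (eq (var 1) (diagT (var 0) (var 2))))))

open Fm in
/-- The matrix of the Gödel sentence. -/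
def mu (P : ProofPredicate) (θ : Fm) : Fm :=
  allN (imp diagF (neg (msub (fun _ => (some .one, 0)) 0 (matr P θ))))

open Fm Tm in
/-- The Gödel sentence. -/
def sig (P : ProofPredicate) (θ : Fm) : Fm :=
  allS (allN (imp (eq (var 0) (num (mu P θ).code)) (mu P θ)))

theorem num_closed (k n : ℕ) : (num n).Closed k := by
  induction n with
  | zero => trivial
  | succ n ih => exact ⟨ih, trivial⟩

theorem holds_sig {A : Str} {P : ProofPredicate} {θ : Fm} {e : ℕ → A.M} {E : ℕ → Set A.M} :
    (sig P θ).Holds A e E ↔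
      ∀ Z ∈ A.sets, (mu P θ).Holds A (cons (numA A (mu P θ).code) e) (cons Z E) := by
  simp only [sig, holds_allS]
  refine forall_congr' fun Z => imp_congr_right fun _ => ?_
  exact holds_inst

theorem Closed_mono_tm {k k' : ℕ} (h : k ≤ k') : ∀ {t : Tm}, t.Closed k → t.Closed k'
  | .var _, ht => lt_of_lt_of_le ht h
  | .zero, _ => trivial
  | .one, _ => trivial
  | .add s t, ht => ⟨Closed_mono_tm h (t := s) ht.1, Closed_mono_tm h (t := t) ht.2⟩
  | .mul s t, ht => ⟨Closed_mono_tm h (t := s) ht.1, Closed_mono_tm h (t := t) ht.2⟩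

theorem Closed_mono : ∀ {φ : Fm} {k k' l l' : ℕ}, k ≤ k' → l ≤ l' → φ.Closed k l → φ.Closed k' l'
  | .eq _ _, _, _, _, _, hk, _, h => ⟨Closed_mono_tm hk h.1, Closed_mono_tm hk h.2⟩
  | .lt _ _, _, _, _, _, hk, _, h => ⟨Closed_mono_tm hk h.1, Closed_mono_tm hk h.2⟩
  | .mem _ _, _, _, _, _, hk, hl, h => ⟨Closed_mono_tm hk h.1, lt_of_lt_of_le h.2 hl⟩
  | .fal, _, _, _, _, _, _, _ => trivial
  | .imp φ ψ, _, _, _, _, hk, hl, h =>
    ⟨Closed_mono (φ := φ) hk hl h.1, Closed_mono (φ := ψ) hk hl h.2⟩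
  | .allN φ, k, k', l, l', hk, hl, h =>
    Closed_mono (φ := φ) (k := k + 1) (k' := k' + 1) (by omega) hl h
  | .allS φ, k, k', l, l', hk, hl, h =>
    Closed_mono (φ := φ) (l := l + 1) (l' := l' + 1) hk (by omega) h

section
variable {P : ProofPredicate} {θ : Fm}

theorem closed_and {k l : ℕ} {φ ψ : Fm} (h1 : φ.Closed k l) (h2 : ψ.Closed k l) :
    (Fm.and φ ψ).Closed k l := ⟨⟨h1, h2, trivial⟩, trivial⟩

theorem closed_exN {k l : ℕ} {φ : Fm} (h1 : φ.Closed (k + 1) l) :
    (Fm.exN φ).Closed k l := ⟨⟨h1, trivial⟩, trivial⟩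

theorem arith_and {φ ψ : Fm} (h1 : φ.Arith) (h2 : ψ.Arith) :
    (Fm.and φ ψ).Arith := ⟨⟨h1, h2, trivial⟩, trivial⟩

theorem arith_exN {φ : Fm} (h1 : φ.Arith) : (Fm.exN φ).Arith := ⟨⟨h1, trivial⟩, trivial⟩

theorem matr_arith (hθ : θ.Arith) : (matr P θ).Arith :=
  arith_exN (arith_and P.der_arith ⟨P.use_arith, msub_arith _ _ _ hθ⟩)

theorem matr_closed (hθ : θ.Arith) (hc : θ.Closed 1 1) : (matr P θ).Closed 1 1 := by
  have h1 : P.der.Closed 2 1 := Closed_mono (le_refl _) (by omega) P.der_closed
  have h2 : P.use.Closed 3 1 := Closed_mono (by omega) (by omega) P.use_closed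
  have h3 : (msub (fun _ => (some (Tm.var 0), 0)) 0 θ).Closed 1 1 :=
    msub_closed (k := 1) (l := 1) (l' := 1) (by
      intro X _
      exact ⟨by simp, by intro u hu; simp only [Option.some.injEq] at hu; subst hu;
                         simp [Tm.Closed]⟩) θ 0 hθ hc
  have h4 : (msub (fun _ => (some (Tm.var 0), 0)) 0 θ).Closed 3 1 :=
    Closed_mono (by omega) (le_refl _) h3
  exact closed_exN (closed_and h1 ⟨h2, h4⟩)

theorem prT_closed {k : ℕ} {s t : Tm} (hs : s.Closed k) (ht : t.Closed k) :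
    (prT s t).Closed k := ⟨⟨⟨hs, ht⟩, ⟨hs, ht⟩⟩, hs⟩

theorem memF_closed {k : ℕ} {s t : Tm} (hs : s.Closed k) (ht : t.Closed k) :
    (memF s t).Closed k 1 := ⟨prT_closed trivial (prT_closed hs ht), by omega⟩

theorem diagF_closed : diagF.Closed 2 1 := by
  have v : ∀ n k, n < k → (Tm.var n).Closed k := fun n k h => h
  have c1 : (memF Tm.zero (Tm.var 0)).Closed 3 1 := memF_closed trivial (v _ _ (by omega))
  have c2 : (memF (Tm.add (Tm.var 1) Tm.one) (Tm.var 0)).Closed 4 1 :=
    memF_closed ⟨v _ _ (by omega), trivial⟩ (v _ _ (by omega))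
  have c3 : (memF (Tm.var 2) (Tm.var 0)).Closed 5 1 :=
    memF_closed (v _ _ (by omega)) (v _ _ (by omega))
  have c4 : (prT (num 3) (prT (Tm.var 0) (num (pr 2 0)))).Closed 5 :=
    prT_closed (num_closed _ _) (prT_closed (v _ _ (by omega)) (num_closed _ _))
  have c5 : (memF (Tm.var 2) (Tm.var 0)).Closed 3 1 :=
    memF_closed (v _ _ (by omega)) (v _ _ (by omega))
  have c6 : (diagT (Tm.var 0) (Tm.var 2)).Closed 3 :=
    prT_closed (num_closed _ _) (prT_closed (num_closed _ _) (prT_closed (num_closed _ _)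
      (prT_closed (prT_closed (num_closed _ _) (prT_closed (num_closed _ _) (v _ _ (by omega))))
        (v _ _ (by omega)))))
  exact closed_and ⟨c1, ⟨v _ _ (by omega), num_closed _ _⟩⟩
    (closed_and ⟨c2, closed_exN (closed_and c3 ⟨v _ _ (by omega), c4⟩)⟩
      (closed_exN (closed_and c5 ⟨v _ _ (by omega), c6⟩)))

theorem diagF_arith : diagF.Arith := by
  simp only [diagF, Fm.and, Fm.neg, Fm.exN, memF, Fm.Arith, and_self]

theorem mu_arith (hθ : θ.Arith) : (mu P θ).Arith :=
  ⟨diagF_arith, ⟨msub_arith _ _ _ (matr_arith hθ), trivial⟩⟩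

theorem mu_closed (hθ : θ.Arith) (hc : θ.Closed 1 1) : (mu P θ).Closed 1 1 := by
  have h3 : (msub (fun _ => (some Tm.one, 0)) 0 (matr P θ)).Closed 1 1 :=
    msub_closed (k := 1) (l := 1) (l' := 1) (by
      intro X _
      exact ⟨by simp, by intro u hu; simp only [Option.some.injEq] at hu; subst hu;
                         trivial⟩) (matr P θ) 0 (matr_arith hθ) (matr_closed hθ hc)
  exact ⟨diagF_closed, ⟨Closed_mono (by omega) (le_refl _) h3, trivial⟩⟩

theorem sig_pi11 (hθ : θ.Arith) (hc : θ.Closed 1 1) : IsPi11Sentence (sig P θ) := by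
  refine ⟨⟨⟨by simp [Tm.Closed], num_closed _ _⟩, mu_closed hθ hc⟩, _, ?_, rfl⟩
  exact ⟨trivial, mu_arith hθ⟩

/-- Meaning of `matr`. -/
theorem holds_matr {A : Str} (hθ : θ.Arith) (hc : θ.Closed 1 1) {e : ℕ → A.M}
    {E : ℕ → Set A.M} :
    (matr P θ).Holds A e E ↔ ∃ p, P.der.Holds A (cons p e) E ∧
      ∀ y, P.use.Holds A (cons y (cons p e)) E →
        θ.Holds A (cons y (cons p e)) (cons {n | prA A y n ∈ E 0} E) := by
  simp only [matr, holds_exN, holds_and, holds_allN, holds_imp]
  refine exists_congr fun p => and_congr_right fun _ => forall_congr' fun y =>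
    imp_congr_right fun _ => ?_
  rw [holds_msub _ (cons y (cons p e)) E θ 0 _ hθ (fun _ => rfl)]
  refine holds_congr (k := 1) (l := 1) hc (fun _ _ => rfl) ?_
  intro i hi
  have : i = 0 := by omega
  subst this
  rfl

/-- In a model of `ACA_0` the formula `D(y,x;F)`, for `x` the standard number `m`, implies that
`y` is the standard number given by the diagonalization of `m`. -/
theorem diag_sound {A : Str} (hA : RecEqs A) {e : ℕ → A.M} {E : ℕ → Set A.M} {y : A.M} {m : ℕ}
    (h : diagF.Holds A (cons y (cons (numA A m) e)) E) :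
    y = numA A (pr 6 (pr 5 (pr 4 (pr (pr 0 (pr (pr 0 0) (num m).code)) m)))) := by
  simp only [diagF, holds_and, holds_exN, memF, Fm.Holds, val_prT,
    Tm.val, val_num, cons, diagT] at h
  obtain ⟨h1, h2, v, hv, h3⟩ := h
  have key : ∀ i : ℕ, ∀ v, prA A A.zero (prA A (numA A i) v) ∈ E 0 →
      v = numA A (num i).code := by
    intro i
    induction i with
    | zero => exact h1
    | succ i ih =>
      intro v hv
      obtain ⟨u, hu1, hu2⟩ := h2 (numA A i) v hv
      rw [hu2, ih u hu1, numA_pr hA, numA_pr hA]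
      rfl
  rw [h3, key m v hv]
  simp only [numA_pr hA]

/-- In the standard model the formula `D(y,x;F)` holds for the correct graph `F` and the correct
diagonalization `y` of `x = m`. -/
theorem diag_complete {e : ℕ → stdModel.M} {E : ℕ → Set stdModel.M} {Z : Set stdModel.M}
    (hZ : ∀ i v : ℕ, pr 0 (pr i v) ∈ Z ↔ v = (num i).code) (m : ℕ) :
    diagF.Holds stdModel
      (cons (pr 6 (pr 5 (pr 4 (pr (pr 0 (pr (pr 0 0) (num m).code)) m))) : ℕ)
        (cons (numA stdModel m) e)) (cons Z E) := by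
  simp only [diagF, holds_and, holds_exN, memF, Fm.Holds, val_prT,
    Tm.val, val_num, cons, diagT, std_numA]
  refine ⟨?_, ?_, ?_⟩
  · intro v hv
    exact (hZ 0 v).1 hv
  · intro i v hv
    have h7 := (hZ (Nat.succ i) v).1 hv
    refine ⟨(num i).code, (hZ i _).2 rfl, ?_⟩
    rw [h7]
    rfl
  · exact ⟨(num m).code, (hZ _ _).2 rfl, rfl⟩

/-- The Gödel number of the Gödel sentence. -/
theorem code_sig : (sig P θ).code =
    pr 6 (pr 5 (pr 4 (pr (pr 0 (pr (pr 0 0) (num (mu P θ).code).code)) (mu P θ).code))) := by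
  simp only [sig, Fm.code, Tm.code]

theorem holds_mu {A : Str} {e : ℕ → A.M} {E : ℕ → Set A.M} :
    (mu P θ).Holds A e E ↔ ∀ y, diagF.Holds A (cons y e) E →
      ¬ (msub (fun _ => (some Tm.one, 0)) 0 (matr P θ)).Holds A (cons y e) E := Iff.rfl

/-- `Pr_τ(x)` in a structure. -/
theorem holds_Pr {A : Str} {τ : Fm} {e : ℕ → A.M} {E : ℕ → Set A.M} :
    (P.Pr τ).Holds A e E ↔ ∃ p, P.der.Holds A (cons p e) E ∧
      ∀ y, P.use.Holds A (cons y (cons p e)) E → τ.Holds A (cons y (cons p e)) E := by
  simp only [ProofPredicate.Pr, holds_exN, holds_and, holds_allN, holds_imp]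

end

/-- In every model of `ACA_0` in which the reflection sentence holds, and in which the truth
predicate is correct for it, the Gödel sentence holds. -/
theorem sig_holds {P : ProofPredicate} {sent tr τ θ : Fm}
    (hθ : θ.Arith) (hc : θ.Closed 1 1)
    (h3 : ∀ A : Str, HasSections A → ∀ (e : ℕ → A.M) (E : ℕ → Set A.M), (∀ i, E i ∈ A.sets) →
        ∀ Z ∈ A.sets, θ.Holds A e (cons Z E) → τ.Holds A e E)
    {A : Str} (hA : ∀ φ, ACA0 φ → A.Models φ)
    (hsent : A.Models (inst sent (sig P θ).code))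
    (htr : A.Models ((inst tr (sig P θ).code).iff (sig P θ)))
    (hrefl : A.Models (P.Reflection sent tr τ)) : A.Models (sig P θ) := by
  intro e E hE
  by_contra hcon
  have hcon' := hcon
  rw [holds_sig] at hcon
  push Not at hcon
  obtain ⟨Z, hZ, hmu⟩ := hcon
  have hrec := recEqs hA
  have hsec := hasSections hA
  rw [holds_mu] at hmu
  push Not at hmu
  obtain ⟨y, hD, hπ⟩ := hmu
  have hyσ := diag_sound hrec hD
  rw [← code_sig] at hyσ
  -- the matrix of provability
  rw [holds_msub _ (cons y (cons (numA A (mu P θ).code) e)) (cons Z E) (matr P θ) 0 _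
    (matr_arith hθ) (fun _ => rfl)] at hπ
  rw [holds_matr hθ hc] at hπ
  obtain ⟨p, hder, huse⟩ := hπ
  set X : Set A.M := {n | prA A A.one n ∈ Z} with hX
  have hXs : X ∈ A.sets := hsec Z hZ A.one
  have hPr : (P.Pr τ).Holds A (cons y e) E := by
    rw [holds_Pr]
    refine ⟨p, ?_, ?_⟩
    · refine (holds_congr (k := 2) (l := 0) P.der_closed ?_ (by intro i hi; omega)).1 hder
      intro i hi
      match i with
      | 0 => rfl
      | 1 => rfl
    · intro z hz
      have hz' : P.use.Holds A (cons z (cons p (cons y (cons (numA A (mu P θ).code) e))))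
          (asub A (fun _ => (some Tm.one, 0)) (cons y (cons (numA A (mu P θ).code) e))
            (cons Z E)) := by
        refine (holds_congr (k := 2) (l := 0) P.use_closed ?_ (by intro i hi; omega)).1 hz
        intro i hi
        match i with
        | 0 => rfl
        | 1 => rfl
      have h5 := huse z hz'
      have h6 : θ.Holds A (cons z (cons p (cons y e))) (cons {n | prA A z n ∈ X} E) := by
        refine (holds_congr (k := 1) (l := 1) hc ?_ ?_).1 h5
        · intro i hi
          have : i = 0 := by omega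
          subst this; rfl
        · intro i hi
          have : i = 0 := by omega
          subst this; rfl
      exact h3 A hsec _ E hE _ (hsec X hXs z) h6
  have hs : sent.Holds A (cons y e) E := by
    have := hsent e E hE
    rw [holds_inst, ← hyσ] at this
    exact this
  have ht : tr.Holds A (cons y e) E := hrefl e E hE y hs hPr
  have ht' : (inst tr (sig P θ).code).Holds A e E := by
    rw [holds_inst, ← hyσ]
    exact ht
  have h7 := htr e E hE
  rw [holds_iff] at h7
  exact hcon' (h7.1 ht')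

/-- In the standard model, if the Gödel sentence is provable in the sense of `Pr_τ`, then it is
false. -/
theorem sig_false {P : ProofPredicate} {τ θ : Fm}
    (hθ : θ.Arith) (hc : θ.Closed 1 1)
    (h4 : ∀ (e : ℕ → stdModel.M) (E : ℕ → Set stdModel.M), τ.Holds stdModel e E →
        ∃ Z : Set stdModel.M, θ.Holds stdModel e (cons Z E))
    {p : ℕ} (hp : TrueAt₂ P.der p (sig P θ).code)
    (hu : ∀ y, TrueAt₂ P.use y p → TrueAt τ y) : ¬ stdModel.Models (sig P θ) := by
  intro hσ
  classical
  -- witnesses for the axioms used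
  have hw : ∀ y : ℕ, ∃ Z : Set stdModel.M, TrueAt₂ P.use y p →
      θ.Holds stdModel (cons y fun _ => (0 : ℕ)) (cons Z fun _ => ∅) := by
    intro y
    by_cases hy : TrueAt₂ P.use y p
    · obtain ⟨Z, hZ⟩ := h4 _ _ (hu y hy)
      exact ⟨Z, fun _ => hZ⟩
    · exact ⟨∅, fun h => absurd h hy⟩
  choose W hW using hw
  set X : Set stdModel.M := {x : ℕ | ∃ y n : ℕ, x = pr y n ∧ n ∈ W y} with hX
  have hXsec : ∀ y : ℕ, {n : stdModel.M | prA stdModel y n ∈ X} = W y := by
    intro y
    ext n
    constructor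
    · rintro ⟨y', n', h1, h2⟩
      obtain ⟨h5, h6⟩ := pr_inj (show pr y n = pr y' n' from h1)
      rw [h5, h6]
      exact h2
    · intro h
      exact ⟨y, n, rfl, h⟩
  set F : Set stdModel.M := {x : ℕ | ∃ i : ℕ, x = pr i (num i).code} with hF
  have hFmem : ∀ i v : ℕ, pr i v ∈ F ↔ v = (num i).code := by
    intro i v
    constructor
    · rintro ⟨j, hj⟩
      obtain ⟨h5, h6⟩ := pr_inj hj
      rw [h5, h6]
    · intro h
      exact ⟨i, by rw [h]⟩
  have hjz : ∀ i v : ℕ, pr 0 (pr i v) ∈ join F X ↔ v = (num i).code := by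
    intro s t
    have := join_zero F X
    exact (Set.ext_iff.1 this (pr s t)).trans (hFmem s t)
  set e₀ : ℕ → stdModel.M := fun _ => (0 : ℕ) with he₀
  set E₀ : ℕ → Set stdModel.M := fun _ => ∅ with hE₀
  have h1 : (sig P θ).Holds stdModel e₀ E₀ := hσ _ _ (fun _ => trivial)
  rw [holds_sig] at h1
  have h2 := h1 (join F X) trivial
  rw [holds_mu] at h2
  have hcode := code_sig (P := P) (θ := θ)
  generalize (mu P θ).code = m at h2 hcode
  refine h2 ((sig P θ).code : ℕ) ?_ ?_
  · rw [hcode]
    exact diag_complete hjz m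
  · rw [holds_msub _ (cons ((sig P θ).code : ℕ) (cons (numA stdModel m) e₀))
      (cons (join F X) E₀) (matr P θ) 0 _ (matr_arith hθ) (fun _ => rfl)]
    rw [holds_matr hθ hc]
    refine ⟨p, ?_, ?_⟩
    · refine (holds_congr (k := 2) (l := 0) P.der_closed ?_ (by intro i hi; omega)).1 hp
      intro i hi
      match i with
      | 0 => rfl
      | 1 => rfl
    · intro y hy
      have hy' : TrueAt₂ P.use y p := by
        refine (holds_congr (k := 2) (l := 0) P.use_closed ?_ (by intro i hi; omega)).1 hy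
        intro i hi
        match i with
        | 0 => rfl
        | 1 => rfl
      refine (holds_congr (k := 1) (l := 1) hc ?_ ?_).1 (hW y hy')
      · intro i hi
        have : i = 0 := by omega
        subst this; rfl
      · intro i hi
        have : i = 0 := by omega
        subst this
        have h8 : asub stdModel (fun _ => (some Tm.one, 0))
            (cons ((sig P θ).code : ℕ) (cons (numA stdModel m) e₀)) (cons (join F X) E₀) 0 = X :=
          join_one F X
        show W y = {n : stdModel.M | prA stdModel y n ∈ asub stdModel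
          (fun _ => (some Tm.one, 0))
          (cons ((sig P θ).code : ℕ) (cons (numA stdModel m) e₀)) (cons (join F X) E₀) 0}
        rw [h8]
        exact (hXsec y).symm

/-- The main argument: no `Π^1_1`-sound `Σ^1_1`-definable extension of `ACA_0` proves its own
`Π^1_1`-soundness. -/
theorem no_self_reflection (P : ProofPredicate) (sent tr : Fm)
    (hsent : ∀ φ, IsPi11Sentence φ → Proves {ψ | ACA0 ψ} (inst sent φ.code))
    (htr : ∀ φ, IsPi11Sentence φ → Proves {ψ | ACA0 ψ} ((inst tr φ.code).iff φ)) :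
    ¬ ∃ T : Set Fm, (∀ ψ ∈ T, ψ.Sentence) ∧ ExtendsACA0 T ∧ Pi11Sound T ∧
      ∃ τ : Fm, IsSigma11 τ ∧ τ.Closed 1 0 ∧ Defines τ T ∧
        Proves T (P.Reflection sent tr τ) := by
  rintro ⟨T, hT, hext, hsound, τ, hτ, hτc, hdef, hrefl⟩
  obtain ⟨θ, hθ, hc, h3, h4⟩ := contraction hτ 1 0 hτc
  have hpi : IsPi11Sentence (sig P θ) := sig_pi11 hθ hc
  have hprov : Proves T (sig P θ) := by
    intro A hA
    have hACA : ∀ φ, ACA0 φ → A.Models φ := fun φ hφ => hext φ hφ A hA
    exact sig_holds hθ hc h3 hACA (hsent _ hpi A hACA) (htr _ hpi A hACA) (hrefl A hA)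
  have htrue := hsound _ hpi hprov
  obtain ⟨p, hp, hu⟩ := (P.correct T _ hT hpi.1).1 hprov
  exact sig_false hθ hc h4 hp (fun y hy => (hdef y).2 (hu y hy)) htrue

end Pool.Agent.Lib.MP_3ad381_lc
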