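import Mathlib
import Pool.Agent.Lib.MP_3ad381_lc.Main

section

section

/-!
# A calculus of arithmetically definable predicates, uniformly in the structure
-/

namespace Pool.Agent.Lib.MP_3ad381_lc

/-- `P` is defined, in all structures, by one arithmetical formula with number variables of index
`< k` and set variables of index `< l`. -/
def UDef (k l : ℕ) (P : ∀ A : Str, (ℕ → A.M) → (ℕ → Set A.M) → Prop) : Prop :=
  ∃ φ : Fm, φ.Arith ∧ φ.Closed k l ∧
    ∀ (A : Str) (e : ℕ → A.M) (E : ℕ → Set A.M), φ.Holds A e E ↔ P A e E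

/-- `F` is given, in all structures, by a term with variables of index `< k`. -/
def UTerm (k : ℕ) (F : ∀ A : Str, (ℕ → A.M) → A.M) : Prop :=
  ∃ t : Tm, t.Closed k ∧ ∀ (A : Str) (e : ℕ → A.M), t.val A e = F A e

namespace UTerm

variable {k : ℕ} {F G : ∀ A : Str, (ℕ → A.M) → A.M}

theorem var (i : ℕ) (hi : i < k) : UTerm k (fun _ e => e i) := ⟨.var i, hi, fun _ _ => rfl⟩

theorem zero : UTerm k (fun A _ => A.zero) := ⟨.zero, trivial, fun _ _ => rfl⟩

theorem one : UTerm k (fun A _ => A.one) := ⟨.one, trivial, fun _ _ => rfl⟩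

theorem add (hF : UTerm k F) (hG : UTerm k G) : UTerm k (fun A e => A.add (F A e) (G A e)) := by
  obtain ⟨s, hs, hs'⟩ := hF
  obtain ⟨t, ht, ht'⟩ := hG
  exact ⟨.add s t, ⟨hs, ht⟩, fun A e => by simp only [Tm.val, hs', ht']⟩

theorem mul (hF : UTerm k F) (hG : UTerm k G) : UTerm k (fun A e => A.mul (F A e) (G A e)) := by
  obtain ⟨s, hs, hs'⟩ := hF
  obtain ⟨t, ht, ht'⟩ := hG
  exact ⟨.mul s t, ⟨hs, ht⟩, fun A e => by simp only [Tm.val, hs', ht']⟩

theorem prA (hF : UTerm k F) (hG : UTerm k G) :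
    UTerm k (fun A e => Pool.Agent.Lib.MP_3ad381_lc.prA A (F A e) (G A e)) :=
  ((hF.add hG).mul (hF.add hG)).add hF

theorem numA (n : ℕ) : UTerm k (fun A _ => Pool.Agent.Lib.MP_3ad381_lc.numA A n) :=
  ⟨num n, num_closed k n, fun A e => val_num A e n⟩

end UTerm

namespace UDef

variable {k l : ℕ} {P Q : ∀ A : Str, (ℕ → A.M) → (ℕ → Set A.M) → Prop}
  {F G : ∀ A : Str, (ℕ → A.M) → A.M}

theorem congr (h : UDef k l P) (hPQ : ∀ A e E, Q A e E ↔ P A e E) : UDef k l Q := by
  obtain ⟨φ, h1, h2, h3⟩ := h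
  exact ⟨φ, h1, h2, fun A e E => (h3 A e E).trans (hPQ A e E).symm⟩

theorem eq (hF : UTerm k F) (hG : UTerm k G) : UDef k l (fun A e _ => F A e = G A e) := by
  obtain ⟨s, hs, hs'⟩ := hF
  obtain ⟨t, ht, ht'⟩ := hG
  exact ⟨.eq s t, trivial, ⟨hs, ht⟩, fun A e E => by simp only [Fm.Holds, hs', ht']⟩

theorem lt (hF : UTerm k F) (hG : UTerm k G) : UDef k l (fun A e _ => A.lt (F A e) (G A e)) := by
  obtain ⟨s, hs, hs'⟩ := hF
  obtain ⟨t, ht, ht'⟩ := hG
  exact ⟨.lt s t, trivial, ⟨hs, ht⟩, fun A e E => by simp only [Fm.Holds, hs', ht']⟩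

theorem mem (hF : UTerm k F) (X : ℕ) (hX : X < l) : UDef k l (fun A e E => F A e ∈ E X) := by
  obtain ⟨s, hs, hs'⟩ := hF
  exact ⟨.mem s X, trivial, ⟨hs, hX⟩, fun A e E => by simp only [Fm.Holds, hs']⟩

theorem fal : UDef k l (fun _ _ _ => False) :=
  ⟨.fal, trivial, trivial, fun _ _ _ => Iff.rfl⟩

theorem imp (hP : UDef k l P) (hQ : UDef k l Q) : UDef k l (fun A e E => P A e E → Q A e E) := by
  obtain ⟨φ, h1, h2, h3⟩ := hP
  obtain ⟨ψ, g1, g2, g3⟩ := hQ
  exact ⟨.imp φ ψ, ⟨h1, g1⟩, ⟨h2, g2⟩, fun A e E => by simp only [Fm.Holds, h3, g3]⟩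

theorem not (hP : UDef k l P) : UDef k l (fun A e E => ¬ P A e E) :=
  (hP.imp fal).congr fun _ _ _ => Iff.rfl

theorem and (hP : UDef k l P) (hQ : UDef k l Q) : UDef k l (fun A e E => P A e E ∧ Q A e E) :=
  (hP.imp hQ.not).not.congr fun A e E => by tauto

theorem or (hP : UDef k l P) (hQ : UDef k l Q) : UDef k l (fun A e E => P A e E ∨ Q A e E) :=
  (hP.not.imp hQ).congr fun A e E => by tauto

theorem iff (hP : UDef k l P) (hQ : UDef k l Q) :
    UDef k l (fun A e E => (P A e E ↔ Q A e E)) :=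
  ((hP.imp hQ).and (hQ.imp hP)).congr fun A e E => by tauto

theorem all {P : ∀ A : Str, (ℕ → A.M) → (ℕ → Set A.M) → A.M → Prop}
    (hP : UDef (k + 1) l (fun A e E => P A (fun i => e (i + 1)) E (e 0))) :
    UDef k l (fun A e E => ∀ x, P A e E x) := by
  obtain ⟨φ, h1, h2, h3⟩ := hP
  exact ⟨.allN φ, h1, h2, fun A e E => forall_congr' fun x => h3 A (cons x e) E⟩

theorem ex {P : ∀ A : Str, (ℕ → A.M) → (ℕ → Set A.M) → A.M → Prop}
    (hP : UDef (k + 1) l (fun A e E => P A (fun i => e (i + 1)) E (e 0))) :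
    UDef k l (fun A e E => ∃ x, P A e E x) := by
  have h : UDef k l (fun A e E => ¬ ∀ x, ¬ P A e E x) :=
    (UDef.all (P := fun A e E x => ¬ P A e E x) hP.not).not
  exact h.congr fun A e E => by push Not; rfl

end UDef

/-! ### Comprehension and induction -/

theorem notFreeS_msub_shift : ∀ (φ : Fm) (d : ℕ), φ.Arith →
    (msub (fun X => (none, X + 1)) d φ).NotFreeS 0
  | .eq _ _, _, _ => trivial
  | .lt _ _, _, _ => trivial
  | .mem _ X, _, _ => Nat.succ_ne_zero X
  | .fal, _, _ => trivial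
  | .imp φ ψ, d, h => ⟨notFreeS_msub_shift φ d h.1, notFreeS_msub_shift ψ d h.2⟩
  | .allN φ, d, h => notFreeS_msub_shift φ (d + 1) h
  | .allS _, _, h => h.elim

/-- Arithmetical comprehension in a model of `ACA_0`. -/
theorem comprehension {A : Str} (hA : ∀ φ, ACA0 φ → A.Models φ) {φ : Fm} {k l : ℕ}
    (hφ : φ.Arith) (hc : φ.Closed (k + 1) l) (e : ℕ → A.M) (E : ℕ → Set A.M)
    (hE : ∀ i, E i ∈ A.sets) : {x | φ.Holds A (cons x e) E} ∈ A.sets := by
  have h0 : (msub (fun X => (none, X + 1)) 0 φ).Closed (k + 1) (l + 1) :=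
    msub_closed (k := k + 1) (l := l) (by
      intro X hX
      refine ⟨by simpa using hX, ?_⟩
      intro u hu
      exact absurd hu (by simp)) φ 0 hφ hc
  have h1 := hA _ (ACA0.comp k l (msub (fun X => (none, X + 1)) 0 φ) (msub_arith _ _ _ hφ)
    (notFreeS_msub_shift φ 0 hφ) h0)
  have h2 := holds_of_allSs _ (holds_of_allNs _ h1)
  have h3 := h2 e E hE
  rw [holds_exS] at h3
  obtain ⟨Y, hY, h4⟩ := h3
  have : Y = {x | φ.Holds A (cons x e) E} := by
    ext x
    have h5 := h4 x
    rw [holds_iff, holds_msub (A := A) _ (cons x e) (cons Y E) φ 0 (cons x e) hφ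
      (fun _ => rfl)] at h5
    exact h5
  rwa [this] at hY

theorem UDef.comprehension {A : Str} (hA : ∀ φ, ACA0 φ → A.Models φ) {k l : ℕ}
    {P : ∀ A : Str, (ℕ → A.M) → (ℕ → Set A.M) → A.M → Prop}
    (hP : UDef (k + 1) l (fun A e E => P A (fun i => e (i + 1)) E (e 0)))
    (e : ℕ → A.M) (E : ℕ → Set A.M) (hE : ∀ i, E i ∈ A.sets) :
    {x | P A e E x} ∈ A.sets := by
  obtain ⟨φ, h1, h2, h3⟩ := hP
  have h4 := Pool.Agent.Lib.MP_3ad381_lc.comprehension hA h1 h2 e E hE
  have : {x | P A e E x} = {x | φ.Holds A (cons x e) E} := by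
    ext x
    exact (h3 A (cons x e) E).symm
  rwa [this]

/-- Set induction in a model of `ACA_0`. -/
theorem set_induction {A : Str} (hA : ∀ φ, ACA0 φ → A.Models φ) {X : Set A.M}
    (hX : X ∈ A.sets) (h0 : A.zero ∈ X) (h1 : ∀ x ∈ X, A.add x A.one ∈ X) (x : A.M) : x ∈ X := by
  have h := hA _ ACA0.ind (fun _ => A.zero) (fun _ => X) (fun _ => hX) X hX
  rw [holds_imp, holds_and] at h
  exact h ⟨h0, fun x hx => h1 x hx⟩ x

/-- Induction for definable predicates in a model of `ACA_0`. -/
theorem UDef.induction {A : Str} (hA : ∀ φ, ACA0 φ → A.Models φ) {k l : ℕ}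
    {P : ∀ A : Str, (ℕ → A.M) → (ℕ → Set A.M) → A.M → Prop}
    (hP : UDef (k + 1) l (fun A e E => P A (fun i => e (i + 1)) E (e 0)))
    (e : ℕ → A.M) (E : ℕ → Set A.M) (hE : ∀ i, E i ∈ A.sets)
    (h0 : P A e E A.zero) (h1 : ∀ x, P A e E x → P A e E (A.add x A.one)) (x : A.M) :
    P A e E x :=
  set_induction hA (hP.comprehension hA e E hE) h0 h1 x

end Pool.Agent.Lib.MP_3ad381_lc
end

section

/-!
# Elementary arithmetic inside a model of `ACA_0`
-/

namespace Pool.Agent.Lib.MP_3ad381_lc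

/-- Induction for predicates defined without set variables. -/
theorem num_induction {A : Str} (hA : ∀ φ, ACA0 φ → A.Models φ) {k : ℕ}
    (P : ∀ A : Str, (ℕ → A.M) → A.M → Prop)
    (hP : UDef (k + 1) 0 (fun A e _ => P A (fun i => e (i + 1)) (e 0)))
    (e : ℕ → A.M) (h0 : P A e A.zero) (h1 : ∀ x, P A e x → P A e (A.add x A.one)) (x : A.M) :
    P A e x := by
  obtain ⟨E, hE⟩ := exists_assignS A
  exact UDef.induction hA (P := fun A e _ x => P A e x) hP e E hE h0 h1 x

section

variable {A : Str} (hA : ∀ φ, ACA0 φ → A.Models φ)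

/-- an assignment with the first two values prescribed -/
def asg (A : Str) (a b : A.M) : ℕ → A.M := cons a (cons b fun _ => A.zero)

include hA

theorem m_succ_ne_zero (a : A.M) : A.add a A.one ≠ A.zero := by
  obtain ⟨E, hE⟩ := exists_assignS A
  exact hA _ ACA0.b1 (fun _ => a) E hE a

theorem m_succ_inj {a b : A.M} (h : A.add a A.one = A.add b A.one) : a = b := by
  obtain ⟨E, hE⟩ := exists_assignS A
  exact hA _ ACA0.b2 (fun _ => a) E hE a b h

theorem m_not_lt_zero (a : A.M) : ¬ A.lt a A.zero := by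
  obtain ⟨E, hE⟩ := exists_assignS A
  exact hA _ ACA0.b7 (fun _ => a) E hE a

theorem m_lt_succ (a b : A.M) : A.lt a (A.add b A.one) ↔ (A.lt a b ∨ a = b) := by
  obtain ⟨E, hE⟩ := exists_assignS A
  have h := hA _ ACA0.b8 (fun _ => a) E hE a b
  rw [holds_iff] at h
  refine Iff.trans h ?_
  simp only [Fm.or, Fm.neg, Fm.Holds, Tm.val, cons]
  tauto

theorem m_zero_add (x : A.M) : A.add A.zero x = x := by
  have hr := recEqs hA
  refine num_induction hA (k := 0) (fun A _ x => A.add A.zero x = x)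
    (UDef.eq (.add .zero (.var 0 (by omega))) (.var 0 (by omega))) (fun _ => A.zero) ?_ ?_ x
  · exact hr.add_zero _
  · intro x hx
    rw [hr.add_succ, hx]

theorem m_succ_add (a x : A.M) : A.add (A.add a A.one) x = A.add (A.add a x) A.one := by
  have hr := recEqs hA
  refine num_induction hA (k := 1)
    (fun A e x => A.add (A.add (e 0) A.one) x = A.add (A.add (e 0) x) A.one)
    (UDef.eq (.add (.add (.var 1 (by omega)) .one) (.var 0 (by omega)))
      (.add (.add (.var 1 (by omega)) (.var 0 (by omega))) .one)) (asg A a a) ?_ ?_ x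
  · show A.add (A.add a A.one) A.zero = A.add (A.add a A.zero) A.one
    rw [hr.add_zero, hr.add_zero]
  · intro x hx
    change A.add (A.add a A.one) x = A.add (A.add a x) A.one at hx
    show A.add (A.add a A.one) (A.add x A.one) = A.add (A.add a (A.add x A.one)) A.one
    rw [hr.add_succ, hx, hr.add_succ]

theorem m_add_comm (a x : A.M) : A.add a x = A.add x a := by
  have hr := recEqs hA
  refine num_induction hA (k := 1)
    (fun A e x => A.add (e 0) x = A.add x (e 0))
    (UDef.eq (.add (.var 1 (by omega)) (.var 0 (by omega)))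
      (.add (.var 0 (by omega)) (.var 1 (by omega)))) (asg A a a) ?_ ?_ x
  · show A.add a A.zero = A.add A.zero a
    rw [hr.add_zero, m_zero_add hA]
  · intro x hx
    change A.add a x = A.add x a at hx
    show A.add a (A.add x A.one) = A.add (A.add x A.one) a
    rw [hr.add_succ, hx, m_succ_add hA]

theorem m_add_assoc (a b x : A.M) : A.add (A.add a b) x = A.add a (A.add b x) := by
  have hr := recEqs hA
  refine num_induction hA (k := 2)
    (fun A e x => A.add (A.add (e 0) (e 1)) x = A.add (e 0) (A.add (e 1) x))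
    (UDef.eq (.add (.add (.var 1 (by omega)) (.var 2 (by omega))) (.var 0 (by omega)))
      (.add (.var 1 (by omega)) (.add (.var 2 (by omega)) (.var 0 (by omega)))))
    (asg A a b) ?_ ?_ x
  · show A.add (A.add a b) A.zero = A.add a (A.add b A.zero)
    rw [hr.add_zero, hr.add_zero]
  · intro x hx
    change A.add (A.add a b) x = A.add a (A.add b x) at hx
    show A.add (A.add a b) (A.add x A.one) = A.add a (A.add b (A.add x A.one))
    rw [hr.add_succ, hx, hr.add_succ, hr.add_succ]

theorem m_add_right_cancel {a b : A.M} (x : A.M) (h : A.add a x = A.add b x) : a = b := by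
  have hr := recEqs hA
  have key := num_induction hA (k := 2)
    (fun A e x => A.add (e 0) x = A.add (e 1) x → e 0 = e 1)
    (UDef.imp (UDef.eq (.add (.var 1 (by omega)) (.var 0 (by omega)))
      (.add (.var 2 (by omega)) (.var 0 (by omega)))) (UDef.eq (.var 1 (by omega))
      (.var 2 (by omega))))
    (asg A a b) ?_ ?_ x
  · exact key h
  · show A.add a A.zero = A.add b A.zero → a = b
    rw [hr.add_zero, hr.add_zero]
    exact id
  · intro x hx
    change A.add a x = A.add b x → a = b at hx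
    show A.add a (A.add x A.one) = A.add b (A.add x A.one) → a = b
    rw [hr.add_succ, hr.add_succ]
    intro h
    exact hx (m_succ_inj hA h)

theorem m_zero_mul (x : A.M) : A.mul A.zero x = A.zero := by
  have hr := recEqs hA
  refine num_induction hA (k := 0) (fun A _ x => A.mul A.zero x = A.zero)
    (UDef.eq (.mul .zero (.var 0 (by omega))) .zero) (fun _ => A.zero) ?_ ?_ x
  · exact hr.mul_zero _
  · intro x hx
    rw [hr.mul_succ, hx, hr.add_zero]

theorem m_succ_mul (a x : A.M) : A.mul (A.add a A.one) x = A.add (A.mul a x) x := by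
  have hr := recEqs hA
  refine num_induction hA (k := 1)
    (fun A e x => A.mul (A.add (e 0) A.one) x = A.add (A.mul (e 0) x) x)
    (UDef.eq (.mul (.add (.var 1 (by omega)) .one) (.var 0 (by omega)))
      (.add (.mul (.var 1 (by omega)) (.var 0 (by omega))) (.var 0 (by omega))))
    (asg A a a) ?_ ?_ x
  · show A.mul (A.add a A.one) A.zero = A.add (A.mul a A.zero) A.zero
    rw [hr.mul_zero, hr.mul_zero, hr.add_zero]
  · intro x hx
    change A.mul (A.add a A.one) x = A.add (A.mul a x) x at hx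
    show A.mul (A.add a A.one) (A.add x A.one) = A.add (A.mul a (A.add x A.one)) (A.add x A.one)
    rw [hr.mul_succ, hx, hr.mul_succ, m_add_assoc hA, m_add_assoc hA]
    congr 1
    rw [← m_add_assoc hA, m_add_comm hA x a, m_add_assoc hA]

theorem m_mul_comm (a x : A.M) : A.mul a x = A.mul x a := by
  have hr := recEqs hA
  refine num_induction hA (k := 1)
    (fun A e x => A.mul (e 0) x = A.mul x (e 0))
    (UDef.eq (.mul (.var 1 (by omega)) (.var 0 (by omega)))
      (.mul (.var 0 (by omega)) (.var 1 (by omega)))) (asg A a a) ?_ ?_ x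
  · show A.mul a A.zero = A.mul A.zero a
    rw [hr.mul_zero, m_zero_mul hA]
  · intro x hx
    change A.mul a x = A.mul x a at hx
    show A.mul a (A.add x A.one) = A.mul (A.add x A.one) a
    rw [hr.mul_succ, hx, m_succ_mul hA]

theorem m_left_distrib (a b x : A.M) : A.mul a (A.add b x) = A.add (A.mul a b) (A.mul a x) := by
  have hr := recEqs hA
  refine num_induction hA (k := 2)
    (fun A e x => A.mul (e 0) (A.add (e 1) x) = A.add (A.mul (e 0) (e 1)) (A.mul (e 0) x))
    (UDef.eq (.mul (.var 1 (by omega)) (.add (.var 2 (by omega)) (.var 0 (by omega))))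
      (.add (.mul (.var 1 (by omega)) (.var 2 (by omega)))
        (.mul (.var 1 (by omega)) (.var 0 (by omega)))))
    (asg A a b) ?_ ?_ x
  · show A.mul a (A.add b A.zero) = A.add (A.mul a b) (A.mul a A.zero)
    rw [hr.add_zero, hr.mul_zero, hr.add_zero]
  · intro x hx
    change A.mul a (A.add b x) = A.add (A.mul a b) (A.mul a x) at hx
    show A.mul a (A.add b (A.add x A.one)) = A.add (A.mul a b) (A.mul a (A.add x A.one))
    rw [hr.add_succ, hr.mul_succ, hx, hr.mul_succ, m_add_assoc hA]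

theorem m_mul_assoc (a b x : A.M) : A.mul (A.mul a b) x = A.mul a (A.mul b x) := by
  have hr := recEqs hA
  refine num_induction hA (k := 2)
    (fun A e x => A.mul (A.mul (e 0) (e 1)) x = A.mul (e 0) (A.mul (e 1) x))
    (UDef.eq (.mul (.mul (.var 1 (by omega)) (.var 2 (by omega))) (.var 0 (by omega)))
      (.mul (.var 1 (by omega)) (.mul (.var 2 (by omega)) (.var 0 (by omega)))))
    (asg A a b) ?_ ?_ x
  · show A.mul (A.mul a b) A.zero = A.mul a (A.mul b A.zero)
    rw [hr.mul_zero, hr.mul_zero, hr.mul_zero]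
  · intro x hx
    change A.mul (A.mul a b) x = A.mul a (A.mul b x) at hx
    show A.mul (A.mul a b) (A.add x A.one) = A.mul a (A.mul b (A.add x A.one))
    rw [hr.mul_succ, hx, hr.mul_succ, m_left_distrib hA]

/-- The number domain of a model of `ACA_0` is a commutative semiring. -/
@[reducible] def semiringOfModel : CommSemiring A.M :=
  letI : Add A.M := ⟨A.add⟩
  letI : Mul A.M := ⟨A.mul⟩
  letI : Zero A.M := ⟨A.zero⟩
  letI : One A.M := ⟨A.one⟩
  { add_assoc := m_add_assoc hA
    zero_add := m_zero_add hA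
    add_zero := (recEqs hA).add_zero
    add_comm := m_add_comm hA
    mul_assoc := m_mul_assoc hA
    mul_comm := m_mul_comm hA
    zero_mul := m_zero_mul hA
    mul_zero := (recEqs hA).mul_zero
    one_mul := fun a => by
      show A.mul A.one a = a
      rw [← m_zero_add hA A.one, m_succ_mul hA, m_zero_mul hA, m_zero_add hA]
    mul_one := fun a => by
      show A.mul a A.one = a
      rw [m_mul_comm hA, ← m_zero_add hA A.one, m_succ_mul hA, m_zero_mul hA, m_zero_add hA]
    left_distrib := m_left_distrib hA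
    right_distrib := fun a b c => by
      show A.mul (A.add a b) c = A.add (A.mul a c) (A.mul b c)
      rw [m_mul_comm hA, m_left_distrib hA, m_mul_comm hA c a, m_mul_comm hA c b]
    nsmul := nsmulRec }

theorem m_zero_or_succ (x : A.M) : x = A.zero ∨ ∃ y, x = A.add y A.one := by
  refine num_induction hA (k := 0) (fun A _ x => x = A.zero ∨ ∃ y, x = A.add y A.one)
    (UDef.or (UDef.eq (.var 0 (by omega)) .zero)
      (UDef.ex (UDef.eq (.var 1 (by omega)) (.add (.var 0 (by omega)) .one))))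
    (fun _ => A.zero) ?_ ?_ x
  · exact Or.inl rfl
  · intro x _
    exact Or.inr ⟨x, rfl⟩

theorem m_trichotomy (a x : A.M) : a = x ∨ (∃ z, x = A.add (A.add a z) A.one) ∨
    (∃ z, a = A.add (A.add x z) A.one) := by
  have hr := recEqs hA
  refine num_induction hA (k := 1)
    (fun A e x => e 0 = x ∨ (∃ z, x = A.add (A.add (e 0) z) A.one) ∨
      (∃ z, e 0 = A.add (A.add x z) A.one)) ?_ (asg A a a) ?_ ?_ x
  · refine UDef.or (UDef.eq (.var 1 (by omega)) (.var 0 (by omega))) (UDef.or
      (UDef.ex (UDef.eq (.var 1 (by omega))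
        (.add (.add (.var 2 (by omega)) (.var 0 (by omega))) .one)))
      (UDef.ex (UDef.eq (.var 2 (by omega))
        (.add (.add (.var 1 (by omega)) (.var 0 (by omega))) .one))))
  · show a = A.zero ∨ (∃ z, A.zero = A.add (A.add a z) A.one) ∨
      (∃ z, a = A.add (A.add A.zero z) A.one)
    rcases m_zero_or_succ hA a with h | ⟨y, h⟩
    · exact Or.inl h
    · exact Or.inr (Or.inr ⟨y, by rw [m_zero_add hA, h]⟩)
  · intro x hx
    change a = x ∨ (∃ z, x = A.add (A.add a z) A.one) ∨
      (∃ z, a = A.add (A.add x z) A.one) at hx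
    show a = A.add x A.one ∨ (∃ z, A.add x A.one = A.add (A.add a z) A.one) ∨
      (∃ z, a = A.add (A.add (A.add x A.one) z) A.one)
    rcases hx with h | ⟨z, h⟩ | ⟨z, h⟩
    · exact Or.inr (Or.inl ⟨A.zero, by rw [hr.add_zero, h]⟩)
    · exact Or.inr (Or.inl ⟨A.add z A.one, by rw [hr.add_succ, ← h]⟩)
    · rcases m_zero_or_succ hA z with h0 | ⟨y, h0⟩
      · left
        rw [h, h0, hr.add_zero]
      · right; right
        refine ⟨y, ?_⟩
        rw [m_succ_add hA, h, h0, hr.add_succ]

theorem prA_no {a b c d z : A.M} (h : prA A a b = prA A c d)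
    (hs : A.add c d = A.add (A.add (A.add a b) z) A.one) : False := by
  let _ := semiringOfModel hA
  have h1 : (a + b) * (a + b) + a = (c + d) * (c + d) + c := h
  have h2 : c + d = (a + b) + z + 1 := hs
  rw [h2] at h1
  have h3 : 0 + ((a + b) * (a + b) + a) =
      ((b + (a + b) + 2 * (a + b) * z + z * z + 2 * z + c) + 1) + ((a + b) * (a + b) + a) := by
    rw [zero_add]
    refine h1.trans ?_
    ring
  have h4 := m_add_right_cancel hA _ h3
  exact m_succ_ne_zero hA _ h4.symm

/-- The pairing function is injective in models of `ACA_0`. -/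
theorem prA_inj {a b c d : A.M} (h : prA A a b = prA A c d) : a = c ∧ b = d := by
  rcases m_trichotomy hA (A.add a b) (A.add c d) with h1 | ⟨z, h1⟩ | ⟨z, h1⟩
  · have h2 : a = c := by
      rw [prA, prA, h1, m_add_comm hA _ a, m_add_comm hA _ c] at h
      exact m_add_right_cancel hA _ h
    subst h2
    refine ⟨rfl, ?_⟩
    rw [m_add_comm hA a b, m_add_comm hA a d] at h1
    exact m_add_right_cancel hA _ h1
  · exact (prA_no hA h h1).elim
  · exact (prA_no hA h.symm h1).elim

/-- The elements below a standard number are standard. -/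
theorem lt_numA (n : ℕ) (a : A.M) : A.lt a (numA A n) ↔ ∃ i < n, a = numA A i := by
  induction n with
  | zero =>
    simp only [numA, Nat.not_lt_zero, false_and, exists_false, iff_false]
    exact m_not_lt_zero hA a
  | succ n ih =>
    rw [numA, m_lt_succ hA, ih]
    constructor
    · rintro (⟨i, hi, h⟩ | h)
      · exact ⟨i, by omega, h⟩
      · exact ⟨n, by omega, h⟩
    · rintro ⟨i, hi, h⟩
      rcases Nat.lt_succ_iff_lt_or_eq.1 hi with h1 | rfl
      · exact Or.inl ⟨i, h1, h⟩
      · exact Or.inr h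

end

end Pool.Agent.Lib.MP_3ad381_lc
end
end

section

section

/-!
# A `Π^1_1` truth predicate for `Π^1_1` sentences in `ACA_0`
-/

namespace Pool.Agent.Lib.MP_3ad381_lc

/-! ### Environments and tuples -/

/-- put `b` in front of the environment `e` -/
def push (A : Str) (b e : A.M) : A.M := A.add (prA A b e) A.one

/-- the term `c` has value `a` in environment `e` -/
def tup (A : Str) (c e a : A.M) : A.M := prA A (numA A 0) (prA A c (prA A e a))

/-- the formula `c` holds in environment `e` -/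
def fup (A : Str) (c e : A.M) : A.M := prA A (numA A 1) (prA A c e)

/-- the recursion clause for terms -/
def RT (A : Str) (S : Set A.M) (c e a : A.M) : Prop :=
  (c = prA A (numA A 0) (numA A 0) ∧ ∃ e', e = push A a e') ∨
  (∃ n b e', c = prA A (numA A 0) (A.add n A.one) ∧ A.lt (prA A (numA A 0) n) c ∧
    e = push A b e' ∧ tup A (prA A (numA A 0) n) e' a ∈ S) ∨
  (c = prA A (numA A 1) (numA A 0) ∧ a = A.zero) ∨
  (c = prA A (numA A 2) (numA A 0) ∧ a = A.one) ∨
  (∃ s t b d, c = prA A (numA A 3) (prA A s t) ∧ A.lt s c ∧ A.lt t c ∧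
    tup A s e b ∈ S ∧ tup A t e d ∈ S ∧ a = A.add b d) ∨
  (∃ s t b d, c = prA A (numA A 4) (prA A s t) ∧ A.lt s c ∧ A.lt t c ∧
    tup A s e b ∈ S ∧ tup A t e d ∈ S ∧ a = A.mul b d)

/-- the recursion clause for formulas -/
def RF (A : Str) (S X : Set A.M) (c e : A.M) : Prop :=
  (∃ s t a, c = prA A (numA A 0) (prA A s t) ∧ tup A s e a ∈ S ∧ tup A t e a ∈ S) ∨
  (∃ s t a b, c = prA A (numA A 1) (prA A s t) ∧ tup A s e a ∈ S ∧ tup A t e b ∈ S ∧
    A.lt a b) ∨
  (∃ t a, c = prA A (numA A 2) (prA A t (numA A 0)) ∧ tup A t e a ∈ S ∧ a ∈ X) ∨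
  (∃ p q, c = prA A (numA A 4) (prA A p q) ∧ A.lt p c ∧ A.lt q c ∧
    (fup A p e ∈ S → fup A q e ∈ S)) ∨
  (∃ p, c = prA A (numA A 5) p ∧ A.lt p c ∧ ∀ b, fup A p (push A b e) ∈ S)

/-- `S` is a satisfaction class for terms and formulas with codes below `x`. -/
def Clauses (A : Str) (S X : Set A.M) (x : A.M) : Prop :=
  (∀ c, A.lt c x → ∀ e a, (tup A c e a ∈ S ↔ RT A S c e a)) ∧
  (∀ c, A.lt c x → ∀ e, (fup A c e ∈ S ↔ RF A S X c e))

/-! ### Definability -/

theorem udef_main : UDef 1 2 (fun A e E => Clauses A (E 0) (E 1) (e 0) →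
    ∀ c, e 0 = prA A (numA A 6) c → fup A c A.zero ∈ E 0) := by
  unfold Clauses RT RF tup fup push
  repeat' first
    | apply UDef.not
    | apply UDef.and
    | apply UDef.or
    | apply UDef.iff
    | apply UDef.ex
    | apply UDef.imp
    | apply UDef.all
    | (refine UDef.eq ?_ ?_ <;> (repeat' first
        | exact UTerm.var _ (by omega)
        | exact UTerm.zero
        | exact UTerm.one
        | exact UTerm.numA _
        | apply UTerm.prA
        | apply UTerm.add
        | apply UTerm.mul); done)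
    | (refine UDef.lt ?_ ?_ <;> (repeat' first
        | exact UTerm.var _ (by omega)
        | exact UTerm.zero
        | exact UTerm.one
        | exact UTerm.numA _
        | apply UTerm.prA
        | apply UTerm.add
        | apply UTerm.mul); done)
    | (refine UDef.mem ?_ _ (by omega) <;> (repeat' first
        | exact UTerm.var _ (by omega)
        | exact UTerm.zero
        | exact UTerm.one
        | exact UTerm.numA _
        | apply UTerm.prA
        | apply UTerm.add
        | apply UTerm.mul); done)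


/-! ### Basic facts -/

section

variable {A : Str} (hA : ∀ φ, ACA0 φ → A.Models φ)
include hA

theorem prA_iff {a b c d : A.M} : prA A a b = prA A c d ↔ a = c ∧ b = d :=
  ⟨prA_inj hA, fun h => by rw [h.1, h.2]⟩

theorem numA_iff : ∀ {i j : ℕ}, numA A i = numA A j ↔ i = j := by
  have key : ∀ i j : ℕ, numA A i = numA A j → i = j := by
    intro i
    induction i with
    | zero =>
      intro j h
      cases j with
      | zero => rfl
      | succ j => exact absurd h.symm (m_succ_ne_zero hA _)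
    | succ i ih =>
      intro j h
      cases j with
      | zero => exact absurd h (m_succ_ne_zero hA _)
      | succ j => rw [ih j (m_succ_inj hA h)]
  exact fun {i j} => ⟨key i j, fun h => by rw [h]⟩

theorem push_iff {b e b' e' : A.M} : push A b e = push A b' e' ↔ b = b' ∧ e = e' :=
  ⟨fun h => prA_inj hA (m_succ_inj hA h), fun h => by rw [h.1, h.2]⟩

theorem tup_iff {c e a c' e' a' : A.M} :
    tup A c e a = tup A c' e' a' ↔ c = c' ∧ e = e' ∧ a = a' := by
  simp only [tup, prA_iff hA, true_and]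

theorem fup_iff {c e c' e' : A.M} : fup A c e = fup A c' e' ↔ c = c' ∧ e = e' := by
  simp only [fup, prA_iff hA, true_and]

theorem tup_ne_fup {c e a c' e' : A.M} : tup A c e a ≠ fup A c' e' := by
  intro h
  have := (prA_inj hA h).1
  rw [numA_iff hA] at this
  omega

theorem m_lt_trans_numA {c c' : A.M} {i x : ℕ} (h : A.lt c' c) (hc : c = numA A i) (hi : i ≤ x) :
    A.lt c' (numA A x) := by
  subst hc
  rw [lt_numA hA] at h ⊢
  obtain ⟨j, hj, h⟩ := h
  exact ⟨j, by omega, h⟩

/-! ### Existence of satisfaction classes -/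

omit hA in
theorem RT_congr {S S' : Set A.M} {c : A.M}
    (h : ∀ c', A.lt c' c → ∀ e a, (tup A c' e a ∈ S ↔ tup A c' e a ∈ S')) (e a : A.M) :
    RT A S c e a ↔ RT A S' c e a := by
  unfold RT
  refine or_congr Iff.rfl (or_congr ?_ (or_congr Iff.rfl (or_congr Iff.rfl (or_congr ?_ ?_))))
  · refine exists_congr fun n => exists_congr fun b => exists_congr fun e' =>
      and_congr_right fun _ => and_congr_right fun h1 => and_congr_right fun _ => h _ h1 _ _
  · refine exists_congr fun s => exists_congr fun t => exists_congr fun b => exists_congr fun d =>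
      and_congr_right fun _ => and_congr_right fun h1 => and_congr_right fun h2 => ?_
    rw [h _ h1, h _ h2]
  · refine exists_congr fun s => exists_congr fun t => exists_congr fun b => exists_congr fun d =>
      and_congr_right fun _ => and_congr_right fun h1 => and_congr_right fun h2 => ?_
    rw [h _ h1, h _ h2]

omit hA in
theorem RF_congr {S S' X : Set A.M} {c : A.M}
    (h0 : ∀ c' e a, (tup A c' e a ∈ S ↔ tup A c' e a ∈ S'))
    (h : ∀ c', A.lt c' c → ∀ e, (fup A c' e ∈ S ↔ fup A c' e ∈ S')) (e : A.M) :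
    RF A S X c e ↔ RF A S' X c e := by
  unfold RF
  simp only [h0]
  refine or_congr Iff.rfl (or_congr Iff.rfl (or_congr Iff.rfl (or_congr ?_ ?_)))
  · refine exists_congr fun p => exists_congr fun q =>
      and_congr_right fun _ => and_congr_right fun h1 => and_congr_right fun h2 => ?_
    rw [h _ h1, h _ h2]
  · refine exists_congr fun p =>
      and_congr_right fun _ => and_congr_right fun h1 => forall_congr' fun b => h _ h1 _

omit hA in
/-- the assignment of two set variables -/
theorem asgS_mem {S X : Set A.M} (hS : S ∈ A.sets) (hX : X ∈ A.sets) :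
    ∀ i, cons S (fun _ => X) i ∈ A.sets := by
  intro i
  cases i
  · exact hS
  · exact hX

theorem exists_termClauses (x : ℕ) : ∃ S ∈ A.sets,
    ∀ c, A.lt c (numA A x) → ∀ e a, (tup A c e a ∈ S ↔ RT A S c e a) := by
  induction x with
  | zero =>
    obtain ⟨S, hS⟩ := A.sets_nonempty
    exact ⟨S, hS, fun c hc => absurd hc (m_not_lt_zero hA c)⟩
  | succ x ih =>
    obtain ⟨S, hS, hcl⟩ := ih
    have hdef : UDef (0 + 1) 2 (fun A e E =>
        (e 0 ∈ E 0 ∧ ¬ ∃ en a, e 0 = tup A (numA A x) en a) ∨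
        (∃ en a, e 0 = tup A (numA A x) en a ∧ RT A (E 0) (numA A x) en a)) := by
      unfold RT tup push
      repeat' first
        | apply UDef.not
        | apply UDef.and
        | apply UDef.or
        | apply UDef.iff
        | apply UDef.ex
        | apply UDef.imp
        | apply UDef.all
        | (refine UDef.eq ?_ ?_ <;> (repeat' first
            | exact UTerm.var _ (by omega)
            | exact UTerm.zero
            | exact UTerm.one
            | exact UTerm.numA _
            | apply UTerm.prA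
            | apply UTerm.add
            | apply UTerm.mul); done)
        | (refine UDef.lt ?_ ?_ <;> (repeat' first
            | exact UTerm.var _ (by omega)
            | exact UTerm.zero
            | exact UTerm.one
            | exact UTerm.numA _
            | apply UTerm.prA
            | apply UTerm.add
            | apply UTerm.mul); done)
        | (refine UDef.mem ?_ _ (by omega) <;> (repeat' first
            | exact UTerm.var _ (by omega)
            | exact UTerm.zero
            | exact UTerm.one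
            | exact UTerm.numA _
            | apply UTerm.prA
            | apply UTerm.add
            | apply UTerm.mul); done)
    have hmem := UDef.comprehension hA (P := fun A _ E z =>
        (z ∈ E 0 ∧ ¬ ∃ en a, z = tup A (numA A x) en a) ∨
        (∃ en a, z = tup A (numA A x) en a ∧ RT A (E 0) (numA A x) en a)) hdef
        (fun _ => A.zero) (cons S (fun _ => S)) (asgS_mem hS hS)
    set S' : Set A.M := {z | (z ∈ (cons S (fun _ => S) : ℕ → Set A.M) 0 ∧
        ¬ ∃ en a, z = tup A (numA A x) en a) ∨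
        (∃ en a, z = tup A (numA A x) en a ∧
          RT A ((cons S (fun _ => S) : ℕ → Set A.M) 0) (numA A x) en a)} with hS'
    have hold : ∀ c', A.lt c' (numA A x) → ∀ e a, (tup A c' e a ∈ S' ↔ tup A c' e a ∈ S) := by
      intro c' hc' e a
      rw [lt_numA hA] at hc'
      obtain ⟨i, hi, rfl⟩ := hc'
      have hne : ∀ en a', tup A (numA A i) e a ≠ tup A (numA A x) en a' := by
        intro en a' h
        rw [tup_iff hA, numA_iff hA] at h
        omega
      constructor
      · rintro (h | ⟨en, a', h, _⟩)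
        · exact h.1
        · exact absurd h (hne _ _)
      · intro h
        refine Or.inl ⟨h, ?_⟩
        rintro ⟨en, a', h⟩
        exact absurd h (hne _ _)
    have hnew : ∀ e a, (tup A (numA A x) e a ∈ S' ↔ RT A S (numA A x) e a) := by
      intro e a
      constructor
      · rintro (h | ⟨en, a', h, h2⟩)
        · exact absurd ⟨e, a, rfl⟩ h.2
        · rw [tup_iff hA] at h
          obtain ⟨_, rfl, rfl⟩ := h
          exact h2
      · intro h
        exact Or.inr ⟨e, a, rfl, h⟩
    refine ⟨S', hmem, ?_⟩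
    intro c hc e a
    rw [numA, m_lt_succ hA] at hc
    rcases hc with hc | rfl
    · rw [hold c hc, hcl c hc]
      refine RT_congr (fun c' hc' e a => (hold c' ?_ e a).symm) e a
      rw [lt_numA hA] at hc
      obtain ⟨i, hi, rfl⟩ := hc
      exact m_lt_trans_numA hA hc' rfl (by omega)
    · rw [hnew]
      exact RT_congr (fun c' hc' e a => (hold c' hc' e a).symm) e a

theorem exists_clauses (X : Set A.M) (hX : X ∈ A.sets) (x : ℕ) :
    ∃ S ∈ A.sets, Clauses A S X (numA A x) := by
  obtain ⟨S₀, hS₀, hcl₀⟩ := exists_termClauses hA x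
  have key : ∀ y : ℕ, ∃ S ∈ A.sets,
      (∀ c, A.lt c (numA A x) → ∀ e a, (tup A c e a ∈ S ↔ RT A S c e a)) ∧
      (∀ c, A.lt c (numA A y) → ∀ e, (fup A c e ∈ S ↔ RF A S X c e)) := by
    intro y
    induction y with
    | zero => exact ⟨S₀, hS₀, hcl₀, fun c hc => absurd hc (m_not_lt_zero hA c)⟩
    | succ y ih =>
      obtain ⟨S, hS, hclT, hclF⟩ := ih
      have hdef : UDef (0 + 1) 2 (fun A e E =>
          (e 0 ∈ E 0 ∧ ¬ ∃ en, e 0 = fup A (numA A y) en) ∨
          (∃ en, e 0 = fup A (numA A y) en ∧ RF A (E 0) (E 1) (numA A y) en)) := by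
        unfold RF tup fup push
        repeat' first
          | apply UDef.not
          | apply UDef.and
          | apply UDef.or
          | apply UDef.iff
          | apply UDef.ex
          | apply UDef.imp
          | apply UDef.all
          | (refine UDef.eq ?_ ?_ <;> (repeat' first
              | exact UTerm.var _ (by omega)
              | exact UTerm.zero
              | exact UTerm.one
              | exact UTerm.numA _
              | apply UTerm.prA
              | apply UTerm.add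
              | apply UTerm.mul); done)
          | (refine UDef.lt ?_ ?_ <;> (repeat' first
              | exact UTerm.var _ (by omega)
              | exact UTerm.zero
              | exact UTerm.one
              | exact UTerm.numA _
              | apply UTerm.prA
              | apply UTerm.add
              | apply UTerm.mul); done)
          | (refine UDef.mem ?_ _ (by omega) <;> (repeat' first
              | exact UTerm.var _ (by omega)
              | exact UTerm.zero
              | exact UTerm.one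
              | exact UTerm.numA _
              | apply UTerm.prA
              | apply UTerm.add
              | apply UTerm.mul); done)
      have hmem := UDef.comprehension hA (P := fun A _ E z =>
          (z ∈ E 0 ∧ ¬ ∃ en, z = fup A (numA A y) en) ∨
          (∃ en, z = fup A (numA A y) en ∧ RF A (E 0) (E 1) (numA A y) en)) hdef
          (fun _ => A.zero) (cons S (fun _ => X)) (asgS_mem hS hX)
      set S' : Set A.M := {z | (z ∈ (cons S (fun _ => X) : ℕ → Set A.M) 0 ∧
          ¬ ∃ en, z = fup A (numA A y) en) ∨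
          (∃ en, z = fup A (numA A y) en ∧
            RF A ((cons S (fun _ => X) : ℕ → Set A.M) 0) ((cons S (fun _ => X) : ℕ → Set A.M) 1)
              (numA A y) en)} with hS'
      have holdT : ∀ c' e a, (tup A c' e a ∈ S' ↔ tup A c' e a ∈ S) := by
        intro c' e a
        constructor
        · rintro (h | ⟨en, h, _⟩)
          · exact h.1
          · exact absurd h (tup_ne_fup hA)
        · intro h
          refine Or.inl ⟨h, ?_⟩
          rintro ⟨en, h⟩
          exact absurd h (tup_ne_fup hA)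
      have holdF : ∀ c', A.lt c' (numA A y) → ∀ e, (fup A c' e ∈ S' ↔ fup A c' e ∈ S) := by
        intro c' hc' e
        rw [lt_numA hA] at hc'
        obtain ⟨i, hi, rfl⟩ := hc'
        have hne : ∀ en, fup A (numA A i) e ≠ fup A (numA A y) en := by
          intro en h
          rw [fup_iff hA, numA_iff hA] at h
          omega
        constructor
        · rintro (h | ⟨en, h, _⟩)
          · exact h.1
          · exact absurd h (hne _)
        · intro h
          refine Or.inl ⟨h, ?_⟩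
          rintro ⟨en, h⟩
          exact absurd h (hne _)
      have hnew : ∀ e, (fup A (numA A y) e ∈ S' ↔ RF A S X (numA A y) e) := by
        intro e
        constructor
        · rintro (h | ⟨en, h, h2⟩)
          · exact absurd ⟨e, rfl⟩ h.2
          · rw [fup_iff hA] at h
            obtain ⟨_, rfl⟩ := h
            exact h2
        · intro h
          exact Or.inr ⟨e, rfl, h⟩
      refine ⟨S', hmem, ?_, ?_⟩
      · intro c hc e a
        rw [holdT, hclT c hc]
        exact RT_congr (fun c' _ e a => (holdT c' e a).symm) e a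
      · intro c hc e
        rw [numA, m_lt_succ hA] at hc
        rcases hc with hc | rfl
        · rw [holdF c hc, hclF c hc]
          refine RF_congr (fun c' e a => (holdT c' e a).symm)
            (fun c' hc' e => (holdF c' ?_ e).symm) e
          rw [lt_numA hA] at hc
          obtain ⟨i, hi, rfl⟩ := hc
          exact m_lt_trans_numA hA hc' rfl (by omega)
        · rw [hnew]
          exact RF_congr (fun c' e a => (holdT c' e a).symm)
            (fun c' hc' e => (holdF c' hc' e).symm) e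
  obtain ⟨S, hS, h1, h2⟩ := key x
  exact ⟨S, hS, h1, h2⟩

/-! ### Agreement -/

omit hA in
/-- the element coding the first `k` values of an assignment -/
def envOf (A : Str) : ℕ → (ℕ → A.M) → A.M
  | 0, _ => A.zero
  | k + 1, e => push A (e 0) (envOf A k (fun i => e (i + 1)))

omit hA in
theorem le_pr_right (a b : ℕ) : b ≤ pr a b := by
  unfold pr
  nlinarith [Nat.le_mul_self (a + b)]

omit hA in
theorem le_pr_left (a b : ℕ) : a ≤ pr a b := by
  unfold pr
  nlinarith [Nat.zero_le ((a + b) * (a + b))]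

omit hA in
theorem lt_pr_right {a : ℕ} (b : ℕ) (ha : 0 < a) : b < pr a b := by
  unfold pr
  nlinarith [Nat.le_mul_self (a + b)]

omit hA in
theorem lt_pr₁ {a : ℕ} (s t : ℕ) (ha : 0 < a) : s < pr a (pr s t) :=
  lt_of_le_of_lt (le_pr_left s t) (lt_pr_right _ ha)

omit hA in
theorem lt_pr₂ {a : ℕ} (s t : ℕ) (ha : 0 < a) : t < pr a (pr s t) :=
  lt_of_le_of_lt (le_pr_right s t) (lt_pr_right _ ha)

theorem var_agree {S : Set A.M} {x : ℕ}
    (hS : ∀ c, A.lt c (numA A x) → ∀ e a, (tup A c e a ∈ S ↔ RT A S c e a)) :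
    ∀ (n k : ℕ) (e : ℕ → A.M) (a : A.M), n < k → pr 0 n < x →
      (tup A (numA A (pr 0 n)) (envOf A k e) a ∈ S ↔ a = e n) := by
  have hr := recEqs hA
  intro n
  induction n with
  | zero =>
    intro k e a hk hx
    obtain ⟨k, rfl⟩ : ∃ k', k = k' + 1 := ⟨k - 1, by omega⟩
    rw [hS _ ((lt_numA hA _ _).2 ⟨_, hx, rfl⟩), RT, ← numA_pr hr]
    simp only [envOf, push_iff hA]
    constructor
    · rintro (⟨_, e', h, _⟩ | ⟨n, b, e', h, _⟩ | ⟨h, _⟩ | ⟨h, _⟩ | ⟨s, t, b, d, h, _⟩ |
        ⟨s, t, b, d, h, _⟩)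
      · exact h.symm
      · exact absurd (prA_inj hA h).2.symm (m_succ_ne_zero hA _)
      · exact absurd ((numA_iff hA).1 (prA_inj hA h).1) (by omega)
      · exact absurd ((numA_iff hA).1 (prA_inj hA h).1) (by omega)
      · exact absurd ((numA_iff hA).1 (prA_inj hA h).1) (by omega)
      · exact absurd ((numA_iff hA).1 (prA_inj hA h).1) (by omega)
    · intro h
      exact Or.inl ⟨trivial, _, h.symm, rfl⟩
  | succ n ih =>
    intro k e a hk hx
    obtain ⟨k, rfl⟩ : ∃ k', k = k' + 1 := ⟨k - 1, by omega⟩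
    have hlt : pr 0 n < pr 0 (n + 1) := by
      unfold pr
      nlinarith
    rw [hS _ ((lt_numA hA _ _).2 ⟨_, hx, rfl⟩), RT]
    have hcode : numA A (pr 0 (n + 1)) = prA A (numA A 0) (numA A (n + 1)) := (numA_pr hr _ _).symm
    have hcode' : numA A (pr 0 n) = prA A (numA A 0) (numA A n) := (numA_pr hr _ _).symm
    constructor
    · rintro (⟨h, _⟩ | ⟨m, b, e', h, _, h2, h3⟩ | ⟨h, _⟩ | ⟨h, _⟩ | ⟨s, t, b, d, h, _⟩ |
        ⟨s, t, b, d, h, _⟩)
      · rw [hcode] at h
        exact absurd ((numA_iff hA).1 (prA_inj hA h).2) (by omega)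
      · rw [hcode] at h
        have hm : m = numA A n := (m_succ_inj hA (prA_inj hA h).2).symm
        subst hm
        rw [envOf, push_iff hA] at h2
        obtain ⟨_, rfl⟩ := h2
        rw [← hcode', ih k _ a (by omega) (by omega)] at h3
        exact h3
      · rw [hcode] at h
        exact absurd ((numA_iff hA).1 (prA_inj hA h).1) (by omega)
      · rw [hcode] at h
        exact absurd ((numA_iff hA).1 (prA_inj hA h).1) (by omega)
      · rw [hcode] at h
        exact absurd ((numA_iff hA).1 (prA_inj hA h).1) (by omega)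
      · rw [hcode] at h
        exact absurd ((numA_iff hA).1 (prA_inj hA h).1) (by omega)
    · intro h
      refine Or.inr (Or.inl ⟨numA A n, e 0, envOf A k (fun i => e (i + 1)), hcode, ?_, rfl, ?_⟩)
      · rw [← hcode', lt_numA hA]
        exact ⟨_, hlt, rfl⟩
      · rw [← hcode']
        exact (ih k (fun i => e (i + 1)) a (by omega) (by omega)).2 h

theorem term_agree {S : Set A.M} {x : ℕ}
    (hS : ∀ c, A.lt c (numA A x) → ∀ e a, (tup A c e a ∈ S ↔ RT A S c e a)) :
    ∀ (t : Tm) (k : ℕ) (e : ℕ → A.M) (a : A.M), t.Closed k → t.code < x →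
      (tup A (numA A t.code) (envOf A k e) a ∈ S ↔ a = t.val A e)
  | .var n, k, e, a, hk, hx => var_agree hA hS n k e a hk hx
  | .zero, k, e, a, _, hx => by
    rw [hS _ ((lt_numA hA _ _).2 ⟨_, hx, rfl⟩), RT, Tm.code, ← numA_pr (recEqs hA)]
    constructor
    · rintro (⟨h, _⟩ | ⟨n, b, e', h, _⟩ | ⟨_, h⟩ | ⟨h, _⟩ | ⟨s, t, b, d, h, _⟩ |
        ⟨s, t, b, d, h, _⟩)
      · exact absurd ((numA_iff hA).1 (prA_inj hA h).1) (by omega)
      · exact absurd ((numA_iff hA).1 (prA_inj hA h).1) (by omega)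
      · exact h
      · exact absurd ((numA_iff hA).1 (prA_inj hA h).1) (by omega)
      · exact absurd ((numA_iff hA).1 (prA_inj hA h).1) (by omega)
      · exact absurd ((numA_iff hA).1 (prA_inj hA h).1) (by omega)
    · intro h
      exact Or.inr (Or.inr (Or.inl ⟨rfl, h⟩))
  | .one, k, e, a, _, hx => by
    rw [hS _ ((lt_numA hA _ _).2 ⟨_, hx, rfl⟩), RT, Tm.code, ← numA_pr (recEqs hA)]
    constructor
    · rintro (⟨h, _⟩ | ⟨n, b, e', h, _⟩ | ⟨h, _⟩ | ⟨_, h⟩ | ⟨s, t, b, d, h, _⟩ |
        ⟨s, t, b, d, h, _⟩)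
      · exact absurd ((numA_iff hA).1 (prA_inj hA h).1) (by omega)
      · exact absurd ((numA_iff hA).1 (prA_inj hA h).1) (by omega)
      · exact absurd ((numA_iff hA).1 (prA_inj hA h).1) (by omega)
      · exact h
      · exact absurd ((numA_iff hA).1 (prA_inj hA h).1) (by omega)
      · exact absurd ((numA_iff hA).1 (prA_inj hA h).1) (by omega)
    · intro h
      exact Or.inr (Or.inr (Or.inr (Or.inl ⟨rfl, h⟩)))
  | .add s t, k, e, a, hk, hx => by
    have hs := term_agree hS s k e
    have ht := term_agree hS t k e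
    rw [hS _ ((lt_numA hA _ _).2 ⟨_, hx, rfl⟩), RT]
    have hcode : numA A (Tm.add s t).code =
        prA A (numA A 3) (prA A (numA A s.code) (numA A t.code)) := by
      rw [numA_pr (recEqs hA), numA_pr (recEqs hA)]; rfl
    have h1 : s.code < (Tm.add s t).code := lt_pr₁ _ _ (by omega)
    have h2 : t.code < (Tm.add s t).code := lt_pr₂ _ _ (by omega)
    constructor
    · rintro (⟨h, _⟩ | ⟨n, b, e', h, _⟩ | ⟨h, _⟩ | ⟨h, _⟩ | ⟨s', t', b, d, h, _, _, g1, g2, g3⟩ |
        ⟨s', t', b, d, h, _⟩)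
      · rw [hcode] at h
        exact absurd ((numA_iff hA).1 (prA_inj hA h).1) (by omega)
      · rw [hcode] at h
        exact absurd ((numA_iff hA).1 (prA_inj hA h).1) (by omega)
      · rw [hcode] at h
        exact absurd ((numA_iff hA).1 (prA_inj hA h).1) (by omega)
      · rw [hcode] at h
        exact absurd ((numA_iff hA).1 (prA_inj hA h).1) (by omega)
      · rw [hcode] at h
        obtain ⟨h3, h4⟩ := prA_inj hA (prA_inj hA h).2
        subst h3 h4
        rw [hs b hk.1 (by omega)] at g1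
        rw [ht d hk.2 (by omega)] at g2
        rw [g3, g1, g2]
        rfl
      · rw [hcode] at h
        exact absurd ((numA_iff hA).1 (prA_inj hA h).1) (by omega)
    · intro h
      refine Or.inr (Or.inr (Or.inr (Or.inr (Or.inl ⟨_, _, s.val A e, t.val A e, hcode, ?_, ?_,
        (hs _ hk.1 (by omega)).2 rfl, (ht _ hk.2 (by omega)).2 rfl, h⟩))))
      · exact (lt_numA hA _ _).2 ⟨_, h1, rfl⟩
      · exact (lt_numA hA _ _).2 ⟨_, h2, rfl⟩
  | .mul s t, k, e, a, hk, hx => by
    have hs := term_agree hS s k e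
    have ht := term_agree hS t k e
    rw [hS _ ((lt_numA hA _ _).2 ⟨_, hx, rfl⟩), RT]
    have hcode : numA A (Tm.mul s t).code =
        prA A (numA A 4) (prA A (numA A s.code) (numA A t.code)) := by
      rw [numA_pr (recEqs hA), numA_pr (recEqs hA)]; rfl
    have h1 : s.code < (Tm.mul s t).code := lt_pr₁ _ _ (by omega)
    have h2 : t.code < (Tm.mul s t).code := lt_pr₂ _ _ (by omega)
    constructor
    · rintro (⟨h, _⟩ | ⟨n, b, e', h, _⟩ | ⟨h, _⟩ | ⟨h, _⟩ | ⟨s', t', b, d, h, _⟩ |
        ⟨s', t', b, d, h, _, _, g1, g2, g3⟩)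
      · rw [hcode] at h
        exact absurd ((numA_iff hA).1 (prA_inj hA h).1) (by omega)
      · rw [hcode] at h
        exact absurd ((numA_iff hA).1 (prA_inj hA h).1) (by omega)
      · rw [hcode] at h
        exact absurd ((numA_iff hA).1 (prA_inj hA h).1) (by omega)
      · rw [hcode] at h
        exact absurd ((numA_iff hA).1 (prA_inj hA h).1) (by omega)
      · rw [hcode] at h
        exact absurd ((numA_iff hA).1 (prA_inj hA h).1) (by omega)
      · rw [hcode] at h
        obtain ⟨h3, h4⟩ := prA_inj hA (prA_inj hA h).2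
        subst h3 h4
        rw [hs b hk.1 (by omega)] at g1
        rw [ht d hk.2 (by omega)] at g2
        rw [g3, g1, g2]
        rfl
    · intro h
      refine Or.inr (Or.inr (Or.inr (Or.inr (Or.inr ⟨_, _, s.val A e, t.val A e, hcode, ?_, ?_,
        (hs _ hk.1 (by omega)).2 rfl, (ht _ hk.2 (by omega)).2 rfl, h⟩))))
      · exact (lt_numA hA _ _).2 ⟨_, h1, rfl⟩
      · exact (lt_numA hA _ _).2 ⟨_, h2, rfl⟩

theorem formula_agree {S X : Set A.M} {x : ℕ} (hS : Clauses A S X (numA A x))
    (E : ℕ → Set A.M) (hE : E 0 = X) :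
    ∀ (θ : Fm) (k : ℕ) (e : ℕ → A.M), θ.Arith → θ.Closed k 1 → θ.code < x →
      (fup A (numA A θ.code) (envOf A k e) ∈ S ↔ θ.Holds A e E)
  | .eq s t, k, e, _, hk, hx => by
    have hs := term_agree hA hS.1 s k e
    have ht := term_agree hA hS.1 t k e
    rw [hS.2 _ ((lt_numA hA _ _).2 ⟨_, hx, rfl⟩), RF]
    have hcode : numA A (Fm.eq s t).code =
        prA A (numA A 0) (prA A (numA A s.code) (numA A t.code)) := by
      rw [numA_pr (recEqs hA), numA_pr (recEqs hA)]; rfl
    have h1 : s.code ≤ (Fm.eq s t).code := (le_pr_left _ _).trans (le_pr_right _ _)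
    have h2 : t.code ≤ (Fm.eq s t).code := (le_pr_right _ _).trans (le_pr_right _ _)
    constructor
    · rintro (⟨s', t', a, h, g1, g2⟩ | ⟨s', t', a, b, h, _⟩ | ⟨t', a, h, _⟩ | ⟨p, q, h, _⟩ |
        ⟨p, h, _⟩)
      · rw [hcode] at h
        obtain ⟨h3, h4⟩ := prA_inj hA (prA_inj hA h).2
        subst h3 h4
        rw [hs a hk.1 (by omega)] at g1
        rw [ht a hk.2 (by omega)] at g2
        rw [Fm.Holds, ← g1, ← g2]
      all_goals
        rw [hcode] at h
        exact absurd ((numA_iff hA).1 (prA_inj hA h).1) (by omega)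
    · intro h
      rw [Fm.Holds] at h
      exact Or.inl ⟨_, _, s.val A e, hcode, (hs _ hk.1 (by omega)).2 rfl,
        (ht _ hk.2 (by omega)).2 h⟩
  | .lt s t, k, e, _, hk, hx => by
    have hs := term_agree hA hS.1 s k e
    have ht := term_agree hA hS.1 t k e
    rw [hS.2 _ ((lt_numA hA _ _).2 ⟨_, hx, rfl⟩), RF]
    have hcode : numA A (Fm.lt s t).code =
        prA A (numA A 1) (prA A (numA A s.code) (numA A t.code)) := by
      rw [numA_pr (recEqs hA), numA_pr (recEqs hA)]; rfl
    have h1 : s.code ≤ (Fm.lt s t).code := (le_pr_left _ _).trans (le_pr_right _ _)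
    have h2 : t.code ≤ (Fm.lt s t).code := (le_pr_right _ _).trans (le_pr_right _ _)
    constructor
    · rintro (⟨s', t', a, h, _⟩ | ⟨s', t', a, b, h, g1, g2, g3⟩ | ⟨t', a, h, _⟩ | ⟨p, q, h, _⟩ |
        ⟨p, h, _⟩)
      · rw [hcode] at h
        exact absurd ((numA_iff hA).1 (prA_inj hA h).1) (by omega)
      · rw [hcode] at h
        obtain ⟨h3, h4⟩ := prA_inj hA (prA_inj hA h).2
        subst h3 h4
        rw [hs a hk.1 (by omega)] at g1
        rw [ht b hk.2 (by omega)] at g2
        rw [Fm.Holds, ← g1, ← g2]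
        exact g3
      all_goals
        rw [hcode] at h
        exact absurd ((numA_iff hA).1 (prA_inj hA h).1) (by omega)
    · intro h
      exact Or.inr (Or.inl ⟨_, _, s.val A e, t.val A e, hcode, (hs _ hk.1 (by omega)).2 rfl,
        (ht _ hk.2 (by omega)).2 rfl, h⟩)
  | .mem t Y, k, e, _, hk, hx => by
    have ht := term_agree hA hS.1 t k e
    have hY : Y = 0 := by
      have := hk.2
      omega
    subst hY
    rw [hS.2 _ ((lt_numA hA _ _).2 ⟨_, hx, rfl⟩), RF]
    have hcode : numA A (Fm.mem t 0).code =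
        prA A (numA A 2) (prA A (numA A t.code) (numA A 0)) := by
      rw [numA_pr (recEqs hA), numA_pr (recEqs hA)]; rfl
    have h1 : t.code ≤ (Fm.mem t 0).code := (le_pr_left _ _).trans (le_pr_right _ _)
    constructor
    · rintro (⟨s', t', a, h, _⟩ | ⟨s', t', a, b, h, _⟩ | ⟨t', a, h, g1, g2⟩ | ⟨p, q, h, _⟩ |
        ⟨p, h, _⟩)
      · rw [hcode] at h
        exact absurd ((numA_iff hA).1 (prA_inj hA h).1) (by omega)
      · rw [hcode] at h
        exact absurd ((numA_iff hA).1 (prA_inj hA h).1) (by omega)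
      · rw [hcode] at h
        obtain ⟨h3, _⟩ := prA_inj hA (prA_inj hA h).2
        subst h3
        rw [ht a hk.1 (by omega)] at g1
        rw [Fm.Holds, hE, ← g1]
        exact g2
      all_goals
        rw [hcode] at h
        exact absurd ((numA_iff hA).1 (prA_inj hA h).1) (by omega)
    · intro h
      rw [Fm.Holds, hE] at h
      exact Or.inr (Or.inr (Or.inl ⟨_, t.val A e, hcode, (ht _ hk.1 (by omega)).2 rfl, h⟩))
  | .fal, k, e, _, hk, hx => by
    rw [hS.2 _ ((lt_numA hA _ _).2 ⟨_, hx, rfl⟩), RF]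
    have hcode : numA A (Fm.fal).code = prA A (numA A 3) (numA A 0) := by
      rw [numA_pr (recEqs hA)]; rfl
    constructor
    · rintro (⟨s', t', a, h, _⟩ | ⟨s', t', a, b, h, _⟩ | ⟨t', a, h, _⟩ | ⟨p, q, h, _⟩ |
        ⟨p, h, _⟩)
      all_goals
        rw [hcode] at h
        exact absurd ((numA_iff hA).1 (prA_inj hA h).1) (by omega)
    · exact fun h => h.elim
  | .imp φ ψ, k, e, ha, hk, hx => by
    have hφ := formula_agree hS E hE φ k e ha.1 hk.1
    have hψ := formula_agree hS E hE ψ k e ha.2 hk.2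
    rw [hS.2 _ ((lt_numA hA _ _).2 ⟨_, hx, rfl⟩), RF]
    have hcode : numA A (Fm.imp φ ψ).code =
        prA A (numA A 4) (prA A (numA A φ.code) (numA A ψ.code)) := by
      rw [numA_pr (recEqs hA), numA_pr (recEqs hA)]; rfl
    have h1 : φ.code < (Fm.imp φ ψ).code := lt_pr₁ _ _ (by omega)
    have h2 : ψ.code < (Fm.imp φ ψ).code := lt_pr₂ _ _ (by omega)
    constructor
    · rintro (⟨s', t', a, h, _⟩ | ⟨s', t', a, b, h, _⟩ | ⟨t', a, h, _⟩ | ⟨p, q, h, _, _, g⟩ |
        ⟨p, h, _⟩)
      · rw [hcode] at h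
        exact absurd ((numA_iff hA).1 (prA_inj hA h).1) (by omega)
      · rw [hcode] at h
        exact absurd ((numA_iff hA).1 (prA_inj hA h).1) (by omega)
      · rw [hcode] at h
        exact absurd ((numA_iff hA).1 (prA_inj hA h).1) (by omega)
      · rw [hcode] at h
        obtain ⟨h3, h4⟩ := prA_inj hA (prA_inj hA h).2
        subst h3 h4
        rw [hφ (by omega), hψ (by omega)] at g
        exact g
      · rw [hcode] at h
        exact absurd ((numA_iff hA).1 (prA_inj hA h).1) (by omega)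
    · intro h
      refine Or.inr (Or.inr (Or.inr (Or.inl ⟨_, _, hcode, ?_, ?_, ?_⟩)))
      · exact (lt_numA hA _ _).2 ⟨_, h1, rfl⟩
      · exact (lt_numA hA _ _).2 ⟨_, h2, rfl⟩
      · rw [hφ (by omega), hψ (by omega)]
        exact h
  | .allN φ, k, e, ha, hk, hx => by
    have hφ : ∀ b, φ.code < x → (fup A (numA A φ.code) (envOf A (k + 1) (cons b e)) ∈ S ↔
        φ.Holds A (cons b e) E) := fun b => formula_agree hS E hE φ (k + 1) (cons b e) ha hk
    rw [hS.2 _ ((lt_numA hA _ _).2 ⟨_, hx, rfl⟩), RF]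
    have hcode : numA A (Fm.allN φ).code = prA A (numA A 5) (numA A φ.code) := by
      rw [numA_pr (recEqs hA)]; rfl
    have h1 : φ.code < (Fm.allN φ).code := lt_pr_right _ (by omega)
    constructor
    · rintro (⟨s', t', a, h, _⟩ | ⟨s', t', a, b, h, _⟩ | ⟨t', a, h, _⟩ | ⟨p, q, h, _⟩ |
        ⟨p, h, _, g⟩)
      · rw [hcode] at h
        exact absurd ((numA_iff hA).1 (prA_inj hA h).1) (by omega)
      · rw [hcode] at h
        exact absurd ((numA_iff hA).1 (prA_inj hA h).1) (by omega)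
      · rw [hcode] at h
        exact absurd ((numA_iff hA).1 (prA_inj hA h).1) (by omega)
      · rw [hcode] at h
        exact absurd ((numA_iff hA).1 (prA_inj hA h).1) (by omega)
      · rw [hcode] at h
        have h3 := (prA_inj hA h).2
        subst h3
        intro b
        exact (hφ b (by omega)).1 (g b)
    · intro h
      refine Or.inr (Or.inr (Or.inr (Or.inr ⟨_, hcode, ?_, ?_⟩)))
      · exact (lt_numA hA _ _).2 ⟨_, h1, rfl⟩
      · intro b
        exact (hφ b (by omega)).2 (h b)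
  | .allS φ, _, _, ha, _, _ => ha.elim

end

/-- `ACA_0` has a `Π^1_1` truth predicate for `Π^1_1` sentences. -/
theorem exists_truth : ∃ tr : Fm, tr.Closed 1 0 ∧ (∃ θ : Fm, θ.Arith ∧ tr = θ.allS.allS) ∧
    ∀ φ, IsPi11Sentence φ → Proves {ψ | ACA0 ψ} ((inst tr φ.code).iff φ) := by
  obtain ⟨ψ, h1, h2, h3⟩ := udef_main
  refine ⟨ψ.allS.allS, h2, ⟨ψ, h1, rfl⟩, ?_⟩
  rintro φ ⟨hsent, θ, hθ, rfl⟩ A hA' e E hE
  have hA : ∀ φ, ACA0 φ → A.Models φ := fun φ hφ => hA' φ hφ
  have hr := recEqs hA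
  have hθc : θ.Closed 0 1 := hsent
  have hcode : numA A (Fm.allS θ).code = prA A (numA A 6) (numA A θ.code) := by
    rw [numA_pr hr]; rfl
  have hlt : θ.code < (Fm.allS θ).code := lt_pr_right _ (by omega)
  rw [holds_iff, holds_inst]
  constructor
  · intro h X hX
    obtain ⟨S, hS, hcl⟩ := exists_clauses hA X hX (Fm.allS θ).code
    have h4 := (h3 A (cons (numA A (Fm.allS θ).code) e) (cons S (cons X E))).1 (h X hX S hS)
    have h5 := h4 hcl (numA A θ.code) hcode
    exact (formula_agree hA hcl (cons X E) rfl θ 0 e hθ hθc hlt).1 h5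
  · intro h X hX S hS
    refine (h3 A (cons (numA A (Fm.allS θ).code) e) (cons S (cons X E))).2 ?_
    intro hcl c hc
    have hc' : numA A (Fm.allS θ).code = prA A (numA A 6) c := hc
    rw [hcode] at hc'
    have h6 := (prA_inj hA hc').2
    subst h6
    exact (formula_agree hA hcl (cons X E) rfl θ 0 e hθ hθc hlt).2 (h X hX)

end Pool.Agent.Lib.MP_3ad381_lc
end

section

/-!
# Recursively enumerable relations are arithmetical
-/

namespace Pool.Agent.Lib.MP_3ad381_lc

/-! ### Renaming number variables -/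

/-- Rename the variables of a term. -/
def Tm.ren (ρ : ℕ → ℕ) : Tm → Tm
  | .var n => .var (ρ n)
  | .zero => .zero
  | .one => .one
  | .add s t => .add (s.ren ρ) (t.ren ρ)
  | .mul s t => .mul (s.ren ρ) (t.ren ρ)

/-- A renaming under a number quantifier. -/
def liftR (ρ : ℕ → ℕ) : ℕ → ℕ
  | 0 => 0
  | n + 1 => ρ n + 1

/-- Rename the free number variables of a formula. -/
def Fm.ren : (ℕ → ℕ) → Fm → Fm
  | ρ, .eq s t => .eq (s.ren ρ) (t.ren ρ)
  | ρ, .lt s t => .lt (s.ren ρ) (t.ren ρ)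
  | ρ, .mem t X => .mem (t.ren ρ) X
  | _, .fal => .fal
  | ρ, .imp φ ψ => .imp (φ.ren ρ) (ψ.ren ρ)
  | ρ, .allN φ => .allN (φ.ren (liftR ρ))
  | ρ, .allS φ => .allS (φ.ren ρ)

theorem val_ren {A : Str} (ρ : ℕ → ℕ) (e : ℕ → A.M) :
    ∀ t : Tm, (t.ren ρ).val A e = t.val A (fun i => e (ρ i))
  | .var n => rfl
  | .zero => rfl
  | .one => rfl
  | .add s t => by simp only [Tm.ren, Tm.val, val_ren ρ e s, val_ren ρ e t]
  | .mul s t => by simp only [Tm.ren, Tm.val, val_ren ρ e s, val_ren ρ e t]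

theorem cons_liftR {α : Type} (x : α) (e : ℕ → α) (ρ : ℕ → ℕ) :
    (fun i => cons x e (liftR ρ i)) = cons x (fun i => e (ρ i)) := by
  funext i
  cases i <;> rfl

theorem holds_ren {A : Str} : ∀ (φ : Fm) (ρ : ℕ → ℕ) (e : ℕ → A.M) (E : ℕ → Set A.M),
    (φ.ren ρ).Holds A e E ↔ φ.Holds A (fun i => e (ρ i)) E
  | .eq s t, ρ, e, E => by simp only [Fm.ren, Fm.Holds, val_ren]
  | .lt s t, ρ, e, E => by simp only [Fm.ren, Fm.Holds, val_ren]
  | .mem t X, ρ, e, E => by simp only [Fm.ren, Fm.Holds, val_ren]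
  | .fal, _, _, _ => Iff.rfl
  | .imp φ ψ, ρ, e, E => by simp only [Fm.ren, Fm.Holds, holds_ren φ, holds_ren ψ]
  | .allN φ, ρ, e, E => by
    simp only [Fm.ren, Fm.Holds, holds_ren φ, cons_liftR]
  | .allS φ, ρ, e, E => by
    simp only [Fm.ren, Fm.Holds, holds_ren φ]

theorem ren_arith : ∀ (φ : Fm) (ρ : ℕ → ℕ), φ.Arith → (φ.ren ρ).Arith
  | .eq _ _, _, _ => trivial
  | .lt _ _, _, _ => trivial
  | .mem _ _, _, _ => trivial
  | .fal, _, _ => trivial
  | .imp φ ψ, ρ, h => ⟨ren_arith φ ρ h.1, ren_arith ψ ρ h.2⟩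
  | .allN φ, _, h => ren_arith φ _ h
  | .allS _, _, h => h.elim

theorem Tm.ren_closed {k m : ℕ} {ρ : ℕ → ℕ} (hρ : ∀ i < k, ρ i < m) :
    ∀ t : Tm, t.Closed k → (t.ren ρ).Closed m
  | .var n, h => hρ n h
  | .zero, _ => trivial
  | .one, _ => trivial
  | .add s t, h => ⟨Tm.ren_closed hρ s h.1, Tm.ren_closed hρ t h.2⟩
  | .mul s t, h => ⟨Tm.ren_closed hρ s h.1, Tm.ren_closed hρ t h.2⟩

theorem liftR_lt {k m : ℕ} {ρ : ℕ → ℕ} (hρ : ∀ i < k, ρ i < m) : ∀ i < k + 1, liftR ρ i < m + 1 := by
  intro i hi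
  cases i with
  | zero => simp [liftR]
  | succ i => exact Nat.succ_lt_succ (hρ i (by omega))

theorem Fm.ren_closed : ∀ (φ : Fm) {k l m : ℕ} {ρ : ℕ → ℕ}, (∀ i < k, ρ i < m) →
    φ.Closed k l → (φ.ren ρ).Closed m l
  | .eq s t, _, _, _, _, hρ, h => ⟨Tm.ren_closed hρ s h.1, Tm.ren_closed hρ t h.2⟩
  | .lt s t, _, _, _, _, hρ, h => ⟨Tm.ren_closed hρ s h.1, Tm.ren_closed hρ t h.2⟩
  | .mem t _, _, _, _, _, hρ, h => ⟨Tm.ren_closed hρ t h.1, h.2⟩
  | .fal, _, _, _, _, _, _ => trivial
  | .imp φ ψ, _, _, _, _, hρ, h => ⟨Fm.ren_closed φ hρ h.1, Fm.ren_closed ψ hρ h.2⟩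
  | .allN φ, _, _, _, _, hρ, h => Fm.ren_closed φ (liftR_lt hρ) h
  | .allS φ, _, _, _, _, hρ, h => Fm.ren_closed φ hρ h

/-! ### Arithmetically definable predicates -/

/-- `P` is defined in the standard model by an arithmetical formula with number variables of index
`< k`. -/
def ADef (k : ℕ) (P : (ℕ → ℕ) → Prop) : Prop :=
  ∃ φ : Fm, φ.Arith ∧ φ.Closed k 0 ∧
    ∀ (e : ℕ → ℕ) (E : ℕ → Set ℕ), φ.Holds stdModel e E ↔ P e

/-- `F` is given by a term with variables of index `< k`. -/
def TDef (k : ℕ) (F : (ℕ → ℕ) → ℕ) : Prop :=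
  ∃ t : Tm, t.Closed k ∧ ∀ e : ℕ → ℕ, t.val stdModel e = F e

theorem TDef.var {k : ℕ} (i : ℕ) (hi : i < k) : TDef k (fun e => e i) :=
  ⟨.var i, hi, fun _ => rfl⟩

theorem TDef.zero {k : ℕ} : TDef k (fun _ => 0) := ⟨.zero, trivial, fun _ => rfl⟩

theorem TDef.one {k : ℕ} : TDef k (fun _ => 1) := ⟨.one, trivial, fun _ => rfl⟩

theorem TDef.add {k : ℕ} {F G : (ℕ → ℕ) → ℕ} (hF : TDef k F) (hG : TDef k G) :
    TDef k (fun e => F e + G e) := by
  obtain ⟨s, hs, hs'⟩ := hF
  obtain ⟨t, ht, ht'⟩ := hG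
  exact ⟨.add s t, ⟨hs, ht⟩, fun e => by simp only [Tm.val, hs', ht']; rfl⟩

theorem TDef.mul {k : ℕ} {F G : (ℕ → ℕ) → ℕ} (hF : TDef k F) (hG : TDef k G) :
    TDef k (fun e => F e * G e) := by
  obtain ⟨s, hs, hs'⟩ := hF
  obtain ⟨t, ht, ht'⟩ := hG
  exact ⟨.mul s t, ⟨hs, ht⟩, fun e => by simp only [Tm.val, hs', ht']; rfl⟩

theorem ADef.congr {k : ℕ} {P Q : (ℕ → ℕ) → Prop} (h : ADef k P) (hPQ : ∀ e, Q e ↔ P e) :
    ADef k Q := by
  obtain ⟨φ, h1, h2, h3⟩ := h
  exact ⟨φ, h1, h2, fun e E => (h3 e E).trans (hPQ e).symm⟩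

theorem ADef.eq {k : ℕ} {F G : (ℕ → ℕ) → ℕ} (hF : TDef k F) (hG : TDef k G) :
    ADef k (fun e => F e = G e) := by
  obtain ⟨s, hs, hs'⟩ := hF
  obtain ⟨t, ht, ht'⟩ := hG
  refine ⟨.eq s t, trivial, ⟨hs, ht⟩, fun e E => ?_⟩
  simp only [Fm.Holds]
  rw [hs' e, ht' e]
  exact Iff.rfl

theorem ADef.lt {k : ℕ} {F G : (ℕ → ℕ) → ℕ} (hF : TDef k F) (hG : TDef k G) :
    ADef k (fun e => F e < G e) := by
  obtain ⟨s, hs, hs'⟩ := hF
  obtain ⟨t, ht, ht'⟩ := hG
  refine ⟨.lt s t, trivial, ⟨hs, ht⟩, fun e E => ?_⟩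
  simp only [Fm.Holds]
  rw [hs' e, ht' e]
  rfl

theorem ADef.imp {k : ℕ} {P Q : (ℕ → ℕ) → Prop} (hP : ADef k P) (hQ : ADef k Q) :
    ADef k (fun e => P e → Q e) := by
  obtain ⟨φ, h1, h2, h3⟩ := hP
  obtain ⟨ψ, g1, g2, g3⟩ := hQ
  exact ⟨.imp φ ψ, ⟨h1, g1⟩, ⟨h2, g2⟩, fun e E => by simp only [Fm.Holds, h3, g3]⟩

theorem ADef.fal {k : ℕ} : ADef k (fun _ => False) :=
  ⟨.fal, trivial, trivial, fun _ _ => Iff.rfl⟩

theorem ADef.not {k : ℕ} {P : (ℕ → ℕ) → Prop} (hP : ADef k P) : ADef k (fun e => ¬ P e) :=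
  (hP.imp ADef.fal).congr fun _ => Iff.rfl

theorem ADef.and {k : ℕ} {P Q : (ℕ → ℕ) → Prop} (hP : ADef k P) (hQ : ADef k Q) :
    ADef k (fun e => P e ∧ Q e) :=
  (hP.imp hQ.not).not.congr fun e => by tauto

theorem ADef.or {k : ℕ} {P Q : (ℕ → ℕ) → Prop} (hP : ADef k P) (hQ : ADef k Q) :
    ADef k (fun e => P e ∨ Q e) :=
  (hP.not.imp hQ).congr fun e => by tauto

theorem ADef.all {k : ℕ} {P : (ℕ → ℕ) → ℕ → Prop}
    (hP : ADef (k + 1) (fun e => P (fun i => e (i + 1)) (e 0))) :
    ADef k (fun e => ∀ x, P e x) := by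
  obtain ⟨φ, h1, h2, h3⟩ := hP
  refine ⟨.allN φ, h1, h2, fun e E => ?_⟩
  simp only [Fm.Holds]
  exact forall_congr' fun x => h3 (cons x e) E

theorem ADef.ex {k : ℕ} {P : (ℕ → ℕ) → ℕ → Prop}
    (hP : ADef (k + 1) (fun e => P (fun i => e (i + 1)) (e 0))) :
    ADef k (fun e => ∃ x, P e x) := by
  have h : ADef k (fun e => ¬ ∀ x, ¬ P e x) :=
    (ADef.all (P := fun e x => ¬ P e x) hP.not).not
  exact h.congr fun e => by push Not; rfl

theorem ADef.ren {k m : ℕ} {P : (ℕ → ℕ) → Prop} (hP : ADef k P) (ρ : ℕ → ℕ)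
    (hρ : ∀ i < k, ρ i < m) : ADef m (fun e => P (fun i => e (ρ i))) := by
  obtain ⟨φ, h1, h2, h3⟩ := hP
  exact ⟨φ.ren ρ, ren_arith φ ρ h1, Fm.ren_closed φ hρ h2, fun e E =>
    (holds_ren (A := stdModel) φ ρ e E).trans (h3 _ E)⟩

/-- A binary relation as a predicate of the variables 0 and 1. -/
theorem ADef.app₂ {r : ℕ → ℕ → Prop} (h : ADef 2 (fun e => r (e 0) (e 1))) {k : ℕ} (i j : ℕ)
    (hi : i < k) (hj : j < k) : ADef k (fun e => r (e i) (e j)) := by
  have := h.ren (m := k) (fun n => if n = 0 then i else j) (by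
    intro n _
    split_ifs <;> assumption)
  exact this

/-- A ternary relation as a predicate of the variables 0, 1 and 2. -/
theorem ADef.app₃ {r : ℕ → ℕ → ℕ → Prop} (h : ADef 3 (fun e => r (e 0) (e 1) (e 2))) {k : ℕ}
    (i j l : ℕ) (hi : i < k) (hj : j < k) (hl : l < k) :
    ADef k (fun e => r (e i) (e j) (e l)) := by
  have := h.ren (m := k) (fun n => if n = 0 then i else if n = 1 then j else l) (by
    intro n _
    split_ifs <;> assumption)
  exact this

theorem adef_pair : ADef 3 (fun e => e 2 = Nat.pair (e 0) (e 1)) := by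
  have h : ADef 3 (fun e => (e 0 < e 1 ∧ e 2 = e 1 * e 1 + e 0) ∨
      (¬ e 0 < e 1 ∧ e 2 = e 0 * e 0 + e 0 + e 1)) := by
    refine ADef.or (ADef.and (ADef.lt (.var 0 (by omega)) (.var 1 (by omega)))
      (ADef.eq (.var 2 (by omega)) (.add (.mul (.var 1 (by omega)) (.var 1 (by omega)))
        (.var 0 (by omega)))))
      (ADef.and (ADef.not (ADef.lt (.var 0 (by omega)) (.var 1 (by omega))))
      (ADef.eq (.var 2 (by omega)) (.add (.add (.mul (.var 0 (by omega)) (.var 0 (by omega)))
        (.var 0 (by omega))) (.var 1 (by omega)))))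
  refine h.congr fun e => ?_
  rw [Nat.pair]
  split_ifs with h1 <;> simp [h1]

theorem adef_pair' {k : ℕ} (i j l : ℕ) (hi : i < k) (hj : j < k) (hl : l < k) :
    ADef k (fun e => e l = Nat.pair (e i) (e j)) :=
  ADef.app₃ (r := fun a b c => c = Nat.pair a b) adef_pair i j l hi hj hl

theorem beta_iff (n i r : ℕ) : r = Nat.beta n i ↔
    ∃ a b q, n = Nat.pair a b ∧ a = q * ((i + 1) * b + 1) + r ∧ r < (i + 1) * b + 1 := by
  constructor
  · rintro rfl
    refine ⟨n.unpair.1, n.unpair.2, n.unpair.1 / ((i + 1) * n.unpair.2 + 1),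
      (Nat.pair_unpair n).symm, ?_, Nat.mod_lt _ (Nat.succ_pos _)⟩
    rw [Nat.beta, mul_comm]
    exact (Nat.div_add_mod _ _).symm
  · rintro ⟨a, b, q, rfl, ha, hr⟩
    rw [Nat.beta, Nat.unpair_pair]
    dsimp only
    rw [ha, mul_comm, Nat.mul_add_mod, Nat.mod_eq_of_lt hr]

theorem adef_beta : ADef 3 (fun e => e 2 = Nat.beta (e 0) (e 1)) := by
  have h : ADef 3 (fun e => ∃ a b q, e 0 = Nat.pair a b ∧
      a = q * ((e 1 + 1) * b + 1) + e 2 ∧ e 2 < (e 1 + 1) * b + 1) := by
    refine ADef.ex (ADef.ex (ADef.ex (ADef.and ?_ (ADef.and ?_ ?_))))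
    · exact adef_pair' 2 1 3 (by omega) (by omega) (by omega)
    · exact ADef.eq (.var 2 (by omega)) (.add (.mul (.var 0 (by omega)) (.add (.mul (.add
        (.var 4 (by omega)) .one) (.var 1 (by omega))) .one)) (.var 5 (by omega)))
    · exact ADef.lt (.var 5 (by omega)) (.add (.mul (.add
        (.var 4 (by omega)) .one) (.var 1 (by omega))) .one)
  exact h.congr fun e => beta_iff _ _ _

theorem adef_beta' {k : ℕ} (i j l : ℕ) (hi : i < k) (hj : j < k) (hl : l < k) :
    ADef k (fun e => e l = Nat.beta (e i) (e j)) :=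
  ADef.app₃ (r := fun a b c => c = Nat.beta a b) adef_beta i j l hi hj hl

/-- Graph of a partial function. -/
def GDef (f : ℕ →. ℕ) : Prop := ADef 2 (fun e => e 1 ∈ f (e 0))

theorem GDef.app {f : ℕ →. ℕ} (h : GDef f) {k : ℕ} (i j : ℕ) (hi : i < k) (hj : j < k) :
    ADef k (fun e => e j ∈ f (e i)) :=
  ADef.app₂ (r := fun a b => b ∈ f a) h i j hi hj

theorem mem_prec (f g : ℕ →. ℕ) (a n v : ℕ) :
    v ∈ (n.rec (f a) fun y IH => IH.bind fun i => g (Nat.pair a (Nat.pair y i)) : Part ℕ) ↔
      ∃ c, Nat.beta c 0 ∈ f a ∧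
        (∀ y < n, Nat.beta c (y + 1) ∈ g (Nat.pair a (Nat.pair y (Nat.beta c y)))) ∧
        v = Nat.beta c n := by
  constructor
  · intro hv
    have key : ∀ n v, v ∈ (n.rec (f a) fun y IH => IH.bind fun i => g (Nat.pair a (Nat.pair y i)) :
        Part ℕ) → ∃ l : ℕ → ℕ, l 0 ∈ f a ∧
          (∀ y < n, l (y + 1) ∈ g (Nat.pair a (Nat.pair y (l y)))) ∧ v = l n := by
      intro n
      induction n with
      | zero =>
        intro v hv
        exact ⟨fun _ => v, hv, fun y hy => absurd hy (by omega), rfl⟩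
      | succ n ih =>
        intro v hv
        obtain ⟨u, hu, hv⟩ := Part.mem_bind_iff.1 hv
        obtain ⟨l, h0, h1, rfl⟩ := ih u hu
        refine ⟨fun i => if i = n + 1 then v else l i, by simpa using h0, ?_, by simp⟩
        intro y hy
        rcases Nat.lt_succ_iff_lt_or_eq.1 hy with h | rfl
        · simp only [Nat.add_right_cancel_iff]
          rw [if_neg (by omega), if_neg (by omega)]
          exact h1 y h
        · simp only [if_true]
          rw [if_neg (by omega)]
          exact hv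
    obtain ⟨l, h0, h1, h2⟩ := key n v hv
    let L : List ℕ := List.ofFn (fun i : Fin (n + 1) => l i)
    have hL : ∀ i, i ≤ n → Nat.beta (Nat.unbeta L) i = l i := by
      intro i hi
      have hlen : i < L.length := by simp [L]; omega
      have := Nat.beta_unbeta_coe L ⟨i, hlen⟩
      rw [this]
      simp only [L, Fin.getElem_fin, List.getElem_ofFn]
    refine ⟨Nat.unbeta L, ?_, ?_, ?_⟩
    · rw [hL 0 (by omega)]
      exact h0
    · intro y hy
      rw [hL (y + 1) (by omega), hL y (by omega)]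
      exact h1 y hy
    · rw [hL n le_rfl]
      exact h2
  · rintro ⟨c, h0, h1, rfl⟩
    have key : ∀ m ≤ n, Nat.beta c m ∈ (m.rec (f a) fun y IH => IH.bind fun i =>
        g (Nat.pair a (Nat.pair y i)) : Part ℕ) := by
      intro m
      induction m with
      | zero => intro _; exact h0
      | succ m ih =>
        intro hm
        exact Part.mem_bind_iff.2 ⟨_, ih (by omega), h1 m (by omega)⟩
    exact key n le_rfl

theorem gdef_prec {f g : ℕ →. ℕ} (hf : GDef f) (hg : GDef g) :
    GDef (Nat.unpaired fun a n =>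
      n.rec (f a) fun y IH => do let i ← IH; g (Nat.pair a (Nat.pair y i))) := by
  have h : ADef 2 (fun e => ∃ a n c, e 0 = Nat.pair a n ∧
      (∃ z u, z = 0 ∧ u = Nat.beta c z ∧ u ∈ f a) ∧
      (∀ y, y < n → ∃ y' s t p q, y' = y + 1 ∧ s = Nat.beta c y' ∧ t = Nat.beta c y ∧
        p = Nat.pair y t ∧ q = Nat.pair a p ∧ s ∈ g q) ∧
      e 1 = Nat.beta c n) := by
    refine ADef.ex (ADef.ex (ADef.ex (ADef.and ?_ (ADef.and ?_ (ADef.and ?_ ?_)))))
    · exact adef_pair' 2 1 3 (by omega) (by omega) (by omega)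
    · refine ADef.ex (ADef.ex (ADef.and ?_ (ADef.and ?_ ?_)))
      · exact ADef.eq (.var 1 (by omega)) .zero
      · exact adef_beta' 2 1 0 (by omega) (by omega) (by omega)
      · exact hf.app 4 0 (by omega) (by omega)
    · refine ADef.all (ADef.imp ?_ ?_)
      · exact ADef.lt (.var 0 (by omega)) (.var 2 (by omega))
      · refine ADef.ex (ADef.ex (ADef.ex (ADef.ex (ADef.ex (ADef.and ?_ (ADef.and ?_
          (ADef.and ?_ (ADef.and ?_ (ADef.and ?_ ?_)))))))))
        · exact ADef.eq (.var 4 (by omega)) (.add (.var 5 (by omega)) .one)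
        · exact adef_beta' 6 4 3 (by omega) (by omega) (by omega)
        · exact adef_beta' 6 5 2 (by omega) (by omega) (by omega)
        · exact adef_pair' 5 2 1 (by omega) (by omega) (by omega)
        · exact adef_pair' 8 1 0 (by omega) (by omega) (by omega)
        · exact hg.app 0 3 (by omega) (by omega)
    · exact adef_beta' 0 1 4 (by omega) (by omega) (by omega)
  refine h.congr fun e => ?_
  have h1 := mem_prec f g (e 0).unpair.1 (e 0).unpair.2 (e 1)
  refine Iff.trans h1 ?_
  constructor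
  · rintro ⟨c, h2, h3, h4⟩
    exact ⟨_, _, c, (Nat.pair_unpair _).symm, ⟨0, _, rfl, rfl, h2⟩,
      fun y hy => ⟨_, _, _, _, _, rfl, rfl, rfl, rfl, rfl, h3 y hy⟩, h4⟩
  · rintro ⟨a, n, c, ha, ⟨z, u, rfl, rfl, h2⟩, h3, h4⟩
    rw [ha, Nat.unpair_pair]
    refine ⟨c, h2, ?_, h4⟩
    intro y hy
    obtain ⟨y', s, t, p, q, rfl, rfl, rfl, rfl, rfl, h5⟩ := h3 y hy
    exact h5

theorem gdef_rfind {f : ℕ →. ℕ} (hf : GDef f) :
    GDef (fun a => Nat.rfind fun n => (fun m => decide (m = 0)) <$> f (Nat.pair a n)) := by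
  have h : ADef 2 (fun e => (∃ p z, p = Nat.pair (e 0) (e 1) ∧ z = 0 ∧ z ∈ f p) ∧
      ∀ m, m < e 1 → ∃ p v, p = Nat.pair (e 0) m ∧ ¬ v = 0 ∧ v ∈ f p) := by
    refine ADef.and (ADef.ex (ADef.ex (ADef.and ?_ (ADef.and ?_ ?_))))
      (ADef.all (ADef.imp ?_ (ADef.ex (ADef.ex (ADef.and ?_ (ADef.and ?_ ?_))))))
    · exact adef_pair' 2 3 1 (by omega) (by omega) (by omega)
    · exact ADef.eq (.var 0 (by omega)) .zero
    · exact hf.app 1 0 (by omega) (by omega)
    · exact ADef.lt (.var 0 (by omega)) (.var 2 (by omega))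
    · exact adef_pair' 3 2 1 (by omega) (by omega) (by omega)
    · exact ADef.not (ADef.eq (.var 0 (by omega)) .zero)
    · exact hf.app 1 0 (by omega) (by omega)
  refine h.congr fun e => ?_
  refine Iff.trans Nat.mem_rfind ?_
  simp only [Part.map_eq_map, Part.mem_map_iff, decide_eq_true_eq, decide_eq_false_iff_not]
  constructor
  · rintro ⟨⟨a, ha, ha0⟩, h2⟩
    subst ha0
    refine ⟨⟨_, _, rfl, rfl, ha⟩, fun m hm => ?_⟩
    obtain ⟨v, hv, hv0⟩ := h2 hm
    exact ⟨_, v, rfl, hv0, hv⟩
  · rintro ⟨⟨p, z, rfl, rfl, h2⟩, h3⟩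
    refine ⟨⟨0, h2, rfl⟩, fun {m} hm => ?_⟩
    obtain ⟨p, v, rfl, hv0, hv⟩ := h3 m hm
    exact ⟨v, hv, hv0⟩

theorem gdef_of_partrec {f : ℕ →. ℕ} (h : Nat.Partrec f) : GDef f := by
  induction h with
  | zero =>
    refine (ADef.eq (.var 1 (by omega)) .zero : ADef 2 (fun e => e 1 = 0)).congr fun e => ?_
    exact Part.mem_some_iff
  | succ =>
    refine (ADef.eq (.var 1 (by omega)) (.add (.var 0 (by omega)) .one) :
      ADef 2 (fun e => e 1 = e 0 + 1)).congr fun e => ?_
    exact Part.mem_some_iff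
  | left =>
    refine (ADef.ex (adef_pair' 2 0 1 (by omega) (by omega) (by omega)) :
      ADef 2 (fun e => ∃ b, e 0 = Nat.pair (e 1) b)).congr fun e => ?_
    refine Iff.trans Part.mem_some_iff ?_
    constructor
    · intro h
      exact ⟨(e 0).unpair.2, by rw [h, Nat.pair_unpair]⟩
    · rintro ⟨b, hb⟩
      rw [hb]
      simp only [Nat.unpair_pair]
  | right =>
    refine (ADef.ex (adef_pair' 0 2 1 (by omega) (by omega) (by omega)) :
      ADef 2 (fun e => ∃ b, e 0 = Nat.pair b (e 1))).congr fun e => ?_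
    refine Iff.trans Part.mem_some_iff ?_
    constructor
    · intro h
      exact ⟨(e 0).unpair.1, by rw [h, Nat.pair_unpair]⟩
    · rintro ⟨b, hb⟩
      rw [hb]
      simp only [Nat.unpair_pair]
  | @pair f g _ _ hf hg =>
    have h : ADef 2 (fun e => ∃ u v, u ∈ f (e 0) ∧ v ∈ g (e 0) ∧ e 1 = Nat.pair u v) := by
      refine ADef.ex (ADef.ex (ADef.and ?_ (ADef.and ?_ ?_)))
      · exact hf.app 2 1 (by omega) (by omega)
      · exact hg.app 2 0 (by omega) (by omega)
      · exact adef_pair' 1 0 3 (by omega) (by omega) (by omega)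
    refine h.congr fun e => ?_
    simp only [Seq.seq, Part.map_eq_map, Part.mem_bind_iff, Part.mem_map_iff]
    constructor
    · rintro ⟨F, ⟨u, hu, rfl⟩, v, hv, h⟩
      exact ⟨u, v, hu, hv, h.symm⟩
    · rintro ⟨u, v, hu, hv, h⟩
      exact ⟨_, ⟨u, hu, rfl⟩, v, hv, h.symm⟩
  | @comp f g _ _ hf hg =>
    have h : ADef 2 (fun e => ∃ z, z ∈ g (e 0) ∧ e 1 ∈ f z) := by
      refine ADef.ex (ADef.and ?_ ?_)
      · exact hg.app 1 0 (by omega) (by omega)
      · exact hf.app 0 2 (by omega) (by omega)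
    refine h.congr fun e => ?_
    exact Part.mem_bind_iff
  | prec _ _ hf hg => exact gdef_prec hf hg
  | rfind _ hf => exact gdef_rfind hf

/-- Every recursively enumerable relation is arithmetical. -/
theorem re_arith (R : ℕ → ℕ → Prop) (hR : REPred (fun x : ℕ × ℕ => R x.1 x.2)) :
    ∃ φ : Fm, φ.Arith ∧ φ.Closed 2 0 ∧ ∀ m n, TrueAt₂ φ m n ↔ R m n := by
  have h1 : ∃ F : ℕ →. ℕ, Nat.Partrec F ∧ ∀ m n, R m n ↔ ∃ v, v ∈ F (Nat.pair m n) := by
    refine ⟨_, hR, fun m n => ?_⟩
    simp only [Encodable.decode_prod_val, Nat.unpair_pair, Encodable.decode_nat, Option.bind_some,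
      Option.map_some, Part.coe_some, Part.bind_some, Part.mem_map_iff, Part.mem_assert_iff]
    constructor
    · intro h
      exact ⟨_, (), ⟨h, Part.mem_some _⟩, rfl⟩
    · rintro ⟨_, _, ⟨h, _⟩, _⟩
      exact h
  obtain ⟨F, hF, hR'⟩ := h1
  have h3 : ADef 2 (fun e => ∃ z v, z = Nat.pair (e 0) (e 1) ∧ v ∈ F z) := by
    refine ADef.ex (ADef.ex (ADef.and ?_ ?_))
    · exact adef_pair' 2 3 1 (by omega) (by omega) (by omega)
    · exact GDef.app (gdef_of_partrec hF) 1 0 (by omega) (by omega)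
  obtain ⟨φ, a1, a2, a3⟩ := h3
  refine ⟨φ, a1, a2, fun m n => ?_⟩
  rw [TrueAt₂, hR']
  refine (a3 _ _).trans ?_
  simp only [cons]
  constructor
  · rintro ⟨z, v, rfl, hv⟩
    exact ⟨v, hv⟩
  · rintro ⟨v, hv⟩
    exact ⟨_, v, rfl, hv⟩

end Pool.Agent.Lib.MP_3ad381_lc
end
end
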