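import Mathlib
import Pool.Agent.Lib.MP_3eaa21_lc.Tools
import Pool.Agent.Lib.MP_3eaa21_lc.RE
import Pool.Agent.Lib.MP_3eaa21_lc.Upper
import Pool.Agent.Lib.MP_3ad381_lc.Main
import Pool.Agent.Lib.MP_3ad381_lc.Arith

section

/-!
# Unsatisfiability of a computable family of propositional clauses is recursively enumerable
-/

namespace Pool.Agent.Lib.MP_3ad381_lc

open Pool.Agent.Lib.MP_3eaa21_lc

/-- the infinite valuation `v` extends the finite partial assignment `p` -/
def MatchV (v : ℕ → Bool) (p : List (ℕ × Bool)) : Prop := ∀ q ∈ p, v q.1 = q.2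

/-- the finite valuation `τ` extends the finite partial assignment `p` -/
def MatchL (τ : List Bool) (p : List (ℕ × Bool)) : Prop := ∀ q ∈ p, τ[q.1]? = some q.2

section

variable {ι : Type} (all : List ι) (g : ι → ℕ → List (ℕ × Bool)) (pos : ℕ → ℕ)

/-- every valuation of the first `K` variables is refuted visibly -/
def Chk (K : ℕ) (l : List ℕ) (x : ℕ) : Prop :=
  ∀ τ ∈ exts [] K, (∃ c ∈ all, ∃ m < K, MatchL τ (g c m)) ∨
    (∃ y ∈ l, τ[pos y]? = some false) ∨ τ[pos x]? = some true

variable {all g pos}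

theorem p_ex_fixed {α : Type*} [Primcodable α] (p : ι → α → Prop) :
    ∀ l : List ι, (∀ c ∈ l, ComputablePred (p c)) → ComputablePred fun a => ∃ c ∈ l, p c a
  | [], _ => (p_const False).of_eq fun a => by simp
  | c :: l, h => by
    have h1 := p_or (h c (by simp)) (p_ex_fixed p l (fun d hd => h d (by simp [hd])))
    exact h1.of_eq fun a => by simp

theorem p_matchL {α : Type*} [Primcodable α] {f : α → List Bool} {h : α → List (ℕ × Bool)}
    (hf : Computable f) (hh : Computable h) : ComputablePred fun a => MatchL (f a) (h a) := by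
  refine p_all (p := fun a q => (f a)[q.1]? = some q.2) hh ?_
  refine p_eq (c_get? (hf.comp Computable.fst) (Computable.fst.comp Computable.snd)) ?_
  exact Computable.option_some.comp (Computable.snd.comp Computable.snd)

theorem p_chk (hg : ∀ c ∈ all, Computable (g c)) (hpos : Computable pos) :
    ComputablePred fun y : (List ℕ × ℕ) × ℕ => Chk all g pos y.2 y.1.1 y.1.2 := by
  refine p_all (f := fun y : (List ℕ × ℕ) × ℕ => exts [] y.2)
    (p := fun y τ => (∃ c ∈ all, ∃ m < y.2, MatchL τ (g c m)) ∨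
      (∃ z ∈ y.1.1, τ[pos z]? = some false) ∨ τ[pos y.1.2]? = some true) ?_ ?_
  · exact comp_exts.comp (Computable.const []) Computable.snd
  · refine p_or ?_ (p_or ?_ ?_)
    · refine p_ex_fixed (fun c (z : ((List ℕ × ℕ) × ℕ) × List Bool) =>
        ∃ m < z.1.2, MatchL z.2 (g c m)) all fun c hc => ?_
      refine p_ex_lt (f := fun z : ((List ℕ × ℕ) × ℕ) × List Bool => z.1.2)
        (p := fun z m => MatchL z.2 (g c m)) (Computable.snd.comp Computable.fst) ?_
      exact p_matchL (Computable.snd.comp Computable.fst) ((hg c hc).comp Computable.snd)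
    · refine p_ex (f := fun z : ((List ℕ × ℕ) × ℕ) × List Bool => z.1.1.1)
        (p := fun z w => z.2[pos w]? = some false)
        (Computable.fst.comp (Computable.fst.comp Computable.fst)) ?_
      exact p_eq (c_get? (Computable.snd.comp Computable.fst) (hpos.comp Computable.snd))
        (Computable.const (some false))
    · exact p_eq (c_get? Computable.snd (hpos.comp
        (Computable.snd.comp (Computable.fst.comp Computable.fst)))) (Computable.const (some true))

theorem isClosed_not_match (p : List (ℕ × Bool)) : IsClosed {v : ℕ → Bool | ¬ MatchV v p} := by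
  rw [← isOpen_compl_iff]
  have : {v : ℕ → Bool | ¬ MatchV v p}ᶜ = ⋂ q ∈ p.toFinset, {v : ℕ → Bool | v q.1 = q.2} := by
    ext v
    simp [MatchV]
  rw [this]
  refine isOpen_biInter_finset fun q _ => ?_
  exact (isOpen_discrete ({q.2} : Set Bool)).preimage
    (continuous_apply q.1 : Continuous fun v : ℕ → Bool => v q.1)

/-- Compactness of propositional logic. -/
theorem prop_compact (I : Set (List (ℕ × Bool)))
    (h : ¬ ∃ v : ℕ → Bool, ∀ p ∈ I, ¬ MatchV v p) :
    ∃ u : Finset (List (ℕ × Bool)), (∀ p ∈ u, p ∈ I) ∧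
      ¬ ∃ v : ℕ → Bool, ∀ p ∈ u, ¬ MatchV v p := by
  classical
  obtain ⟨u, hu⟩ := isCompact_univ.elim_finite_subfamily_closed
    (fun p : I => {v : ℕ → Bool | ¬ MatchV v p.1}) (fun p => isClosed_not_match p.1) (by
      rw [Set.eq_empty_iff_forall_notMem]
      rintro v ⟨_, hv⟩
      rw [Set.mem_iInter] at hv
      exact h ⟨v, fun p hp => hv ⟨p, hp⟩⟩)
  refine ⟨u.image Subtype.val, ?_, ?_⟩
  · intro p hp
    obtain ⟨q, _, rfl⟩ := Finset.mem_image.1 hp
    exact q.2
  · rintro ⟨v, hv⟩
    rw [Set.eq_empty_iff_forall_notMem] at hu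
    refine hu v ⟨trivial, ?_⟩
    rw [Set.mem_iInter₂]
    intro p hp
    exact hv p.1 (Finset.mem_image_of_mem _ hp)

/-- Unsatisfiability of a computable family of clauses is recursively enumerable. -/
theorem re_unsat (hg : ∀ c ∈ all, Computable (g c)) (hpos : Computable pos) :
    ∃ R : List ℕ → ℕ → Prop, REPred (fun x : List ℕ × ℕ => R x.1 x.2) ∧
      ∀ (T : Set ℕ) (x : ℕ), (¬ ∃ v : ℕ → Bool, (∀ c ∈ all, ∀ m, ¬ MatchV v (g c m)) ∧
          (∀ y ∈ T, v (pos y) = true) ∧ v (pos x) = false) ↔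
        ∃ l : List ℕ, (∀ y ∈ l, y ∈ T) ∧ R l x := by
  classical
  refine ⟨fun l x => ∃ K, Chk all g pos K l x, ?_, ?_⟩
  · exact re_exists (p := fun (y : List ℕ × ℕ) K => Chk all g pos K y.1 y.2)
      (p_chk hg hpos).to_re
  intro T x
  constructor
  · intro h
    set I : Set (List (ℕ × Bool)) := {p | (∃ c ∈ all, ∃ m, p = g c m) ∨
      (∃ y ∈ T, p = [(pos y, false)]) ∨ p = [(pos x, true)]} with hI
    obtain ⟨u, hu1, hu2⟩ := prop_compact I (by
      rintro ⟨v, hv⟩
      apply h
      refine ⟨v, ?_, ?_, ?_⟩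
      · intro c hc m
        exact hv _ (Or.inl ⟨c, hc, m, rfl⟩)
      · intro y hy
        have := hv _ (Or.inr (Or.inl ⟨y, hy, rfl⟩))
        simpa [MatchV] using this
      · have := hv _ (Or.inr (Or.inr rfl))
        simpa [MatchV] using this)
    have key : ∀ u : Finset (List (ℕ × Bool)), (∀ p ∈ u, p ∈ I) →
        ∃ (K : ℕ) (l : List ℕ), (∀ y ∈ l, y ∈ T) ∧ ∀ p ∈ u, (∀ q ∈ p, q.1 < K) ∧
          ((∃ c ∈ all, ∃ m < K, p = g c m) ∨ (∃ y ∈ l, p = [(pos y, false)]) ∨
            p = [(pos x, true)]) := by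
      intro u
      induction u using Finset.induction_on with
      | empty => intro _; exact ⟨0, [], by simp, by simp⟩
      | insert p u _ ih =>
        intro hp
        obtain ⟨K, l, h1, h2⟩ := ih (fun q hq => hp q (Finset.mem_insert_of_mem hq))
        obtain ⟨B, hB⟩ : ∃ B, ∀ q ∈ p, q.1 < B := by
          refine ⟨(p.map Prod.fst).sum + 1, fun q hq => Nat.lt_succ_of_le ?_⟩
          exact List.single_le_sum (by simp) _ (List.mem_map_of_mem hq)
        have mono : ∀ K' ≥ K, ∀ l' : List ℕ, (∀ y ∈ l, y ∈ l') → ∀ p ∈ u, (∀ q ∈ p, q.1 < K') ∧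
          ((∃ c ∈ all, ∃ m < K', p = g c m) ∨ (∃ y ∈ l', p = [(pos y, false)]) ∨
            p = [(pos x, true)]) := by
          intro K' hK' l' hl' p hp
          obtain ⟨h3, h4⟩ := h2 p hp
          refine ⟨fun q hq => lt_of_lt_of_le (h3 q hq) hK', ?_⟩
          rcases h4 with ⟨c, hc, m, hm, h⟩ | ⟨y, hy, h⟩ | h
          · exact Or.inl ⟨c, hc, m, by omega, h⟩
          · exact Or.inr (Or.inl ⟨y, hl' y hy, h⟩)
          · exact Or.inr (Or.inr h)
        rcases hp p (Finset.mem_insert_self _ _) with ⟨c, hc, m, h⟩ | ⟨y, hy, h⟩ | h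
        · refine ⟨max K (max B (m + 1)), l, h1, ?_⟩
          intro q hq
          rcases Finset.mem_insert.1 hq with rfl | hq
          · exact ⟨fun r hr => lt_of_lt_of_le (hB r hr) (by simp),
              Or.inl ⟨c, hc, m, by simp, h⟩⟩
          · exact mono _ (by simp) l (fun _ h => h) q hq
        · refine ⟨max K B, y :: l, ?_, ?_⟩
          · intro z hz
            rcases List.mem_cons.1 hz with rfl | hz
            · exact hy
            · exact h1 z hz
          intro q hq
          rcases Finset.mem_insert.1 hq with rfl | hq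
          · exact ⟨fun r hr => lt_of_lt_of_le (hB r hr) (by simp),
              Or.inr (Or.inl ⟨y, by simp, h⟩)⟩
          · exact mono _ (by simp) _ (fun _ h => List.mem_cons_of_mem _ h) q hq
        · refine ⟨max K B, l, h1, ?_⟩
          intro q hq
          rcases Finset.mem_insert.1 hq with rfl | hq
          · exact ⟨fun r hr => lt_of_lt_of_le (hB r hr) (by simp), Or.inr (Or.inr h)⟩
          · exact mono _ (by simp) l (fun _ h => h) q hq
    obtain ⟨K, l, h1, h2⟩ := key u hu1
    refine ⟨l, h1, K, ?_⟩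
    intro τ hτ
    have hlen : τ.length = K := by
      have := (mem_exts.1 hτ).2
      simpa using this
    have h3 : ∃ p ∈ u, MatchV (fun i => τ.getD i false) p := by
      by_contra hcon
      push Not at hcon
      exact hu2 ⟨_, hcon⟩
    obtain ⟨p, hp, hm⟩ := h3
    obtain ⟨h4, h5⟩ := h2 p hp
    have hml : MatchL τ p := by
      intro q hq
      have h6 := hm q hq
      have h7 : q.1 < τ.length := by rw [hlen]; exact h4 q hq
      rw [List.getElem?_eq_getElem h7]
      simp only [List.getD_eq_getElem _ _ h7] at h6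
      rw [h6]
    rcases h5 with ⟨c, hc, m, hmK, rfl⟩ | ⟨y, hy, rfl⟩ | rfl
    · exact Or.inl ⟨c, hc, m, hmK, hml⟩
    · exact Or.inr (Or.inl ⟨y, hy, hml _ (List.mem_singleton.2 rfl)⟩)
    · exact Or.inr (Or.inr (hml _ (List.mem_singleton.2 rfl)))
  · rintro ⟨l, hl, K, hK⟩ ⟨v, hv1, hv2, hv3⟩
    have hget : ∀ (i : ℕ) (b : Bool), (List.ofFn (fun i : Fin K => v i))[i]? = some b → v i = b := by
      intro i b h
      rw [List.getElem?_ofFn] at h
      split_ifs at h with h1
      simpa using h
    rcases hK (List.ofFn (fun i : Fin K => v i)) (mem_exts.2 ⟨List.nil_prefix, by simp⟩) with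
      ⟨c, hc, m, _, h⟩ | ⟨y, hy, h⟩ | h
    · exact hv1 c hc m fun q hq => hget _ _ (h q hq)
    · have := hget _ _ h
      rw [hv2 y (hl y hy)] at this
      exact absurd this (by decide)
    · have := hget _ _ h
      rw [hv3] at this
      exact absurd this (by decide)

end

end Pool.Agent.Lib.MP_3ad381_lc
end

section

/-!
# Semantic consequence is recursively enumerable
-/

namespace Pool.Agent.Lib.MP_3ad381_lc

open Pool.Agent.Lib.MP_3eaa21_lc

/-! ### Codes of environments, elements, and atomic statements -/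

/-- put an element in front of an environment -/
def epush (a e : ℕ) : ℕ := Nat.pair a e + 1

/-- the element given by the term `s` in the environment `e` -/
def ecl (s e : ℕ) : ℕ := Nat.pair 0 (Nat.pair s e) + 1

/-- a counterexample to the quantified formula with matrix `x` in the environment `e, E` -/
def ewit (x e E : ℕ) : ℕ := Nat.pair 1 (Nat.pair x (Nat.pair e E)) + 1

/-- the sum of two elements -/
def eadd (a b : ℕ) : ℕ := ecl (pr 3 (pr (pr 0 0) (pr 0 1))) (epush a (epush b 0))

/-- the product of two elements -/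
def emul (a b : ℕ) : ℕ := ecl (pr 4 (pr (pr 0 0) (pr 0 1))) (epush a (epush b 0))

/-- the formula `x` holds in the environment `e, E` -/
def pF (x e E : ℕ) : ℕ := Nat.pair 0 (Nat.pair x (Nat.pair e E))

/-- `a = b` -/
def pEQ (a b : ℕ) : ℕ := Nat.pair 1 (Nat.pair a b)

/-- `a < b` -/
def pLT (a b : ℕ) : ℕ := Nat.pair 2 (Nat.pair a b)

/-- `a ∈ S` -/
def pMEM (a S : ℕ) : ℕ := Nat.pair 3 (Nat.pair a S)

/-- the types of clauses -/
inductive CT
  | fal | imp1 | imp2 | imp3 | allN1 | allN2 | allS1 | allS2 | eq1 | eq2 | lt1 | lt2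
  | memz1 | memz2 | mems1 | mems2 | refl | symm | trans | addc | mulc | ltc | memc
  | varz | vars | zero | one | addt | mult

/-- the list of all types of clauses -/
def allCT : List CT :=
  [.fal, .imp1, .imp2, .imp3, .allN1, .allN2, .allS1, .allS2, .eq1, .eq2, .lt1, .lt2,
   .memz1, .memz2, .mems1, .mems2, .refl, .symm, .trans, .addc, .mulc, .ltc, .memc,
   .varz, .vars, .zero, .one, .addt, .mult]

theorem mem_allCT (c : CT) : c ∈ allCT := by cases c <;> simp [allCT]

/-- the forbidden partial assignments -/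
def patt : CT → ℕ → ℕ → ℕ → ℕ → ℕ → List (ℕ × Bool)
  | .fal, e, E, _, _, _ => [(pF (pr 3 0) e E, true)]
  | .imp1, x, y, e, E, _ => [(pF (pr 4 (pr x y)) e E, true), (pF x e E, true), (pF y e E, false)]
  | .imp2, x, y, e, E, _ => [(pF (pr 4 (pr x y)) e E, false), (pF x e E, false)]
  | .imp3, x, y, e, E, _ => [(pF (pr 4 (pr x y)) e E, false), (pF y e E, true)]
  | .allN1, x, e, E, a, _ => [(pF (pr 5 x) e E, true), (pF x (epush a e) E, false)]
  | .allN2, x, e, E, _, _ =>
    [(pF (pr 5 x) e E, false), (pF x (epush (ewit x e E) e) E, true)]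
  | .allS1, x, e, E, S, _ => [(pF (pr 6 x) e E, true), (pF x e (epush S E), false)]
  | .allS2, x, e, E, _, _ =>
    [(pF (pr 6 x) e E, false), (pF x e (epush (ewit x e E) E), true)]
  | .eq1, s, t, e, E, _ => [(pF (pr 0 (pr s t)) e E, true), (pEQ (ecl s e) (ecl t e), false)]
  | .eq2, s, t, e, E, _ => [(pF (pr 0 (pr s t)) e E, false), (pEQ (ecl s e) (ecl t e), true)]
  | .lt1, s, t, e, E, _ => [(pF (pr 1 (pr s t)) e E, true), (pLT (ecl s e) (ecl t e), false)]
  | .lt2, s, t, e, E, _ => [(pF (pr 1 (pr s t)) e E, false), (pLT (ecl s e) (ecl t e), true)]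
  | .memz1, t, e, S, E, _ =>
    [(pF (pr 2 (pr t 0)) e (epush S E), true), (pMEM (ecl t e) S, false)]
  | .memz2, t, e, S, E, _ =>
    [(pF (pr 2 (pr t 0)) e (epush S E), false), (pMEM (ecl t e) S, true)]
  | .mems1, t, X, e, S, E =>
    [(pF (pr 2 (pr t (X + 1))) e (epush S E), true), (pF (pr 2 (pr t X)) e E, false)]
  | .mems2, t, X, e, S, E =>
    [(pF (pr 2 (pr t (X + 1))) e (epush S E), false), (pF (pr 2 (pr t X)) e E, true)]
  | .refl, a, _, _, _, _ => [(pEQ a a, false)]
  | .symm, a, b, _, _, _ => [(pEQ a b, true), (pEQ b a, false)]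
  | .trans, a, b, c, _, _ => [(pEQ a b, true), (pEQ b c, true), (pEQ a c, false)]
  | .addc, a, b, c, d, _ => [(pEQ a b, true), (pEQ c d, true), (pEQ (eadd a c) (eadd b d), false)]
  | .mulc, a, b, c, d, _ => [(pEQ a b, true), (pEQ c d, true), (pEQ (emul a c) (emul b d), false)]
  | .ltc, a, b, c, d, _ => [(pEQ a b, true), (pEQ c d, true), (pLT a c, true), (pLT b d, false)]
  | .memc, a, b, S, _, _ => [(pEQ a b, true), (pMEM a S, true), (pMEM b S, false)]
  | .varz, a, e, _, _, _ => [(pEQ (ecl (pr 0 0) (epush a e)) a, false)]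
  | .vars, n, a, e, _, _ => [(pEQ (ecl (pr 0 (n + 1)) (epush a e)) (ecl (pr 0 n) e), false)]
  | .zero, e, _, _, _, _ => [(pEQ (ecl (pr 1 0) e) (ecl (pr 1 0) 0), false)]
  | .one, e, _, _, _, _ => [(pEQ (ecl (pr 2 0) e) (ecl (pr 2 0) 0), false)]
  | .addt, s, t, e, _, _ =>
    [(pEQ (ecl (pr 3 (pr s t)) e) (eadd (ecl s e) (ecl t e)), false)]
  | .mult, s, t, e, _, _ =>
    [(pEQ (ecl (pr 4 (pr s t)) e) (emul (ecl s e) (ecl t e)), false)]

/-- the five parameters coded by a number -/
def par0 (m : ℕ) : ℕ := m.unpair.1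
def par1 (m : ℕ) : ℕ := m.unpair.2.unpair.1
def par2 (m : ℕ) : ℕ := m.unpair.2.unpair.2.unpair.1
def par3 (m : ℕ) : ℕ := m.unpair.2.unpair.2.unpair.2.unpair.1
def par4 (m : ℕ) : ℕ := m.unpair.2.unpair.2.unpair.2.unpair.2

/-- the clause of type `c` with parameters coded by `m` -/
def patt' (c : CT) (m : ℕ) : List (ℕ × Bool) :=
  patt c (par0 m) (par1 m) (par2 m) (par3 m) (par4 m)

section comp

variable {α : Type*} [Primcodable α] {f g h : α → ℕ}

theorem c_pair (hf : Computable f) (hg : Computable g) :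
    Computable fun a => Nat.pair (f a) (g a) := Primrec₂.natPair.to_comp.comp hf hg

theorem c_pr (hf : Computable f) (hg : Computable g) :
    Computable fun a => pr (f a) (g a) := c_add (c_mul (c_add hf hg) (c_add hf hg)) hf

theorem c_succ (hf : Computable f) : Computable fun a => f a + 1 := Computable.succ.comp hf

theorem c_epush (hf : Computable f) (hg : Computable g) :
    Computable fun a => epush (f a) (g a) := c_succ (c_pair hf hg)

theorem c_ecl (hf : Computable f) (hg : Computable g) :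
    Computable fun a => ecl (f a) (g a) := c_succ (c_pair (Computable.const 0) (c_pair hf hg))

theorem c_ewit (hf : Computable f) (hg : Computable g) (hh : Computable h) :
    Computable fun a => ewit (f a) (g a) (h a) :=
  c_succ (c_pair (Computable.const 1) (c_pair hf (c_pair hg hh)))

theorem c_eadd (hf : Computable f) (hg : Computable g) :
    Computable fun a => eadd (f a) (g a) :=
  c_ecl (Computable.const _) (c_epush hf (c_epush hg (Computable.const 0)))

theorem c_emul (hf : Computable f) (hg : Computable g) :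
    Computable fun a => emul (f a) (g a) :=
  c_ecl (Computable.const _) (c_epush hf (c_epush hg (Computable.const 0)))

theorem c_pF (hf : Computable f) (hg : Computable g) (hh : Computable h) :
    Computable fun a => pF (f a) (g a) (h a) :=
  c_pair (Computable.const 0) (c_pair hf (c_pair hg hh))

theorem c_pEQ (hf : Computable f) (hg : Computable g) :
    Computable fun a => pEQ (f a) (g a) := c_pair (Computable.const 1) (c_pair hf hg)

theorem c_pLT (hf : Computable f) (hg : Computable g) :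
    Computable fun a => pLT (f a) (g a) := c_pair (Computable.const 2) (c_pair hf hg)

theorem c_pMEM (hf : Computable f) (hg : Computable g) :
    Computable fun a => pMEM (f a) (g a) := c_pair (Computable.const 3) (c_pair hf hg)

theorem c_entry {b : Bool} {l : α → List (ℕ × Bool)} (hf : Computable f) (hl : Computable l) :
    Computable fun a => (f a, b) :: l a :=
  c_cons (Computable.pair hf (Computable.const b)) hl

end comp

theorem c_par0 : Computable par0 := Computable.fst.comp Computable.unpair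
theorem c_par1 : Computable par1 := c_par0.comp (Computable.snd.comp Computable.unpair)
theorem c_par2 : Computable par2 := c_par1.comp (Computable.snd.comp Computable.unpair)
theorem c_par3 : Computable par3 := c_par2.comp (Computable.snd.comp Computable.unpair)
theorem c_par4 : Computable par4 :=
  (Computable.snd.comp Computable.unpair).comp ((Computable.snd.comp Computable.unpair).comp
    ((Computable.snd.comp Computable.unpair).comp (Computable.snd.comp Computable.unpair)))

section
attribute [local irreducible] par0 par1 par2 par3 par4 epush ecl ewit eadd emul pF pEQ pLT pMEM pr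

theorem c_patt' (c : CT) : Computable (patt' c) := by
  unfold patt'
  cases c <;> simp only [patt] <;>
  repeat' first
    | exact c_par0
    | exact c_par1
    | exact c_par2
    | exact c_par3
    | exact c_par4
    | exact Computable.const _
    | apply c_entry
    | apply c_pF
    | apply c_pEQ
    | apply c_pLT
    | apply c_pMEM
    | apply c_eadd
    | apply c_emul
    | apply c_ewit
    | apply c_ecl
    | apply c_epush
    | apply c_pr
    | apply c_succ

end

/-- `v` satisfies all clauses -/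
def Good (v : ℕ → Bool) : Prop := ∀ c x₀ x₁ x₂ x₃ x₄, ¬ MatchV v (patt c x₀ x₁ x₂ x₃ x₄)

theorem good_iff (v : ℕ → Bool) : Good v ↔ ∀ c ∈ allCT, ∀ m, ¬ MatchV v (patt' c m) := by
  constructor
  · intro h c _ m
    exact h c _ _ _ _ _
  · intro h c x₀ x₁ x₂ x₃ x₄
    have := h c (mem_allCT c) (Nat.pair x₀ (Nat.pair x₁ (Nat.pair x₂ (Nat.pair x₃ x₄))))
    simpa [patt', par0, par1, par2, par3, par4] using this

end Pool.Agent.Lib.MP_3ad381_lc
end

section

/-!
# The Henkin model given by a valuation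
-/

namespace Pool.Agent.Lib.MP_3ad381_lc

section model

variable {v : ℕ → Bool} (hv : Good v)
include hv

theorem Good.refl (a : ℕ) : v (pEQ a a) = true := by
  have := hv .refl a 0 0 0 0
  simpa [MatchV, patt] using this

theorem Good.symm {a b : ℕ} (h : v (pEQ a b) = true) : v (pEQ b a) = true := by
  have := hv .symm a b 0 0 0
  simpa [MatchV, patt, h] using this

theorem Good.trans {a b c : ℕ} (h : v (pEQ a b) = true) (h' : v (pEQ b c) = true) :
    v (pEQ a c) = true := by
  have := hv .trans a b c 0 0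
  simpa [MatchV, patt, h, h'] using this

theorem Good.addc {a b c d : ℕ} (h : v (pEQ a b) = true) (h' : v (pEQ c d) = true) :
    v (pEQ (eadd a c) (eadd b d)) = true := by
  have := hv .addc a b c d 0
  simpa [MatchV, patt, h, h'] using this

theorem Good.mulc {a b c d : ℕ} (h : v (pEQ a b) = true) (h' : v (pEQ c d) = true) :
    v (pEQ (emul a c) (emul b d)) = true := by
  have := hv .mulc a b c d 0
  simpa [MatchV, patt, h, h'] using this

theorem Good.ltc {a b c d : ℕ} (h : v (pEQ a b) = true) (h' : v (pEQ c d) = true)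
    (h'' : v (pLT a c) = true) : v (pLT b d) = true := by
  have := hv .ltc a b c d 0
  simpa [MatchV, patt, h, h', h''] using this

theorem Good.memc {a b S : ℕ} (h : v (pEQ a b) = true) (h' : v (pMEM a S) = true) :
    v (pMEM b S) = true := by
  have := hv .memc a b S 0 0
  simpa [MatchV, patt, h, h'] using this

theorem Good.varz (a e : ℕ) : v (pEQ (ecl (pr 0 0) (epush a e)) a) = true := by
  have := hv .varz a e 0 0 0
  simpa [MatchV, patt] using this

theorem Good.vars (n a e : ℕ) :
    v (pEQ (ecl (pr 0 (n + 1)) (epush a e)) (ecl (pr 0 n) e)) = true := by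
  have := hv .vars n a e 0 0
  simpa [MatchV, patt] using this

theorem Good.zero (e : ℕ) : v (pEQ (ecl (pr 1 0) e) (ecl (pr 1 0) 0)) = true := by
  have := hv .zero e 0 0 0 0
  simpa [MatchV, patt] using this

theorem Good.one (e : ℕ) : v (pEQ (ecl (pr 2 0) e) (ecl (pr 2 0) 0)) = true := by
  have := hv .one e 0 0 0 0
  simpa [MatchV, patt] using this

theorem Good.addt (s t e : ℕ) :
    v (pEQ (ecl (pr 3 (pr s t)) e) (eadd (ecl s e) (ecl t e))) = true := by
  have := hv .addt s t e 0 0
  simpa [MatchV, patt] using this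

theorem Good.mult (s t e : ℕ) :
    v (pEQ (ecl (pr 4 (pr s t)) e) (emul (ecl s e) (ecl t e))) = true := by
  have := hv .mult s t e 0 0
  simpa [MatchV, patt] using this

theorem Good.fal (e E : ℕ) : v (pF (pr 3 0) e E) = false := by
  have := hv .fal e E 0 0 0
  simpa [MatchV, patt] using this

theorem Good.imp (x y e E : ℕ) : v (pF (pr 4 (pr x y)) e E) = true ↔
    (v (pF x e E) = true → v (pF y e E) = true) := by
  have h1 := hv .imp1 x y e E 0
  have h2 := hv .imp2 x y e E 0
  have h3 := hv .imp3 x y e E 0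
  simp only [MatchV, patt, List.mem_cons, List.not_mem_nil, or_false, forall_eq_or_imp, forall_eq]
    at h1 h2 h3
  cases ha : v (pF (pr 4 (pr x y)) e E) <;> cases hb : v (pF x e E) <;>
    cases hc : v (pF y e E) <;> simp_all

theorem Good.allN (x e E a : ℕ) (h : v (pF (pr 5 x) e E) = true) :
    v (pF x (epush a e) E) = true := by
  have := hv .allN1 x e E a 0
  simpa [MatchV, patt, h] using this

theorem Good.allN' (x e E : ℕ) (h : v (pF x (epush (ewit x e E) e) E) = true) :
    v (pF (pr 5 x) e E) = true := by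
  have := hv .allN2 x e E 0 0
  simpa [MatchV, patt, h] using this

theorem Good.allS (x e E S : ℕ) (h : v (pF (pr 6 x) e E) = true) :
    v (pF x e (epush S E)) = true := by
  have := hv .allS1 x e E S 0
  simpa [MatchV, patt, h] using this

theorem Good.allS' (x e E : ℕ) (h : v (pF x e (epush (ewit x e E) E)) = true) :
    v (pF (pr 6 x) e E) = true := by
  have := hv .allS2 x e E 0 0
  simpa [MatchV, patt, h] using this

theorem Good.eq (s t e E : ℕ) : v (pF (pr 0 (pr s t)) e E) = true ↔
    v (pEQ (ecl s e) (ecl t e)) = true := by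
  have h1 := hv .eq1 s t e E 0
  have h2 := hv .eq2 s t e E 0
  simp only [MatchV, patt, List.mem_cons, List.not_mem_nil, or_false, forall_eq_or_imp, forall_eq]
    at h1 h2
  cases ha : v (pF (pr 0 (pr s t)) e E) <;> cases hb : v (pEQ (ecl s e) (ecl t e)) <;> simp_all

theorem Good.lt (s t e E : ℕ) : v (pF (pr 1 (pr s t)) e E) = true ↔
    v (pLT (ecl s e) (ecl t e)) = true := by
  have h1 := hv .lt1 s t e E 0
  have h2 := hv .lt2 s t e E 0
  simp only [MatchV, patt, List.mem_cons, List.not_mem_nil, or_false, forall_eq_or_imp, forall_eq]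
    at h1 h2
  cases ha : v (pF (pr 1 (pr s t)) e E) <;> cases hb : v (pLT (ecl s e) (ecl t e)) <;> simp_all

theorem Good.memz (t e S E : ℕ) : v (pF (pr 2 (pr t 0)) e (epush S E)) = true ↔
    v (pMEM (ecl t e) S) = true := by
  have h1 := hv .memz1 t e S E 0
  have h2 := hv .memz2 t e S E 0
  simp only [MatchV, patt, List.mem_cons, List.not_mem_nil, or_false, forall_eq_or_imp, forall_eq]
    at h1 h2
  cases ha : v (pF (pr 2 (pr t 0)) e (epush S E)) <;> cases hb : v (pMEM (ecl t e) S) <;>
    simp_all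

theorem Good.mems (t X e S E : ℕ) : v (pF (pr 2 (pr t (X + 1))) e (epush S E)) = true ↔
    v (pF (pr 2 (pr t X)) e E) = true := by
  have h1 := hv .mems1 t X e S E
  have h2 := hv .mems2 t X e S E
  simp only [MatchV, patt, List.mem_cons, List.not_mem_nil, or_false, forall_eq_or_imp, forall_eq]
    at h1 h2
  cases ha : v (pF (pr 2 (pr t (X + 1))) e (epush S E)) <;>
    cases hb : v (pF (pr 2 (pr t X)) e E) <;> simp_all

/-- equality of elements -/
def Good.setoid : Setoid ℕ where
  r := fun a b => v (pEQ a b) = true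
  iseqv := ⟨hv.refl, hv.symm, hv.trans⟩

/-- the class of an element -/
def Good.mk (a : ℕ) : Quotient hv.setoid := Quotient.mk hv.setoid a

/-- the set given by a set element -/
def Good.ext (S : ℕ) : Set (Quotient hv.setoid) :=
  {q | Quotient.lift (fun a => v (pMEM a S) = true)
    (fun _ _ h => propext ⟨hv.memc h, hv.memc (hv.symm h)⟩) q}

theorem Good.mk_mem_ext (a S : ℕ) : hv.mk a ∈ hv.ext S ↔ v (pMEM a S) = true := Iff.rfl

/-- the Henkin structure -/
def Good.str : Str where
  M := Quotient hv.setoid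
  zero := hv.mk (ecl (pr 1 0) 0)
  one := hv.mk (ecl (pr 2 0) 0)
  add := Quotient.map₂ eadd (fun _ _ h _ _ h' => hv.addc h h')
  mul := Quotient.map₂ emul (fun _ _ h _ _ h' => hv.mulc h h')
  lt := Quotient.lift₂ (fun a b => v (pLT a b) = true)
    (fun _ _ _ _ h h' => propext ⟨hv.ltc h h', hv.ltc (hv.symm h) (hv.symm h')⟩)
  sets := Set.range hv.ext
  sets_nonempty := ⟨_, 0, rfl⟩

theorem Good.mk_eq {a b : ℕ} : hv.mk a = hv.mk b ↔ v (pEQ a b) = true :=
  ⟨fun h => Quotient.exact h, fun h => Quotient.sound h⟩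

omit hv in
/-- the code of an environment given by a list -/
def elist : List ℕ → ℕ
  | [] => 0
  | a :: as => epush a (elist as)

/-- the assignment to the number variables given by a list -/
def Good.asgN (as : List ℕ) : ℕ → hv.str.M := fun i => hv.mk (as.getD i 0)

/-- the assignment to the set variables given by a list -/
def Good.asgS (Ss : List ℕ) : ℕ → Set hv.str.M := fun i => hv.ext (Ss.getD i 0)

theorem Good.asgN_cons (a : ℕ) (as : List ℕ) :
    hv.asgN (a :: as) = cons (hv.mk a) (hv.asgN as) := by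
  funext i
  cases i <;> rfl

theorem Good.asgS_cons (S : ℕ) (Ss : List ℕ) :
    hv.asgS (S :: Ss) = cons (hv.ext S) (hv.asgS Ss) := by
  funext i
  cases i <;> rfl

theorem Good.var_lemma : ∀ (as : List ℕ) (n : ℕ), n < as.length →
    hv.mk (ecl (pr 0 n) (elist as)) = hv.asgN as n
  | [], n, h => absurd h (by simp)
  | a :: as, 0, _ => hv.mk_eq.2 (hv.varz a _)
  | a :: as, n + 1, h => by
    have h1 := Good.var_lemma as n (by simpa using h)
    exact (hv.mk_eq.2 (hv.vars n a _)).trans h1

theorem Good.term_lemma (as : List ℕ) : ∀ t : Tm, t.Closed as.length →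
    t.val hv.str (hv.asgN as) = hv.mk (ecl t.code (elist as))
  | .var n, h => (hv.var_lemma as n h).symm
  | .zero, _ => (hv.mk_eq.2 (hv.zero _)).symm
  | .one, _ => (hv.mk_eq.2 (hv.one _)).symm
  | .add s t, h => by
    have hs := Good.term_lemma as s h.1
    have ht := Good.term_lemma as t h.2
    have h1 := hv.mk_eq.2 (hv.addt s.code t.code (elist as))
    rw [Tm.val, hs, ht]
    exact h1.symm
  | .mul s t, h => by
    have hs := Good.term_lemma as s h.1
    have ht := Good.term_lemma as t h.2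
    have h1 := hv.mk_eq.2 (hv.mult s.code t.code (elist as))
    rw [Tm.val, hs, ht]
    exact h1.symm

theorem Good.mem_lemma (as : List ℕ) (t : Tm) (h : t.Closed as.length) :
    ∀ (Ss : List ℕ) (X : ℕ), X < Ss.length →
    (t.val hv.str (hv.asgN as) ∈ hv.asgS Ss X ↔
      v (pF (pr 2 (pr t.code X)) (elist as) (elist Ss)) = true)
  | [], X, hX => absurd hX (by simp)
  | S :: Ss, 0, _ => by
    rw [hv.term_lemma as t h]
    exact (hv.memz t.code (elist as) S (elist Ss)).symm
  | S :: Ss, X + 1, hX => by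
    have h1 := Good.mem_lemma as t h Ss X (by simpa using hX)
    exact h1.trans (hv.mems t.code X (elist as) S (elist Ss)).symm

theorem Good.truth_lemma : ∀ (ψ : Fm) (as Ss : List ℕ), ψ.Closed as.length Ss.length →
    (ψ.Holds hv.str (hv.asgN as) (hv.asgS Ss) ↔ v (pF ψ.code (elist as) (elist Ss)) = true)
  | .eq s t, as, Ss, h => by
    rw [Fm.Holds, hv.term_lemma as s h.1, hv.term_lemma as t h.2, Fm.code, hv.eq]
    exact hv.mk_eq
  | .lt s t, as, Ss, h => by
    rw [Fm.Holds, hv.term_lemma as s h.1, hv.term_lemma as t h.2, Fm.code, hv.lt]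
    exact Iff.rfl
  | .mem t X, as, Ss, h => hv.mem_lemma as t h.1 Ss X h.2
  | .fal, as, Ss, _ => by
    rw [Fm.Holds, Fm.code, hv.fal]
    simp
  | .imp φ ψ, as, Ss, h => by
    rw [Fm.Holds, Good.truth_lemma φ as Ss h.1, Good.truth_lemma ψ as Ss h.2, Fm.code, hv.imp]
  | .allN φ, as, Ss, h => by
    rw [Fm.Holds, Fm.code]
    constructor
    · intro h1
      apply hv.allN'
      have h2 := (Good.truth_lemma φ (ewit φ.code (elist as) (elist Ss) :: as) Ss h).1 (by
        rw [Good.asgN_cons]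
        exact h1 _)
      exact h2
    · intro h1 x
      obtain ⟨a, rfl⟩ : ∃ a, hv.mk a = x := Quotient.exists_rep x
      have h2 := (Good.truth_lemma φ (a :: as) Ss h).2 (hv.allN _ _ _ a h1)
      rw [Good.asgN_cons] at h2
      exact h2
  | .allS φ, as, Ss, h => by
    rw [Fm.Holds, Fm.code]
    constructor
    · intro h1
      apply hv.allS'
      have h2 := (Good.truth_lemma φ as (ewit φ.code (elist as) (elist Ss) :: Ss) h).1 (by
        rw [Good.asgS_cons]
        exact h1 _ ⟨_, rfl⟩)
      exact h2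
    · rintro h1 _ ⟨S, rfl⟩
      have h2 := (Good.truth_lemma φ as (S :: Ss) h).2 (hv.allS _ _ _ S h1)
      rw [Good.asgS_cons] at h2
      exact h2

theorem Good.models_iff {ψ : Fm} (hψ : ψ.Sentence) :
    hv.str.Models ψ ↔ v (pF ψ.code 0 0) = true := by
  rw [show v (pF ψ.code 0 0) = true ↔ ψ.Holds hv.str (hv.asgN []) (hv.asgS []) from
    (hv.truth_lemma ψ [] [] hψ).symm]
  constructor
  · intro h
    exact h _ _ (fun i => ⟨_, rfl⟩)
  · exact models_sentence hψ

end model

end Pool.Agent.Lib.MP_3ad381_lc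
end

section

/-!
# The valuation given by a structure
-/

namespace Pool.Agent.Lib.MP_3ad381_lc

/-! ### Strong recursion and decoding -/

theorem exists_rec {α : Type} (d : α) (body : (ℕ → α) → ℕ → α) :
    ∃ F : ℕ → α, ∀ n, F n = body (fun m => if m < n then F m else d) n := by
  classical
  let G : ∀ n : ℕ, (∀ m, m < n → α) → α := fun n ih =>
    body (fun m => if h : m < n then ih m h else d) n
  refine ⟨fun n => WellFounded.fix Nat.lt_wfRel.wf G n, fun n => ?_⟩
  show WellFounded.fix Nat.lt_wfRel.wf G n = _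
  rw [WellFounded.fix_eq]
  rfl

open Classical in
/-- inverse of the pairing function `pr` -/
noncomputable def upr (n : ℕ) : ℕ × ℕ :=
  if h : ∃ p : ℕ × ℕ, n = pr p.1 p.2 then h.choose else (0, 0)

theorem upr_pr (a b : ℕ) : upr (pr a b) = (a, b) := by
  have h : ∃ p : ℕ × ℕ, pr a b = pr p.1 p.2 := ⟨(a, b), rfl⟩
  rw [upr, dif_pos h]
  have := pr_inj h.choose_spec
  exact Prod.ext this.1.symm this.2.symm

theorem exists_decT : ∃ D : ℕ → Tm, (∀ n, D (pr 0 n) = .var n) ∧ D (pr 1 0) = .zero ∧
    D (pr 2 0) = .one ∧ (∀ s t, D (pr 3 (pr s t)) = .add (D s) (D t)) ∧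
    (∀ s t, D (pr 4 (pr s t)) = .mul (D s) (D t)) := by
  obtain ⟨D, hD⟩ := exists_rec (α := Tm) .zero (fun f n =>
    match (upr n).1 with
    | 0 => .var (upr n).2
    | 1 => .zero
    | 2 => .one
    | 3 => .add (f (upr (upr n).2).1) (f (upr (upr n).2).2)
    | _ => .mul (f (upr (upr n).2).1) (f (upr (upr n).2).2))
  refine ⟨D, fun n => ?_, ?_, ?_, fun s t => ?_, fun s t => ?_⟩
  · rw [hD]; simp only [upr_pr]
  · rw [hD]; simp only [upr_pr]
  · rw [hD]; simp only [upr_pr]
  · rw [hD]; simp only [upr_pr]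
    rw [if_pos (lt_pr₁ s t (by omega)), if_pos (lt_pr₂ s t (by omega))]
  · rw [hD]; simp only [upr_pr]
    rw [if_pos (lt_pr₁ s t (by omega)), if_pos (lt_pr₂ s t (by omega))]

theorem exists_decF (D : ℕ → Tm) : ∃ G : ℕ → Fm,
    (∀ s t, G (pr 0 (pr s t)) = .eq (D s) (D t)) ∧
    (∀ s t, G (pr 1 (pr s t)) = .lt (D s) (D t)) ∧
    (∀ t X, G (pr 2 (pr t X)) = .mem (D t) X) ∧
    G (pr 3 0) = .fal ∧
    (∀ x y, G (pr 4 (pr x y)) = .imp (G x) (G y)) ∧
    (∀ x, G (pr 5 x) = .allN (G x)) ∧
    (∀ x, G (pr 6 x) = .allS (G x)) := by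
  obtain ⟨G, hG⟩ := exists_rec (α := Fm) .fal (fun f n =>
    match (upr n).1 with
    | 0 => .eq (D (upr (upr n).2).1) (D (upr (upr n).2).2)
    | 1 => .lt (D (upr (upr n).2).1) (D (upr (upr n).2).2)
    | 2 => .mem (D (upr (upr n).2).1) (upr (upr n).2).2
    | 3 => .fal
    | 4 => .imp (f (upr (upr n).2).1) (f (upr (upr n).2).2)
    | 5 => .allN (f (upr n).2)
    | _ => .allS (f (upr n).2))
  refine ⟨G, fun s t => ?_, fun s t => ?_, fun t X => ?_, ?_, fun x y => ?_, fun x => ?_,
    fun x => ?_⟩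
  · rw [hG]; simp only [upr_pr]
  · rw [hG]; simp only [upr_pr]
  · rw [hG]; simp only [upr_pr]
  · rw [hG]; simp only [upr_pr]
  · rw [hG]; simp only [upr_pr]
    rw [if_pos (lt_pr₁ x y (by omega)), if_pos (lt_pr₂ x y (by omega))]
  · rw [hG]; simp only [upr_pr]
    rw [if_pos (lt_pr_right x (by omega))]
  · rw [hG]; simp only [upr_pr]
    rw [if_pos (lt_pr_right x (by omega))]

theorem decT_code {D : ℕ → Tm} (h0 : ∀ n, D (pr 0 n) = .var n) (h1 : D (pr 1 0) = .zero)
    (h2 : D (pr 2 0) = .one) (h3 : ∀ s t, D (pr 3 (pr s t)) = .add (D s) (D t))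
    (h4 : ∀ s t, D (pr 4 (pr s t)) = .mul (D s) (D t)) : ∀ t : Tm, D t.code = t
  | .var n => h0 n
  | .zero => h1
  | .one => h2
  | .add s t => by rw [Tm.code, h3, decT_code h0 h1 h2 h3 h4 s, decT_code h0 h1 h2 h3 h4 t]
  | .mul s t => by rw [Tm.code, h4, decT_code h0 h1 h2 h3 h4 s, decT_code h0 h1 h2 h3 h4 t]

theorem decF_code {D : ℕ → Tm} (hD : ∀ t : Tm, D t.code = t) {G : ℕ → Fm}
    (g0 : ∀ s t, G (pr 0 (pr s t)) = .eq (D s) (D t))
    (g1 : ∀ s t, G (pr 1 (pr s t)) = .lt (D s) (D t))
    (g2 : ∀ t X, G (pr 2 (pr t X)) = .mem (D t) X)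
    (g3 : G (pr 3 0) = .fal)
    (g4 : ∀ x y, G (pr 4 (pr x y)) = .imp (G x) (G y))
    (g5 : ∀ x, G (pr 5 x) = .allN (G x))
    (g6 : ∀ x, G (pr 6 x) = .allS (G x)) : ∀ φ : Fm, G φ.code = φ
  | .eq s t => by rw [Fm.code, g0, hD, hD]
  | .lt s t => by rw [Fm.code, g1, hD, hD]
  | .mem t X => by rw [Fm.code, g2, hD]
  | .fal => g3
  | .imp φ ψ => by
    rw [Fm.code, g4, decF_code hD g0 g1 g2 g3 g4 g5 g6 φ, decF_code hD g0 g1 g2 g3 g4 g5 g6 ψ]
  | .allN φ => by rw [Fm.code, g5, decF_code hD g0 g1 g2 g3 g4 g5 g6 φ]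
  | .allS φ => by rw [Fm.code, g6, decF_code hD g0 g1 g2 g3 g4 g5 g6 φ]

/-! ### Environments -/

/-- the `i`-th entry of an environment -/
def eget (e : ℕ) : ℕ → ℕ
  | 0 => (e - 1).unpair.1
  | i + 1 => eget (e - 1).unpair.2 i

theorem eget_le : ∀ (i e : ℕ), eget e i ≤ e
  | 0, _ => (Nat.unpair_left_le _).trans (Nat.sub_le _ _)
  | i + 1, _ => (eget_le i _).trans ((Nat.unpair_right_le _).trans (Nat.sub_le _ _))

theorem eget_epush_zero (a e : ℕ) : eget (epush a e) 0 = a := by
  simp [eget, epush]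

theorem eget_epush_succ (a e i : ℕ) : eget (epush a e) (i + 1) = eget e i := by
  simp [eget, epush]

/-! ### The valuation -/

section

variable (A : Str)

/-- an interpretation of the element codes in the structure `A` -/
structure Interp (D : ℕ → Tm) (G : ℕ → Fm) where
  /-- numbers -/
  J : ℕ → A.M
  /-- sets -/
  K : ℕ → Set A.M
  hK : ∀ n, K n ∈ A.sets
  cl : ∀ s e, J (ecl s e) = (D s).val A (fun i => J (eget e i))
  witN : ∀ x e E, (G x).Holds A (cons (J (ewit x e E)) (fun i => J (eget e i)))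
    (fun i => K (eget E i)) → ∀ a, (G x).Holds A (cons a (fun i => J (eget e i)))
    (fun i => K (eget E i))
  witS : ∀ x e E, (G x).Holds A (fun i => J (eget e i))
    (cons (K (ewit x e E)) (fun i => K (eget E i))) →
    ∀ S ∈ A.sets, (G x).Holds A (fun i => J (eget e i)) (cons S (fun i => K (eget E i)))

theorem exists_interp (D : ℕ → Tm) (G : ℕ → Fm) : Nonempty (Interp A D G) := by
  classical
  let S₀ : {S : Set A.M // S ∈ A.sets} := ⟨A.sets_nonempty.some, A.sets_nonempty.some_mem⟩
  let pickN : ℕ → (ℕ → A.M) → (ℕ → Set A.M) → A.M := fun x η H =>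
    if h : ∃ a, ¬ (G x).Holds A (cons a η) H then h.choose else A.zero
  let pickS : ℕ → (ℕ → A.M) → (ℕ → Set A.M) → {S : Set A.M // S ∈ A.sets} := fun x η H =>
    if h : ∃ S : {S : Set A.M // S ∈ A.sets}, ¬ (G x).Holds A η (cons S.1 H) then h.choose else S₀
  have pickN_spec : ∀ x η H, (G x).Holds A (cons (pickN x η H) η) H →
      ∀ a, (G x).Holds A (cons a η) H := by
    intro x η H h a
    by_contra hcon
    have hex : ∃ a, ¬ (G x).Holds A (cons a η) H := ⟨a, hcon⟩
    simp only [pickN, dif_pos hex] at h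
    exact hex.choose_spec h
  have pickS_spec : ∀ x η H, (G x).Holds A η (cons (pickS x η H).1 H) →
      ∀ S ∈ A.sets, (G x).Holds A η (cons S H) := by
    intro x η H h S hS
    by_contra hcon
    have hex : ∃ S : {S : Set A.M // S ∈ A.sets}, ¬ (G x).Holds A η (cons S.1 H) :=
      ⟨⟨S, hS⟩, hcon⟩
    simp only [pickS, dif_pos hex] at h
    exact hex.choose_spec h
  obtain ⟨F, hF⟩ := exists_rec (α := A.M × {S : Set A.M // S ∈ A.sets}) (A.zero, S₀)
    (fun f n =>
      if (n - 1).unpair.1 = 0 then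
        ((D (n - 1).unpair.2.unpair.1).val A
          (fun i => (f (eget (n - 1).unpair.2.unpair.2 i)).1), S₀)
      else
        (pickN (n - 1).unpair.2.unpair.1
          (fun i => (f (eget (n - 1).unpair.2.unpair.2.unpair.1 i)).1)
          (fun i => (f (eget (n - 1).unpair.2.unpair.2.unpair.2 i)).2.1),
        pickS (n - 1).unpair.2.unpair.1
          (fun i => (f (eget (n - 1).unpair.2.unpair.2.unpair.1 i)).1)
          (fun i => (f (eget (n - 1).unpair.2.unpair.2.unpair.2 i)).2.1)))
  have hcl : ∀ s e, F (ecl s e) = ((D s).val A (fun i => (F (eget e i)).1), S₀) := by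
    intro s e
    have hlt : ∀ i, eget e i < ecl s e := by
      intro i
      have h1 := eget_le i e
      have h2 := Nat.right_le_pair s e
      have h3 := Nat.right_le_pair 0 (Nat.pair s e)
      unfold ecl
      omega
    rw [hF (ecl s e)]
    have h1 : ecl s e - 1 = Nat.pair 0 (Nat.pair s e) := rfl
    simp only [h1, Nat.unpair_pair, if_true, hlt]
  have hwit : ∀ x e E, F (ewit x e E) =
      (pickN x (fun i => (F (eget e i)).1) (fun i => (F (eget E i)).2.1),
        pickS x (fun i => (F (eget e i)).1) (fun i => (F (eget E i)).2.1)) := by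
    intro x e E
    have h4 := Nat.left_le_pair e E
    have h5 := Nat.right_le_pair e E
    have h2 := Nat.right_le_pair x (Nat.pair e E)
    have h3 := Nat.right_le_pair 1 (Nat.pair x (Nat.pair e E))
    have hlt : ∀ i, eget e i < ewit x e E := by
      intro i
      have h1 := eget_le i e
      unfold ewit
      omega
    have hlt' : ∀ i, eget E i < ewit x e E := by
      intro i
      have h1 := eget_le i E
      unfold ewit
      omega
    rw [hF (ewit x e E)]
    have h1 : ewit x e E - 1 = Nat.pair 1 (Nat.pair x (Nat.pair e E)) := rfl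
    simp only [h1, Nat.unpair_pair, one_ne_zero, if_false, hlt, hlt', if_true]
  refine ⟨⟨fun n => (F n).1, fun n => (F n).2.1, fun n => (F n).2.2, ?_, ?_, ?_⟩⟩
  · intro s e
    simp only [hcl]
  · intro x e E h
    simp only [hwit] at h
    exact pickN_spec x _ _ h
  · intro x e E h
    simp only [hwit] at h
    exact pickS_spec x _ _ h

end

theorem cons_eget_N {α : Type} (J : ℕ → α) (a e : ℕ) :
    (fun i => J (eget (epush a e) i)) = cons (J a) (fun i => J (eget e i)) := by
  funext i
  cases i with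
  | zero => rw [eget_epush_zero]; rfl
  | succ i => rw [eget_epush_succ]; rfl

/-- Every structure gives a valuation that satisfies all clauses. -/
theorem exists_good (A : Str) : ∃ v : ℕ → Bool, Good v ∧
    ∀ ψ : Fm, ψ.Sentence → (v (pF ψ.code 0 0) = true ↔ A.Models ψ) := by
  classical
  obtain ⟨D, d0, d1, d2, d3, d4⟩ := exists_decT
  obtain ⟨G, g0, g1, g2, g3, g4, g5, g6⟩ := exists_decF D
  obtain ⟨I⟩ := exists_interp A D G
  have hDc := decT_code d0 d1 d2 d3 d4
  have hGc := decF_code hDc g0 g1 g2 g3 g4 g5 g6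
  let J := I.J
  let K := I.K
  let η : ℕ → (ℕ → A.M) := fun e i => J (eget e i)
  let H : ℕ → (ℕ → Set A.M) := fun E i => K (eget E i)
  have hη : ∀ a e, η (epush a e) = cons (J a) (η e) := fun a e => cons_eget_N J a e
  have hH : ∀ S E, H (epush S E) = cons (K S) (H E) := fun S E => cons_eget_N K S E
  have hcl : ∀ s e, J (ecl s e) = (D s).val A (η e) := I.cl
  have hadd : ∀ a b, J (eadd a b) = A.add (J a) (J b) := by
    intro a b
    rw [eadd, hcl, d3, d0, d0, hη, hη]
    rfl
  have hmul : ∀ a b, J (emul a b) = A.mul (J a) (J b) := by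
    intro a b
    rw [emul, hcl, d4, d0, d0, hη, hη]
    rfl
  let V : ℕ → Prop := fun p =>
    if p.unpair.1 = 0 then
      (G p.unpair.2.unpair.1).Holds A (η p.unpair.2.unpair.2.unpair.1)
        (H p.unpair.2.unpair.2.unpair.2)
    else if p.unpair.1 = 1 then J p.unpair.2.unpair.1 = J p.unpair.2.unpair.2
    else if p.unpair.1 = 2 then A.lt (J p.unpair.2.unpair.1) (J p.unpair.2.unpair.2)
    else J p.unpair.2.unpair.1 ∈ K p.unpair.2.unpair.2
  have vF : ∀ x e E, V (pF x e E) ↔ (G x).Holds A (η e) (H E) := by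
    intro x e E
    simp only [V, pF, Nat.unpair_pair, if_true]
  have vEQ : ∀ a b, V (pEQ a b) ↔ J a = J b := by
    intro a b
    simp only [V, pEQ, Nat.unpair_pair, one_ne_zero, if_false, if_true]
  have vLT : ∀ a b, V (pLT a b) ↔ A.lt (J a) (J b) := by
    intro a b
    simp only [V, pLT, Nat.unpair_pair]
    norm_num
  have vMEM : ∀ a S, V (pMEM a S) ↔ J a ∈ K S := by
    intro a S
    simp only [V, pMEM, Nat.unpair_pair]
    norm_num
  refine ⟨fun p => decide (V p), ?_, ?_⟩
  · intro c x₀ x₁ x₂ x₃ x₄ hm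
    cases c <;>
      simp only [MatchV, patt, List.mem_cons, List.not_mem_nil, or_false, forall_eq_or_imp,
        forall_eq, decide_eq_true_eq, decide_eq_false_iff_not, vF, vEQ, vLT, vMEM, g0, g1, g2, g3,
        g4, g5, g6, hη, hH, Fm.Holds, hcl, hadd, hmul, d0, d1, d2, d3, d4, Tm.val] at hm
    case imp1 => tauto
    case imp2 => tauto
    case imp3 => tauto
    case allN1 => exact hm.2 (hm.1 _)
    case allN2 => exact hm.1 (I.witN _ _ _ hm.2)
    case allS1 => exact hm.2 (hm.1 _ (I.hK _))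
    case allS2 => exact hm.1 (I.witS _ _ _ hm.2)
    case eq1 => exact hm.2 hm.1
    case eq2 => exact hm.1 hm.2
    case lt1 => exact hm.2 hm.1
    case lt2 => exact hm.1 hm.2
    case memz1 => exact hm.2 hm.1
    case memz2 => exact hm.1 hm.2
    case mems1 => exact hm.2 hm.1
    case mems2 => exact hm.1 hm.2
    case refl => exact hm trivial
    case symm => exact hm.2 hm.1.symm
    case trans => exact hm.2.2 (hm.1.trans hm.2.1)
    case addc => exact hm.2.2 (by rw [hm.1, hm.2.1])
    case mulc => exact hm.2.2 (by rw [hm.1, hm.2.1])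
    case ltc =>
      obtain ⟨h1, h2, h3, h4⟩ := hm
      rw [h1, h2] at h3
      exact h4 h3
    case memc =>
      obtain ⟨h1, h2, h3⟩ := hm
      rw [h1] at h2
      exact h3 h2
    case varz => exact hm rfl
    case vars => exact hm rfl
    case zero => exact hm trivial
    case one => exact hm trivial
    case addt => exact hm trivial
    case mult => exact hm trivial
  · intro ψ hψ
    rw [decide_eq_true_eq, vF, hGc]
    constructor
    · exact models_sentence hψ
    · intro h
      exact h _ _ (fun i => I.hK _)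

end Pool.Agent.Lib.MP_3ad381_lc
end

section

/-!
# Semantic consequence is recursively enumerable
-/

namespace Pool.Agent.Lib.MP_3ad381_lc

theorem not_proves_iff (T : Set Fm) (φ : Fm) (hT : ∀ ψ ∈ T, ψ.Sentence) (hφ : φ.Sentence) :
    ¬ Proves T φ ↔ ∃ v : ℕ → Bool, (∀ c ∈ allCT, ∀ m, ¬ MatchV v (patt' c m)) ∧
      (∀ y ∈ {y | ∃ ψ ∈ T, y = ψ.code}, v (pF y 0 0) = true) ∧ v (pF φ.code 0 0) = false := by
  constructor
  · intro h
    rw [Proves] at h
    push Not at h
    obtain ⟨A, hA, hnot⟩ := h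
    obtain ⟨v, hv, h1⟩ := exists_good A
    refine ⟨v, (good_iff v).1 hv, ?_, ?_⟩
    · rintro _ ⟨ψ, hψ, rfl⟩
      exact (h1 ψ (hT ψ hψ)).2 (hA ψ hψ)
    · rw [← Bool.not_eq_true, h1 φ hφ]
      exact hnot
  · rintro ⟨v, hv, h1, h2⟩ h
    have hg : Good v := (good_iff v).2 hv
    have h3 := h hg.str (fun ψ hψ => (hg.models_iff (hT ψ hψ)).2 (h1 _ ⟨ψ, hψ, rfl⟩))
    rw [hg.models_iff hφ, h2] at h3
    exact absurd h3 (by decide)

/-- Recursive enumerability of semantic consequence. -/
theorem proves_re : ∃ R : List ℕ → ℕ → Prop, REPred (fun x : List ℕ × ℕ => R x.1 x.2) ∧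
    ∀ (T : Set Fm) (φ : Fm), (∀ ψ ∈ T, ψ.Sentence) → φ.Sentence →
      (Proves T φ ↔ ∃ l : List ℕ, (∀ y ∈ l, ∃ ψ ∈ T, y = ψ.code) ∧ R l φ.code) := by
  obtain ⟨R, hR, h⟩ := re_unsat (all := allCT) (g := patt') (pos := fun y => pF y 0 0)
    (fun c _ => c_patt' c) (c_pF Computable.id (Computable.const 0) (Computable.const 0))
  refine ⟨R, hR, fun T φ hT hφ => ?_⟩
  have h1 := h {y | ∃ ψ ∈ T, y = ψ.code} φ.code
  rw [← not_proves_iff T φ hT hφ, not_not] at h1
  exact h1

end Pool.Agent.Lib.MP_3ad381_lc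
end

section

/-!
# Existence of a provability predicate and of a truth predicate
-/

namespace Pool.Agent.Lib.MP_3ad381_lc

theorem exists_proofPredicate : Nonempty ProofPredicate := by
  obtain ⟨R, hR, hP⟩ := proves_re
  -- derivations are coded lists of axioms
  let D : ℕ → ℕ → Prop := fun p x => R ((Encodable.decode (α := List ℕ) p).getD []) x
  let U : ℕ → ℕ → Prop := fun y p => y ∈ (Encodable.decode (α := List ℕ) p).getD []
  have hdec : Computable (fun p : ℕ => (Encodable.decode (α := List ℕ) p).getD []) :=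
    (Primrec.option_getD.comp Primrec.decode (Primrec.const [])).to_comp
  have hD : REPred (fun x : ℕ × ℕ => D x.1 x.2) :=
    hR.comp ((hdec.comp Computable.fst).pair Computable.snd)
  have hmem : PrimrecRel (fun (l : List ℕ) (y : ℕ) => ∃ a ∈ l, a = y) :=
    PrimrecRel.exists_mem_list Primrec.eq
  have hdecP : Primrec (fun p : ℕ => (Encodable.decode (α := List ℕ) p).getD []) :=
    Primrec.option_getD.comp Primrec.decode (Primrec.const [])
  have hU : REPred (fun x : ℕ × ℕ => U x.1 x.2) := by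
    have h1 : PrimrecPred (fun x : ℕ × ℕ => ∃ a ∈ (Encodable.decode (α := List ℕ) x.2).getD [],
        a = x.1) := hmem.comp (hdecP.comp Primrec.snd) Primrec.fst
    have h2 : PrimrecPred (fun x : ℕ × ℕ => U x.1 x.2) := h1.of_eq (fun x => by simp [U])
    obtain ⟨hd, h3⟩ := h2
    exact ComputablePred.to_re ⟨hd, h3.to_comp⟩
  obtain ⟨der, d1, d2, d3⟩ := re_arith D hD
  obtain ⟨use, u1, u2, u3⟩ := re_arith U hU
  refine ⟨⟨der, use, d1, u1, d2, u2, fun T φ hT hφ => ?_⟩⟩
  rw [hP T φ hT hφ]
  constructor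
  · rintro ⟨l, h1, h2⟩
    refine ⟨Encodable.encode l, ?_, ?_⟩
    · rw [d3]
      simpa [D] using h2
    · intro y hy
      rw [u3] at hy
      exact h1 y (by simpa [U] using hy)
  · rintro ⟨p, h1, h2⟩
    refine ⟨(Encodable.decode (α := List ℕ) p).getD [], ?_, ?_⟩
    · intro y hy
      exact h2 y ((u3 y p).2 hy)
    · rw [d3] at h1
      exact h1

end Pool.Agent.Lib.MP_3ad381_lc
end

section

/-!
# A formula defining the codes of `Π^1_1` sentences
-/

namespace Pool.Agent.Lib.MP_3ad381_lc

/-- `c` is the code of a term with variables `< k` (according to `S`). -/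
def TmIn (A : Str) (S : Set A.M) (c k : A.M) : Prop := prA A (numA A 0) (prA A c k) ∈ S

/-- `c` is the code of an arithmetical formula with number variables `< k` and set variables `< l`
(according to `S`). -/
def FmIn (A : Str) (S : Set A.M) (c k l : A.M) : Prop :=
  prA A (numA A 1) (prA A c (prA A k l)) ∈ S

/-- `S` is closed under the formation rules for terms and arithmetical formulas. -/
def SynClosed (A : Str) (S : Set A.M) : Prop :=
  (∀ n k, A.lt n k → TmIn A S (prA A (numA A 0) n) k) ∧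
  (∀ k, TmIn A S (prA A (numA A 1) (numA A 0)) k) ∧
  (∀ k, TmIn A S (prA A (numA A 2) (numA A 0)) k) ∧
  (∀ s t k, TmIn A S s k → TmIn A S t k → TmIn A S (prA A (numA A 3) (prA A s t)) k) ∧
  (∀ s t k, TmIn A S s k → TmIn A S t k → TmIn A S (prA A (numA A 4) (prA A s t)) k) ∧
  (∀ s t k l, TmIn A S s k → TmIn A S t k → FmIn A S (prA A (numA A 0) (prA A s t)) k l) ∧
  (∀ s t k l, TmIn A S s k → TmIn A S t k → FmIn A S (prA A (numA A 1) (prA A s t)) k l) ∧
  (∀ t x k l, TmIn A S t k → A.lt x l → FmIn A S (prA A (numA A 2) (prA A t x)) k l) ∧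
  (∀ k l, FmIn A S (prA A (numA A 3) (numA A 0)) k l) ∧
  (∀ p q k l, FmIn A S p k l → FmIn A S q k l → FmIn A S (prA A (numA A 4) (prA A p q)) k l) ∧
  (∀ p k l, FmIn A S p (A.add k A.one) l → FmIn A S (prA A (numA A 5) p) k l)

theorem udef_syn : UDef 1 1 (fun A e E => SynClosed A (E 0) →
    ∃ c, e 0 = prA A (numA A 6) c ∧ FmIn A (E 0) c (numA A 0) (numA A 1)) := by
  unfold SynClosed TmIn FmIn
  repeat' first
    | apply UDef.not
    | apply UDef.and
    | apply UDef.or
    | apply UDef.iff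
    | apply UDef.ex
    | apply UDef.imp
    | apply UDef.all
    | (refine UDef.eq ?_ ?_ <;> (repeat' first
        | exact UTerm.var _ (by omega)
        | exact UTerm.zero
        | exact UTerm.one
        | exact UTerm.numA _
        | apply UTerm.prA
        | apply UTerm.add
        | apply UTerm.mul); done)
    | (refine UDef.lt ?_ ?_ <;> (repeat' first
        | exact UTerm.var _ (by omega)
        | exact UTerm.zero
        | exact UTerm.one
        | exact UTerm.numA _
        | apply UTerm.prA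
        | apply UTerm.add
        | apply UTerm.mul); done)
    | (refine UDef.mem ?_ _ (by omega) <;> (repeat' first
        | exact UTerm.var _ (by omega)
        | exact UTerm.zero
        | exact UTerm.one
        | exact UTerm.numA _
        | apply UTerm.prA
        | apply UTerm.add
        | apply UTerm.mul); done)

section

variable {A : Str} (hr : RecEqs A)
  (hlt : ∀ (i n : ℕ), i < n → A.lt (numA A i) (numA A n)) {S : Set A.M} (hS : SynClosed A S)
include hr hlt hS

theorem tmIn_code : ∀ (t : Tm) (k : ℕ), t.Closed k → TmIn A S (numA A t.code) (numA A k)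
  | .var n, k, h => by
    have := hS.1 (numA A n) (numA A k) (hlt n k h)
    rwa [numA_pr hr] at this
  | .zero, k, _ => by
    have := hS.2.1 (numA A k)
    rwa [numA_pr hr] at this
  | .one, k, _ => by
    have := hS.2.2.1 (numA A k)
    rwa [numA_pr hr] at this
  | .add s t, k, h => by
    have := hS.2.2.2.1 _ _ (numA A k) (tmIn_code s k h.1) (tmIn_code t k h.2)
    rwa [numA_pr hr, numA_pr hr] at this
  | .mul s t, k, h => by
    have := hS.2.2.2.2.1 _ _ (numA A k) (tmIn_code s k h.1) (tmIn_code t k h.2)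
    rwa [numA_pr hr, numA_pr hr] at this

theorem fmIn_code : ∀ (φ : Fm) (k l : ℕ), φ.Arith → φ.Closed k l →
    FmIn A S (numA A φ.code) (numA A k) (numA A l)
  | .eq s t, k, l, _, h => by
    have := hS.2.2.2.2.2.1 _ _ (numA A k) (numA A l) (tmIn_code hr hlt hS s k h.1)
      (tmIn_code hr hlt hS t k h.2)
    rwa [numA_pr hr, numA_pr hr] at this
  | .lt s t, k, l, _, h => by
    have := hS.2.2.2.2.2.2.1 _ _ (numA A k) (numA A l) (tmIn_code hr hlt hS s k h.1)
      (tmIn_code hr hlt hS t k h.2)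
    rwa [numA_pr hr, numA_pr hr] at this
  | .mem t X, k, l, _, h => by
    have := hS.2.2.2.2.2.2.2.1 _ (numA A X) (numA A k) (numA A l) (tmIn_code hr hlt hS t k h.1)
      (hlt X l h.2)
    rwa [numA_pr hr, numA_pr hr] at this
  | .fal, k, l, _, _ => by
    have := hS.2.2.2.2.2.2.2.2.1 (numA A k) (numA A l)
    rwa [numA_pr hr] at this
  | .imp φ ψ, k, l, ha, h => by
    have := hS.2.2.2.2.2.2.2.2.2.1 _ _ (numA A k) (numA A l) (fmIn_code φ k l ha.1 h.1)
      (fmIn_code ψ k l ha.2 h.2)
    rwa [numA_pr hr, numA_pr hr] at this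
  | .allN φ, k, l, ha, h => by
    have := hS.2.2.2.2.2.2.2.2.2.2 _ (numA A k) (numA A l) (fmIn_code φ (k + 1) l ha h)
    rwa [numA_pr hr] at this
  | .allS φ, _, _, ha, _ => ha.elim

end

/-- The set of all codes of terms and arithmetical formulas, with bounds for the variables. -/
def synSet : Set stdModel.M :=
  {m : ℕ | (∃ (t : Tm) (k : ℕ), t.Closed k ∧ m = pr 0 (pr t.code k)) ∨
    (∃ (φ : Fm) (k l : ℕ), φ.Arith ∧ φ.Closed k l ∧ m = pr 1 (pr φ.code (pr k l)))}

theorem tmIn_synSet {c k : ℕ} : TmIn stdModel synSet c k ↔ ∃ t : Tm, t.Closed k ∧ c = t.code := by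
  unfold TmIn
  rw [std_numA, std_prA, std_prA]
  constructor
  · rintro (⟨t, k', h, h'⟩ | ⟨φ, k', l', _, _, h'⟩)
    · obtain ⟨h1, h2⟩ := pr_inj (pr_inj h').2
      exact ⟨t, h2 ▸ h, h1⟩
    · exact absurd (pr_inj h').1 (by omega)
  · rintro ⟨t, h, rfl⟩
    exact Or.inl ⟨t, k, h, rfl⟩

theorem fmIn_synSet {c k l : ℕ} : FmIn stdModel synSet c k l ↔
    ∃ φ : Fm, φ.Arith ∧ φ.Closed k l ∧ c = φ.code := by
  unfold FmIn
  rw [std_numA, std_prA, std_prA, std_prA]
  constructor
  · rintro (⟨t, k', _, h'⟩ | ⟨φ, k', l', h, g, h'⟩)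
    · exact absurd (pr_inj h').1 (by omega)
    · obtain ⟨h1, h2⟩ := pr_inj (pr_inj h').2
      obtain ⟨h3, h4⟩ := pr_inj h2
      subst h3 h4
      exact ⟨φ, h, g, h1⟩
  · rintro ⟨φ, h, g, rfl⟩
    exact Or.inr ⟨φ, k, l, h, g, rfl⟩

theorem synClosed_synSet : SynClosed stdModel synSet := by
  refine ⟨?_, ?_, ?_, ?_, ?_, ?_, ?_, ?_, ?_, ?_, ?_⟩
  · intro n k h
    exact tmIn_synSet.2 ⟨.var n, h, by rw [std_numA]; rfl⟩
  · intro k
    exact tmIn_synSet.2 ⟨.zero, trivial, by rw [std_numA, std_numA]; rfl⟩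
  · intro k
    exact tmIn_synSet.2 ⟨.one, trivial, by rw [std_numA, std_numA]; rfl⟩
  · intro s t k h1 h2
    obtain ⟨s', g1, rfl⟩ := tmIn_synSet.1 h1
    obtain ⟨t', g2, rfl⟩ := tmIn_synSet.1 h2
    exact tmIn_synSet.2 ⟨.add s' t', ⟨g1, g2⟩, by rw [std_numA]; rfl⟩
  · intro s t k h1 h2
    obtain ⟨s', g1, rfl⟩ := tmIn_synSet.1 h1
    obtain ⟨t', g2, rfl⟩ := tmIn_synSet.1 h2
    exact tmIn_synSet.2 ⟨.mul s' t', ⟨g1, g2⟩, by rw [std_numA]; rfl⟩
  · intro s t k l h1 h2
    obtain ⟨s', g1, rfl⟩ := tmIn_synSet.1 h1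
    obtain ⟨t', g2, rfl⟩ := tmIn_synSet.1 h2
    exact fmIn_synSet.2 ⟨.eq s' t', trivial, ⟨g1, g2⟩, by rw [std_numA]; rfl⟩
  · intro s t k l h1 h2
    obtain ⟨s', g1, rfl⟩ := tmIn_synSet.1 h1
    obtain ⟨t', g2, rfl⟩ := tmIn_synSet.1 h2
    exact fmIn_synSet.2 ⟨.lt s' t', trivial, ⟨g1, g2⟩, by rw [std_numA]; rfl⟩
  · intro t x k l h1 h2
    obtain ⟨t', g1, rfl⟩ := tmIn_synSet.1 h1
    exact fmIn_synSet.2 ⟨.mem t' x, trivial, ⟨g1, h2⟩, by rw [std_numA]; rfl⟩
  · intro k l
    exact fmIn_synSet.2 ⟨.fal, trivial, trivial, by rw [std_numA, std_numA]; rfl⟩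
  · intro p q k l h1 h2
    obtain ⟨p', a1, g1, rfl⟩ := fmIn_synSet.1 h1
    obtain ⟨q', a2, g2, rfl⟩ := fmIn_synSet.1 h2
    exact fmIn_synSet.2 ⟨.imp p' q', ⟨a1, a2⟩, ⟨g1, g2⟩, by rw [std_numA]; rfl⟩
  · intro p k l h1
    obtain ⟨p', a1, g1, rfl⟩ := fmIn_synSet.1 h1
    exact fmIn_synSet.2 ⟨.allN p', a1, g1, by rw [std_numA]; rfl⟩

/-- There is a formula that defines the set of codes of `Π^1_1` sentences in the standard model and
is provable of each of them in `ACA_0`. -/
theorem exists_sent : ∃ sent : Fm, sent.Closed 1 0 ∧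
    (∀ n, TrueAt sent n ↔ ∃ φ, IsPi11Sentence φ ∧ n = φ.code) ∧
    ∀ φ, IsPi11Sentence φ → Proves {ψ | ACA0 ψ} (inst sent φ.code) := by
  obtain ⟨ψ, h1, h2, h3⟩ := udef_syn
  have key : ∀ (A : Str), RecEqs A → (∀ (i n : ℕ), i < n → A.lt (numA A i) (numA A n)) →
      ∀ φ, IsPi11Sentence φ → ∀ e E, (ψ.allS).Holds A (cons (numA A φ.code) e) E := by
    rintro A hr hlt φ ⟨hsent, θ, hθ, rfl⟩ e E S hS
    rw [h3]
    intro hcl
    refine ⟨numA A θ.code, ?_, fmIn_code hr hlt hcl θ 0 1 hθ hsent⟩
    show numA A (Fm.allS θ).code = _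
    rw [numA_pr hr]
    rfl
  refine ⟨ψ.allS, h2, fun n => ⟨fun h => ?_, ?_⟩, fun φ hφ A hA e E hE => ?_⟩
  · have h4 := (h3 _ _ _).1 (h synSet trivial) synClosed_synSet
    obtain ⟨c, hc, h5⟩ := h4
    rw [std_numA, std_numA] at h5
    obtain ⟨θ, a, b, rfl⟩ := fmIn_synSet.1 h5
    refine ⟨θ.allS, ⟨b, θ, a, rfl⟩, ?_⟩
    have : n = prA stdModel (numA stdModel 6) θ.code := hc
    rw [this, std_numA]
    rfl
  · rintro ⟨φ, hφ, rfl⟩
    have h4 := key stdModel ⟨fun a => ?_, fun a b => ?_, fun a => ?_, fun a b => ?_⟩ ?_ φ hφ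
      (fun _ => (0 : ℕ)) (fun _ => ∅)
    · rw [std_numA] at h4
      exact h4
    · exact Nat.add_zero a
    · exact (Nat.add_assoc a b 1).symm
    · exact Nat.mul_zero a
    · exact Nat.mul_succ a b
    · intro i n hin
      rw [std_numA, std_numA]
      exact hin
  · rw [holds_inst]
    exact key A (recEqs (fun φ hφ => hA φ hφ)) (fun i n hin =>
      (lt_numA (fun φ hφ => hA φ hφ) n _).2 ⟨i, hin, rfl⟩) φ hφ e E

end Pool.Agent.Lib.MP_3ad381_lc
end
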